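import Pool.Agent.P.MP_181197_gt.Square
import Pool.Agent.Lib.Helper87.Codes

/-!
The first uncountable ordinal, finite conditions for a generic colouring of pairs, and the
amalgamation lemmas.
-/

open Cardinal Set Function Filter Topology Pool.Agent.Lib.Helper87

namespace Pool.Agent.P.MP_181197_gt.Con

/-- the first uncountable ordinal -/
def I : Type := (ℵ₁ : Cardinal.{0}).ord.ToType

noncomputable instance : LinearOrder I :=
  inferInstanceAs (LinearOrder (ℵ₁ : Cardinal.{0}).ord.ToType)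

instance : WellFoundedLT I := inferInstanceAs (WellFoundedLT (ℵ₁ : Cardinal.{0}).ord.ToType)

theorem mk_I : #I = ℵ₁ := mk_ord_toType _

theorem seg (γ : I) : (Iio γ).Countable := by
  rw [countable_iff_lt_aleph_one, ← mk_I]
  exact mk_Iio_lt γ (by rw [mk_I]; exact (Ordinal.type_toType _).symm)

theorem bdd {ι : Type} [Countable ι] (f : ι → I) : ∃ γ, ∀ i, f i < γ := by
  by_contra h
  push Not at h
  have : (univ : Set I).Countable :=
    (countable_iUnion fun i => (seg (f i)).insert (f i)).mono fun γ _ => by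
      obtain ⟨i, hi⟩ := h γ
      exact mem_iUnion.2 ⟨i, hi.eq_or_lt⟩
  rw [countable_iff_lt_aleph_one, mk_univ, mk_I] at this
  exact lt_irrefl _ this

theorem bdd_set {A : Set I} (hA : A.Countable) : ∃ γ, ∀ a ∈ A, a < γ := by
  have := hA.to_subtype
  obtain ⟨γ, h⟩ := bdd fun a : A => a.1
  exact ⟨γ, fun a ha => h ⟨a, ha⟩⟩

instance : Nonempty I := ⟨(bdd (Empty.elim : Empty → I)).choose⟩

theorem exists_rr : ∃ r : I → ℕ → Bool, Injective r := by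
  have : #I ≤ #(ℕ → Bool) := by
    rw [mk_I]
    simpa using aleph_one_le_continuum
  obtain ⟨e⟩ := this
  exact ⟨e, e.injective⟩

theorem large_univ : Large (univ : Set I) := fun γ =>
  let ⟨δ, hδ⟩ := bdd (fun _ : Unit => γ); ⟨δ, mem_univ _, hδ ()⟩

theorem lpigeon {ι : Type} [Countable ι] {S : Set I} (hS : Large S)
    (p : I → ι → Prop) (hp : ∀ a ∈ S, ∃ i, p a i) : ∃ i, Large {a ∈ S | p a i} := by
  by_contra hcon
  simp only [Large, not_exists, not_forall] at hcon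
  choose γ hγ using hcon
  obtain ⟨δ, hδ⟩ := bdd γ
  obtain ⟨a, ha, ha'⟩ := hS δ
  obtain ⟨i, hi⟩ := hp a ha
  exact hγ i a ⟨⟨ha, hi⟩, (hδ i).trans ha'⟩

theorem lconst {ι : Type} [Countable ι] {S : Set I} (hS : Large S) (v : I → ι) :
    ∃ S' ⊆ S, Large S' ∧ ∃ i, ∀ a ∈ S', v a = i := by
  obtain ⟨i, h⟩ := lpigeon hS (fun a i => v a = i) fun a _ => ⟨_, rfl⟩
  exact ⟨_, sep_subset _ _, h, i, fun _ h => h.2⟩

theorem lsplit {κ : Type} [Finite κ] (a : I → κ → I) {S : Set I} (hS : Large S) :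
    ∃ S' ⊆ S, Large S' ∧ ∃ (J : Set κ) (ρ : κ → I), (∀ ξ ∈ S', ∀ l ∉ J, a ξ l = ρ l) ∧
      ∀ γ, ∃ γ', ∀ ξ ∈ S', γ' < ξ → ∀ l ∈ J, γ < a ξ l := by
  classical
  obtain ⟨ξ0, -, -⟩ := hS (Classical.arbitrary I)
  let Good : Set κ → Prop := fun K => ∃ S' ⊆ S, Large S' ∧ ∃ ρ : κ → I,
    ∀ ξ ∈ S', ∀ l ∈ K, a ξ l = ρ l
  have hne : {K | Good K}.Nonempty := ⟨∅, S, Subset.rfl, hS, a ξ0, by simp⟩
  obtain ⟨K, hK⟩ := (toFinite {K | Good K}).exists_maximal hne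
  obtain ⟨S', hS'1, hS'2, ρ, hρ⟩ := hK.prop
  have key : ∀ l z, ∃ γ, l ∉ K → ∀ ξ ∈ S', γ < ξ → a ξ l ≠ z := by
    intro l z
    by_contra hcon
    push Not at hcon
    have hl := (hcon z).1
    have hg : Good (insert l K) := by
      refine ⟨{ξ ∈ S' | a ξ l = z}, fun ξ hξ => hS'1 hξ.1, fun γ => ?_, update ρ l z, ?_⟩
      · obtain ⟨ξ, h1, h2, h3⟩ := (hcon γ).2
        exact ⟨ξ, ⟨h1, h3⟩, h2⟩
      · rintro ξ hξ l' (rfl | hl')
        · simpa using hξ.2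
        · have : l' ≠ l := fun e => hl (e ▸ hl')
          rw [update_of_ne this]
          exact hρ ξ hξ.1 l' hl'
    exact hl (hK.le_of_ge hg (subset_insert l K) (mem_insert l K))
  choose b hb using key
  refine ⟨S', hS'1, hS'2, Kᶜ, ρ, fun ξ hξ l hl => hρ ξ hξ l (by simpa using hl), fun γ => ?_⟩
  have := ((seg γ).insert γ).to_subtype
  obtain ⟨γ', hγ'⟩ := bdd fun x : κ × (insert γ (Iio γ) : Set I) => b x.1 x.2.1
  refine ⟨γ', fun ξ hξ hlt l hl => ?_⟩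
  by_contra hle
  exact hb l _ hl ξ hξ ((hγ' (l, ⟨_, (not_lt.1 hle).eq_or_lt⟩)).trans hlt) rfl

/-- finite conditions; the value zero means undecided -/
structure P : Type where
  f : I × I → ℕ
  fin : (support f).Finite

instance : Preorder P where
  le q p := ∀ x, p.f x ≠ 0 → q.f x = p.f x
  le_refl _ _ _ := rfl
  le_trans a b c h1 h2 x hx := (h1 x (by rw [h2 x hx]; exact hx)).trans (h2 x hx)

theorem le_def {p q : P} : q ≤ p ↔ ∀ x, p.f x ≠ 0 → q.f x = p.f x := Iff.rfl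

instance : Nonempty P := ⟨⟨0, by simp⟩⟩

/-- the ordinals mentioned by a condition -/
def fld (p : P) : Set I := Prod.fst '' support p.f ∪ Prod.snd '' support p.f

theorem fld_finite (p : P) : (fld p).Finite := (p.fin.image _).union (p.fin.image _)

theorem fst_mem {p : P} {x : I × I} (h : p.f x ≠ 0) : x.1 ∈ fld p := Or.inl ⟨x, h, rfl⟩

theorem snd_mem {p : P} {x : I × I} (h : p.f x ≠ 0) : x.2 ∈ fld p := Or.inr ⟨x, h, rfl⟩

theorem compat (p q : P) (h : ∀ x, p.f x ≠ 0 → q.f x ≠ 0 → p.f x = q.f x) :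
    ∃ r ≤ p, r ≤ q ∧ ∀ x, r.f x ≠ 0 → p.f x ≠ 0 ∨ q.f x ≠ 0 := by
  have key : ∀ x, (if p.f x = 0 then q.f x else p.f x) ≠ 0 → p.f x ≠ 0 ∨ q.f x ≠ 0 := by
    intro x hx
    split_ifs at hx with h0
    exacts [Or.inr hx, Or.inl hx]
  refine ⟨⟨fun x => if p.f x = 0 then q.f x else p.f x, (p.fin.union q.fin).subset key⟩,
    fun x hx => if_neg hx, fun x hx => ?_, key⟩
  change (if p.f x = 0 then q.f x else p.f x) = q.f x
  split_ifs with h0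
  exacts [rfl, h x h0 hx]

theorem delta {S : Set I} (hS : Large S) (p : I → P) : ∃ S' ⊆ S, Large S' ∧ ∃ R : Set I,
    R.Finite ∧ (∀ ξ ∈ S', ∀ ξ' ∈ S', ∀ x : I × I, x.1 ∈ R → x.2 ∈ R → (p ξ).f x = (p ξ').f x) ∧
      ∀ γ, ∃ γ', ∀ ξ ∈ S', γ' < ξ → ∀ z ∈ fld (p ξ), z ∈ R ∨ γ < z := by
  obtain ⟨k, h1⟩ := lpigeon hS (fun ξ (k : ℕ) => ∃ E : Fin k → I, fld (p ξ) ⊆ range E)
    fun ξ _ => by
      obtain ⟨k, E, -, hE⟩ := (fld_finite (p ξ)).fin_param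
      exact ⟨k, E, hE.superset⟩
  have h2 : ∀ ξ, ∃ E : Fin k → I, (∃ E : Fin k → I, fld (p ξ) ⊆ range E) →
      fld (p ξ) ⊆ range E := fun ξ => by
    by_cases h : ∃ E : Fin k → I, fld (p ξ) ⊆ range E
    exacts [⟨h.choose, fun _ => h.choose_spec⟩, ⟨fun _ => ξ, fun h' => absurd h' h⟩]
  choose E hE using h2
  obtain ⟨S2, a1, a2, J, ρ, a3, a4⟩ := lsplit E h1
  obtain ⟨S3, b1, b2, v, b3⟩ := lconst a2 fun ξ (j l : Fin k) => (p ξ).f (ρ j, ρ l)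
  refine ⟨S3, fun ξ h => (a1 (b1 h)).1, b2, range ρ, finite_range _, ?_, fun γ => ?_⟩
  · rintro ξ hξ ξ' hξ' ⟨_, _⟩ ⟨j, rfl⟩ ⟨l, rfl⟩
    exact congrFun (congrFun ((b3 ξ hξ).trans (b3 ξ' hξ').symm) j) l
  · obtain ⟨γ', h⟩ := a4 γ
    refine ⟨γ', fun ξ hξ hlt z hz => ?_⟩
    obtain ⟨l, rfl⟩ := hE ξ (a1 (b1 hξ)).2 hz
    by_cases hl : l ∈ J
    exacts [Or.inr (h ξ (b1 hξ) hlt l hl), Or.inl ⟨l, (a3 ξ (b1 hξ) l hl).symm⟩]

theorem amalg {S : Set I} (hS : Large S) (p : I → P) {κ : Type} [Finite κ] (a : I → κ → I)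
    (hinj : ∀ ξ ∈ S, Injective (a ξ)) (hmv : ∀ γ, ∃ γ', ∀ ξ ∈ S, γ' < ξ → ∀ l, γ < a ξ l)
    (pat : κ → κ → ℕ) : ∃ ξ ∈ S, ∃ ξ' ∈ S, ξ < ξ' ∧ (∀ i j, a ξ i < a ξ' j) ∧
      ∃ q ≤ p ξ, q ≤ p ξ' ∧ ∀ i j, q.f (a ξ i, a ξ' j) = pat i j + 1 := by
  obtain ⟨S', h1, h2, R, h3, h4, h5⟩ := delta hS p
  obtain ⟨γR, hR⟩ := bdd_set h3.countable
  obtain ⟨γ1, h6⟩ := hmv γR
  obtain ⟨ξ, hξ, hξ1⟩ := h2 γ1
  obtain ⟨γ2, h7⟩ := bdd_set
    ((((fld_finite (p ξ)).union (finite_range (a ξ))).insert ξ).countable)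
  obtain ⟨γ3, h8⟩ := h5 γ2
  obtain ⟨γ4, h9⟩ := hmv γ2
  obtain ⟨ξ', hξ', hξ2⟩ := h2 (max γ2 (max γ3 γ4))
  simp only [max_lt_iff] at hξ2
  have c1 : ∀ i, a ξ i < γ2 := fun i => h7 _ (Or.inr (Or.inr ⟨i, rfl⟩))
  have c2 : ∀ j, γ2 < a ξ' j := h9 ξ' (h1 hξ') hξ2.2.2
  have c3 : ∀ z ∈ fld (p ξ'), z < γ2 → z ∈ R := fun z hz hlt =>
    (h8 ξ' hξ' hξ2.2.1 z hz).resolve_right hlt.not_gt
  have c4 : ∀ z ∈ fld (p ξ), z < γ2 := fun z hz => h7 _ (Or.inr (Or.inl hz))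
  obtain ⟨r, r1, r2, r3⟩ := compat (p ξ) (p ξ') fun x hx hx' =>
    h4 ξ hξ ξ' hξ' x (c3 _ (fst_mem hx') (c4 _ (fst_mem hx))) (c3 _ (snd_mem hx') (c4 _ (snd_mem hx)))
  let e : κ × κ → I × I := fun ij => (a ξ ij.1, a ξ' ij.2)
  have he : Injective e := (hinj ξ (h1 hξ)).prodMap (hinj ξ' (h1 hξ'))
  have hs : support (extend e (fun ij => pat ij.1 ij.2 + 1) 0) ⊆ range e := fun x hx => by
    by_contra hc
    exact hx (extend_apply' _ _ _ hc)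
  obtain ⟨q, q1, q2, -⟩ := compat r ⟨_, (finite_range e).subset hs⟩ fun x hx hx' => by
    obtain ⟨⟨i, j⟩, rfl⟩ := hs hx'
    rcases r3 _ hx with h | h
    · exact absurd (c4 _ (snd_mem h)) (c2 j).not_gt
    · exact absurd (hR _ (c3 _ (fst_mem h) (c1 i))) (h6 ξ (h1 hξ) hξ1 i).not_gt
  refine ⟨ξ, h1 hξ, ξ', h1 hξ', (h7 ξ (Or.inl rfl)).trans hξ2.1, fun i j => (c1 i).trans (c2 j),
    q, q1.trans r1, q1.trans r2, fun i j => ?_⟩
  have : extend e (fun ij => pat ij.1 ij.2 + 1) 0 (e (i, j)) = pat i j + 1 := he.extend_apply _ _ _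
  exact (q2 (e (i, j)) (this.trans_ne (by omega))).trans this

theorem exists_unb {S : Set I} (hS : Large S) (p : I → P) :
    ∃ ξ0 ∈ S, ∀ q ≤ p ξ0, ∀ γ, ∃ ξ ∈ S, γ < ξ ∧ ∃ r ≤ q, r ≤ p ξ := by
  obtain ⟨S', h1, h2, R, -, h4, h5⟩ := delta hS p
  obtain ⟨ξ0, h0, -⟩ := h2 (Classical.arbitrary I)
  refine ⟨ξ0, h1 h0, fun q hq γ => ?_⟩
  obtain ⟨γ2, h7⟩ := bdd_set (fld_finite q).countable
  obtain ⟨γ3, h8⟩ := h5 γ2
  obtain ⟨ξ, hξ, hξ2⟩ := h2 (max γ γ3)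
  simp only [max_lt_iff] at hξ2
  have c3 : ∀ z ∈ fld (p ξ), z ∈ fld q → z ∈ R := fun z hz hz' =>
    (h8 ξ hξ hξ2.2 z hz).resolve_right (h7 z hz').not_gt
  obtain ⟨r, r1, r2, -⟩ := compat q (p ξ) fun x hx hx' => by
    have := h4 ξ0 h0 ξ hξ x (c3 _ (fst_mem hx') (fst_mem hx)) (c3 _ (snd_mem hx') (snd_mem hx))
    rw [hq x (this ▸ hx'), this]
  exact ⟨ξ, h1 hξ, hξ2.1, r, r1, r2⟩

/-- the generic colouring -/
noncomputable def col (w : World P) (x : I × I) : ℕ := sInf {n | w.Frc fun p => p.f x = n + 1}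

theorem sem_col {q : P} {x : I × I} {n : ℕ} (h : q.f x = n + 1) :
    Sem q fun w => col w x = n := by
  filter_upwards [ev_generic] with w hw ⟨r, hr, hrq⟩
  have h1 : r.f x = n + 1 := (hrq x (by omega)).trans h
  have : {n | w.Frc fun p => p.f x = n + 1} = {n} := by
    refine Subset.antisymm ?_ (singleton_subset_iff.2 ⟨r, hr, h1⟩)
    rintro k ⟨p, hp, h2⟩
    obtain ⟨s, -, h3, h4⟩ := hw.dir r hr p hp
    have a1 := h3 x (by omega)
    have a2 := h4 x (by omega)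
    exact mem_singleton_iff.2 (by omega)
  rw [col, this, csInf_singleton]

theorem meas_col (x : I × I) : Measurable fun w => col w x := by
  classical
  refine measurable_to_countable' fun m => measurableSet_setOfPred.2
    (measurable_world_iff.2 fun p => ?_)
  have : ∃ q ≤ p, ∃ n, q.f x = n + 1 := by
    by_cases h : p.f x = 0
    · refine ⟨⟨update p.f x 1, (p.fin.insert x).subset fun y hy => ?_⟩, fun y hy => ?_, 0, by simp⟩
      · by_cases e : y = x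
        · exact Or.inl e
        · exact Or.inr (by simpa [update_of_ne e] using hy)
      · exact update_of_ne (fun e : y = x => hy (e ▸ h)) _ _
    · exact ⟨p, le_rfl, p.f x - 1, by omega⟩
  obtain ⟨q, h1, n, h2⟩ := this
  refine ⟨q, h1, ?_⟩
  by_cases e : n = m
  · exact Or.inl ((sem_col h2).imp' fun w h => h.trans e)
  · exact Or.inr ((sem_col h2).imp' fun w h h' => e (h.symm.trans h'))

/-- finitely many dense requirements can be met at once -/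
theorem sem_finite {κ : Type} [Finite κ] {A : κ → Type} {Φ : ∀ i, A i → World P → Prop} {p : P}
    (h : ∀ i, ∀ q ≤ p, ∃ r ≤ q, ∃ a, Sem r (Φ i a)) :
    ∃ r ≤ p, ∃ a : ∀ i, A i, ∀ i, Sem r (Φ i (a i)) := by
  have : ∀ s : Set κ, s.Finite → ∃ r ≤ p, ∀ i ∈ s, ∃ a, Sem r (Φ i a) := fun s hs => by
    induction s, hs using Set.Finite.induction_on with
    | empty => exact ⟨p, le_rfl, by simp⟩
    | @insert i s _ _ ih =>
      obtain ⟨r, h1, h2⟩ := ih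
      obtain ⟨r', h3, h4⟩ := h i r h1
      refine ⟨r', h3.trans h1, ?_⟩
      rintro j (rfl | hj)
      exacts [h4, (h2 j hj).imp fun a ha => ha.mono h3]
  obtain ⟨r, h1, h2⟩ := this univ finite_univ
  choose a ha using fun i => h2 i (mem_univ i)
  exact ⟨r, h1, a, ha⟩

end Pool.Agent.P.MP_181197_gt.Con
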