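import Pool.Agent.P.MP_c9188c_gt.Defs

namespace Pool.Agent.P.MP_181197_gt

open Pool.Agent.P.MP_6e1b89_gt Pool.Agent.P.MP_c9188c_gt

variable (M : Set ZFSet.{0})

/-- the continuous real functions on `(X, 𝒯)` whose graph lies in `M` -/
def CpIn {X : Type} (c : X → ZFSet.{0}) (𝒯 : Set (Set X)) : Set (X → ℝ) :=
  {f | cFun c cReal Set.univ f ∈ M ∧ ∀ x, ∀ ε > 0, ∃ U ∈ 𝒯, x ∈ U ∧ ∀ y ∈ U, |f y - f x| < ε}

/-- `𝒯` is a Tychonoff topology on `X` in the sense of `M` -/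
def TychonoffIn {X : Type} (c : X → ZFSet.{0}) (𝒯 : Set (Set X)) : Prop :=
  HausdorffIn M c 𝒯 ∧ ∀ U ∈ 𝒯, ∀ x ∈ U, ∃ f ∈ CpIn M c 𝒯, f x = 0 ∧ ∀ y ∉ U, f y = 1

/-- disjoint closed sets lying in `M` are separated by open sets lying in `M` -/
def NormalIn {Z : Type} [TopologicalSpace Z] (d : Z → ZFSet.{0}) : Prop :=
  ∀ A B : Set Z, cSet d A ∈ M → cSet d B ∈ M → IsClosed A → IsClosed B → Disjoint A B →
    ∃ U V : Set Z, cSet d U ∈ M ∧ cSet d V ∈ M ∧ IsOpen U ∧ IsOpen V ∧ A ⊆ U ∧ B ⊆ V ∧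
      Disjoint U V

/-- normal in `M`, and each closed set lying in `M` is the intersection of a sequence, lying in
`M`, of open sets -/
def PerfNormalIn {Z : Type} [TopologicalSpace Z] (d : Z → ZFSet.{0}) : Prop :=
  NormalIn M d ∧ ∀ A : Set Z, cSet d A ∈ M → IsClosed A →
    ∃ s : ℕ → Set Z, cFun cNat (cSet d) Set.univ s ∈ M ∧ (∀ n, IsOpen (s n)) ∧ A = ⋂ n, s n

end Pool.Agent.P.MP_181197_gt
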