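import Pool.Agent.P.MP_181197_gt.Cohen
import Pool.Agent.P.MP_181197_gt.ConDefs
import Pool.Agent.P.MP_c9188c_gt.Code

/-!
The space in the generic extension: points, their codes, names of functions and of sets.
-/

open Set Function Filter Topology Pool.Agent.Lib.Helper87 Pool.Agent.P.MP_6e1b89_gt
open Pool.Agent.P.MP_c9188c_gt (mem_cSet mem_cSet_iff app app_cFun cRat cRat_mem rdec rdec_cReal
  named_app named_cNat meas_rdec named_cSet cNat_inj)

namespace Pool.Agent.P.MP_181197_gt.Con

theorem meas_congr {β : Type} [MeasurableSpace β] {f g : World P → β} (h : Measurable g)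
    (h' : ∀ᶠ w in gen P, f w = g w) : Measurable f := fun _ hs =>
  measurableSet_setOfPred.2 ((measurableSet_setOfPred.1 (h hs)).congr_ev
    (h'.mono fun w e => by rw [e]))

theorem meas_finset {α : Type} (E : Finset α) {Φ : α → World P → Prop}
    (h : ∀ a, Measurable (Φ a)) : Measurable fun w => ∀ a ∈ E, Φ a w := by
  have := Measurable.forall fun a : E => h a
  simpa only [Subtype.forall] using this

theorem ev_in_finset (α : Type) :
    ∀ᶠ w in gen P, ∀ E : Finset α, (∀ a ∈ E, w.In a) → w.In E := ev_all_finset fun E => ev_const E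

theorem named_dSet {J : Type} {α : World P → Type} {c : ∀ w, α w → ZFSet.{0}} {g : J → ∀ w, α w}
    (hg : ∀ j, Named fun w => c w (g j w)) {Φ : J → World P → Prop} (hΦ : ∀ j, Measurable (Φ j))
    {S : ∀ w, Set (α w)}
    (hS : ∀ᶠ w in gen P, ∀ x, x ∈ S w ↔ ∃ j, w.In j ∧ Φ j w ∧ g j w = x) :
    Named fun w => cSet (c w) (S w) := by
  refine named_of_mem_iff hg hΦ (hS.mono fun w hw z => ?_)
  simp only [mem_cSet, hw]
  constructor
  · rintro ⟨_, ⟨j, a1, a2, rfl⟩, rfl⟩
    exact ⟨j, a1, a2, rfl⟩
  · rintro ⟨j, a1, a2, rfl⟩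
    exact ⟨_, ⟨j, a1, a2, rfl⟩, rfl⟩

theorem named_dSeq {β : World P → Type} {e : ∀ w, β w → ZFSet.{0}} {s : ∀ w, ℕ → β w}
    (hs : ∀ n, Named fun w => e w (s w n)) : Named fun w => cFun cNat (e w) univ (s w) :=
  named_cSet (c := fun w n => (cNat n).pair (e w (s w n))) (g := fun n _ => n)
    (fun n => (named_cNat n).pair (hs n)) (Φ := fun _ _ => True) (fun _ => measurable_const)
    ((ev_ctype ℕ).mono fun w h x => by simp [h])

open Classical in
/-- the real number with a given lower cut -/
noncomputable def cutR (A : ℚ → Prop) : ℝ :=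
  (⨆ q : ℚ, if A q then ((q : ℝ) : EReal) else ⊥).toReal

theorem cutR_eq {A : ℚ → Prop} {r : ℝ} (h : ∀ q, A q ↔ (q : ℝ) < r) : cutR A = r := by
  have : A = fun q => cRat q ∈ cReal r := funext fun q => propext ((h q).trans cRat_mem.symm)
  rw [this]
  exact rdec_cReal r

theorem meas_cutR {A : World P → ℚ → Prop} (h : ∀ q, Measurable fun w => A w q) :
    Measurable fun w => cutR (A w) := by
  classical
  exact measurable_ereal_toReal.comp (Measurable.iSup fun q => Measurable.ite
    (measurableSet_setOfPred.2 (h q)) measurable_const measurable_const)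

theorem cReal_inj : Injective cReal := fun a b h => by rw [← rdec_cReal a, h, rdec_cReal]

theorem named_cReal {x : World P → ℝ} (h : Measurable x) : Named fun w => cReal (x w) :=
  named_cSet (c := fun _ => cRat) (g := fun q _ => q)
    (fun _ => (named_cNat _).pair ((named_cNat _).pair (named_cNat _)))
    (Φ := fun q w => (q : ℝ) < x w) (fun _ => measurable_const.lt h)
    ((ev_ctype ℚ).mono fun w h q => by simp [h])

/-- names of real numbers -/
abbrev RN : Type := ℚ → Set P

/-- values of names of real numbers -/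
noncomputable def rval (w : World P) (a : RN) : ℝ := cutR fun q => w.Hit (a q)

theorem meas_rval (a : RN) : Measurable fun w => rval w a := meas_cutR fun _ => measurable_hit _

theorem exists_rval {x : World P → ℝ} (h : Measurable x) :
    ∃ a, ∀ᶠ w in gen P, rval w a = x w :=
  ⟨fun q => {p | Sem p fun w => (q : ℝ) < x w},
    (ev_call fun q : ℚ => ev_hit_sem (measurable_const.lt h)).mono fun _ h => cutR_eq h⟩

/-- the retraction of the plane onto the square -/
def clamp (v : ℝ × ℝ) : T :=
  ⟨(max (-1) (min 1 v.1), max (-1) (min 1 v.2)), by simp [Prod.le_def]⟩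

theorem continuous_clamp : Continuous clamp := Continuous.subtype_mk (by fun_prop) _

theorem clamp_val (t : T) : clamp t.1 = t := by
  obtain ⟨⟨a, b⟩, ⟨h1, h2⟩, h3, h4⟩ := t
  simp only [Prod.fst_neg, Prod.fst_one, Prod.snd_neg, Prod.snd_one] at h1 h2 h3 h4
  simp [clamp, min_eq_right h3, min_eq_right h4, h1, h2]

/-- a dense sequence of flat maps -/
noncomputable def gg : ℕ → C(T, ℝ × ℝ) := exists_dense_flat.choose

/-- an injection into the Cantor space -/
noncomputable def rr : I → ℕ → Bool := exists_rr.choose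

/-- the maps used in the construction -/
noncomputable def hh : ℕ → C(T, ℝ × ℝ)
  | 0 => 0
  | 1 => incl
  | n + 2 => gg n

theorem flat_hh {n : ℕ} (h : n ≠ 1) : Flat (hh n) := by
  match n with
  | 0 => exact flat_zero
  | 1 => exact absurd rfl h
  | n + 2 => exact exists_dense_flat.choose_spec.1 n

theorem flat_hh_comp (n : ℕ) {G : C(T, T)} (hG : Flat (incl.comp G)) : Flat ((hh n).comp G) := by
  by_cases h : n = 1
  · rw [h]; exact hG
  · exact (flat_hh h).comp G

/-- the index of the map used at a pair of ordinals -/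
noncomputable def cd (w : World P) (β α : I) : ℕ :=
  if α < β then 0 else if α = β then 1 else col w (β, α) + 2

theorem cd_lt (w : World P) {β α : I} (h : α < β) : cd w β α = 0 := if_pos h

theorem cd_self (w : World P) (β : I) : cd w β β = 1 := by simp [cd]

theorem cd_gt (w : World P) {β α : I} (h : β < α) : cd w β α = col w (β, α) + 2 := by
  simp [cd, h.not_gt, h.ne']

theorem cd_ne (w : World P) {β α : I} (h : α ≠ β) : cd w β α ≠ 1 := by
  rcases lt_or_gt_of_ne h with h | h
  · rw [cd_lt w h]; omega
  · rw [cd_gt w h]; omega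

theorem meas_cd (β α : I) : Measurable fun w => cd w β α := by
  unfold cd
  split_ifs
  exacts [measurable_const, measurable_const, (meas_col _).add_const 2]

theorem meas_hh {n : World P → ℕ} {t : World P → T} (hn : Measurable n) (ht : Measurable t) :
    Measurable fun w => hh (n w) (t w) :=
  (measurable_from_prod_countable_left (f := fun x : T × ℕ => hh x.2 x.1)
    fun n => (hh n).continuous.measurable).comp (ht.prodMk hn)

open Classical in
/-- the points on the rows -/
noncomputable def ee (w : World P) (β : I) (t : T) (α : I) : ℝ × ℝ :=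
  if w.In α then hh (cd w β α) t else 0

open Classical in
/-- the points of the countable part -/
noncomputable def qq (w : World P) (s : Qidx) (α : I) : ℝ × ℝ :=
  if w.In α then kk (rr α) s else 0

theorem continuous_ee (w : World P) (β α : I) : Continuous fun t => ee w β t α := by
  unfold ee
  split_ifs
  exacts [(hh _).continuous, continuous_const]

theorem meas_ee (β α : I) {t : World P → T} (ht : Measurable t) :
    Measurable fun w => ee w β (t w) α :=
  meas_congr (meas_hh (meas_cd β α) ht) ((ev_const α).mono fun _ h => if_pos h)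

/-- labels of points -/
abbrev L : Type := (I × RN × RN) ⊕ Qidx

/-- values of names of points of the square -/
noncomputable def tv (w : World P) (a : RN × RN) : T := clamp (rval w a.1, rval w a.2)

theorem meas_tv (a : RN × RN) : Measurable fun w => tv w a :=
  continuous_clamp.measurable.comp ((meas_rval _).prodMk (meas_rval _))

theorem exists_tv {t : World P → T} (ht : Measurable t) : ∃ a, ∀ᶠ w in gen P, tv w a = t w := by
  obtain ⟨a, ha⟩ := exists_rval (measurable_subtype_coe.comp ht).fst
  obtain ⟨b, hb⟩ := exists_rval (measurable_subtype_coe.comp ht).snd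
  refine ⟨(a, b), ?_⟩
  filter_upwards [ha, hb] with w h1 h2
  rw [tv, h1, h2]
  exact clamp_val _

/-- values of labels -/
noncomputable def lval (w : World P) : L → I → ℝ × ℝ
  | .inl x => ee w x.1 (tv w x.2)
  | .inr s => qq w s

/-- the default label -/
def l0 : L := .inr ⟨0, fun _ => (0, 0)⟩

open Classical in
/-- the space -/
def KK (w : World P) : Set (I → ℝ × ℝ) := range fun l => lval w (if w.In l then l else l0)

/-- the space as a type -/
abbrev X (w : World P) : Type := KK w

/-- the point with a given label -/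
noncomputable def pt (w : World P) (l : L) : X w := ⟨_, l, rfl⟩

theorem pt_val {w : World P} {l : L} (h : w.In l) : (pt w l).1 = lval w l := by
  simp [pt, h]

theorem ev_pt : ∀ᶠ w in gen P, ∀ x : X w, ∃ l, w.In l ∧ pt w l = x := by
  filter_upwards [ev_const l0] with w h ⟨_, l, rfl⟩
  by_cases hl : w.In l
  · exact ⟨l, hl, rfl⟩
  · exact ⟨l0, h, Subtype.ext (by simp [pt, hl])⟩

theorem zero_out {w : World P} (x : X w) {α : I} (h : ¬ w.In α) : x.1 α = 0 := by
  obtain ⟨_, l, rfl⟩ := x
  have : ∀ l, lval w l α = 0 := by rintro (x | s) <;> exact if_neg h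
  exact this _

theorem meas_pt (l : L) (α : I) : Measurable fun w => (pt w l).1 α := by
  refine meas_congr (g := fun w => lval w l α) ?_ ((ev_const l).mono fun w h => by rw [pt_val h])
  rcases l with x | s
  · exact meas_ee _ _ (meas_tv _)
  · exact meas_congr (measurable_const (a := kk (rr α) s)) ((ev_const α).mono fun _ h => if_pos h)

/-- codes of points of the plane -/
noncomputable def cP (v : ℝ × ℝ) : ZFSet.{0} := (cReal v.1).pair (cReal v.2)

/-- codes of points -/
noncomputable def pc (w : World P) (x : X w) : ZFSet.{0} := cFun w.ord cP {α | w.In α} x.1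

theorem pc_inj (w : World P) : Injective (pc w) := fun x y h => by
  refine Subtype.ext (funext fun α => ?_)
  by_cases hα : w.In α
  · have hi : InjOn (w.ord : I → ZFSet) {α | w.In α} := fun a ha b hb => (w.ord_inj ha hb).1
    have := congrArg (fun z => app z (w.ord α)) h
    simp only [pc, app_cFun hi hα, cP, ZFSet.pair_inj, cReal_inj.eq_iff] at this
    exact Prod.ext this.1 this.2
  · rw [zero_out x hα, zero_out y hα]

theorem named_pc (l : L) : Named fun w => pc w (pt w l) :=
  named_cSet (c := fun w α => (w.ord α).pair (cP ((pt w l).1 α))) (g := fun α _ => α)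
    (fun α => (named_ord α).pair
      ((named_cReal (meas_pt l α).fst).pair (named_cReal (meas_pt l α).snd)))
    (Φ := fun _ _ => True) (fun _ => measurable_const) (Eventually.of_forall fun w x => by simp)

theorem meas_pt_eq (l l' : L) : Measurable fun w => pt w l = pt w l' := by
  simpa only [(pc_inj _).eq_iff] using (named_pc l).measurable_eq (named_pc l')

/-- codes of functions -/
noncomputable def fc (w : World P) (f : X w → ℝ) : ZFSet.{0} := cFun (pc w) cReal univ f

theorem dec_fc (w : World P) (f : X w → ℝ) : (fun x => rdec (app (fc w f) (pc w x))) = f :=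
  funext fun x => by rw [fc, app_cFun (pc_inj w).injOn (mem_univ x), rdec_cReal]

theorem fc_inj (w : World P) : Injective (fc w) := fun f g h => by
  rw [← dec_fc w f, h, dec_fc]

/-- named functions -/
def NF (F : ∀ w, X w → ℝ) : Prop := ∀ l, Measurable fun w => F w (pt w l)

/-- named sets of points -/
def NS (A : ∀ w, Set (X w)) : Prop := ∀ l, Measurable fun w => pt w l ∈ A w

theorem NF.named {F : ∀ w, X w → ℝ} (h : NF F) : Named fun w => fc w (F w) :=
  named_dSet (c := fun w x => (pc w x).pair (cReal (F w x))) (g := fun l w => pt w l)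
    (fun l => (named_pc l).pair (named_cReal (h l))) (Φ := fun _ _ => True)
    (fun _ => measurable_const) (ev_pt.mono fun w h x => by simpa using h x)

theorem NS.named {A : ∀ w, Set (X w)} (h : NS A) : Named fun w => cSet (pc w) (A w) :=
  named_dSet (g := fun l w => pt w l) named_pc h (ev_pt.mono fun w hw x => ⟨fun hx => by
    obtain ⟨l, a, rfl⟩ := hw x
    exact ⟨l, a, hx, rfl⟩, fun ⟨_, _, a, e⟩ => e ▸ a⟩)

/-- names of functions -/
abbrev FN : Type := L → RN

/-- values of names of functions -/
noncomputable def fval (w : World P) (φ : FN) (x : X w) : ℝ :=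
  cutR fun q => ∃ l, w.In l ∧ pt w l = x ∧ w.Hit (φ l q)

theorem nf_fval (φ : FN) : NF fun w => fval w φ := fun l =>
  meas_cutR fun _ => measurable_ex_in fun l' => (meas_pt_eq l' l).and (measurable_hit _)

theorem NF.exists {F : ∀ w, X w → ℝ} (h : NF F) :
    ∀ᶠ w in gen P, ∃ φ, w.In φ ∧ fval w φ = F w := by
  filter_upwards [ev_pt, ev_const (T := FN) fun l q => {p | Sem p fun w => (q : ℝ) < F w (pt w l)},
    ev_all fun l => ev_call fun q : ℚ => ev_hit_sem ((measurable_const (a := (q : ℝ))).lt (h l))]
    with w h1 h2 h3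
  refine ⟨_, h2, funext fun x => cutR_eq fun q => ⟨?_, fun hq => ?_⟩⟩
  · rintro ⟨l, a1, rfl, a2⟩
    exact (h3 l a1 q).1 a2
  · obtain ⟨l, a1, rfl⟩ := h1 x
    exact ⟨l, a1, rfl, (h3 l a1 q).2 hq⟩

theorem ev_fval : ∀ᶠ w in gen P, ∀ f, fc w f ∈ w.M → ∃ φ, w.In φ ∧ fval w φ = f := by
  filter_upwards [ev_all_named
    (Φ := fun z w => ∃ φ, w.In φ ∧ fval w φ = fun x => rdec (app z (pc w x)))
    fun z hz => NF.exists fun l => meas_rdec (named_app hz (named_pc l))] with w h f hf
  exact dec_fc w f ▸ h _ hf

theorem ev_fval_mem : ∀ᶠ w in gen P, ∀ φ, w.In φ → fc w (fval w φ) ∈ w.M :=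
  ev_all fun φ => (nf_fval φ).named.ev_mem

theorem ev_pos : ∀ᶠ w in gen P, ∀ U : Set (X w), cSet (pc w) U ∈ w.M →
    ∃ φ, w.In φ ∧ {x | 0 < fval w φ x} = U := by
  classical
  filter_upwards [ev_all_named
    (Φ := fun z w => ∃ φ, w.In φ ∧ fval w φ = fun x => if pc w x ∈ z then 1 else 0)
    fun z hz => NF.exists fun l => Measurable.ite
      (measurableSet_setOfPred.2 ((named_pc l).measurable_mem hz)) measurable_const
      measurable_const] with w h U hU
  obtain ⟨φ, a1, a2⟩ := h _ hU
  refine ⟨φ, a1, Set.ext fun x => ?_⟩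
  rw [a2, ← mem_cSet_iff (pc_inj w).injOn (subset_univ U) (mem_univ x)]
  by_cases hx : pc w x ∈ cSet (pc w) U <;> simp [hx]

theorem nhds_basic {w : World P} (x : X w) {U : Set (X w)} (hU : U ∈ 𝓝 x) :
    ∃ E : Finset I, (∀ γ ∈ E, w.In γ) ∧ ∃ n : ℕ,
      ∀ y : X w, (∀ γ ∈ E, dist (y.1 γ) (x.1 γ) < 1 / ((n : ℝ) + 1)) → y ∈ U := by
  classical
  obtain ⟨V, hV, hVs⟩ := (mem_nhds_subtype _ _ _).1 hU
  obtain ⟨E, ε, hε, hE⟩ := nhds_pi_basic x.1 hV
  obtain ⟨n, hn⟩ := exists_nat_one_div_lt hε
  refine ⟨E.filter w.In, fun γ h => (Finset.mem_filter.1 h).2, n, fun y hy => hVs (hE _ fun γ hγ => ?_)⟩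
  by_cases h : w.In γ
  · exact (hy γ (Finset.mem_filter.2 ⟨hγ, h⟩)).trans hn
  · simpa [zero_out y h, zero_out x h] using hε

theorem continuous_coord (w : World P) (α : I) : Continuous fun x : X w => x.1 α :=
  (continuous_apply α).comp continuous_subtype_val

theorem basic_nhds {w : World P} (x : X w) (E : Finset I) {ε : ℝ} (hε : 0 < ε) :
    {y : X w | ∀ γ ∈ E, dist (y.1 γ) (x.1 γ) < ε} ∈ 𝓝 x :=
  (eventually_all_finset E).2 fun γ _ =>
    (isOpen_lt ((continuous_coord w γ).dist continuous_const) continuous_const).mem_nhds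
      (by simpa using hε)

theorem NS.meas_nhds {A : ∀ w, Set (X w)} (h : NS A) (l : L) :
    Measurable fun w => A w ∈ 𝓝 (pt w l) := by
  refine (measurable_ex_in fun E : Finset I => Measurable.exists fun n : ℕ =>
    measurable_all_in fun l' => (meas_finset E fun γ => ((meas_pt l' γ).dist (meas_pt l γ)).lt
      (measurable_const (a := 1 / ((n : ℝ) + 1)))).imp (h l')).congr_ev ?_
  filter_upwards [ev_pt, ev_in_finset I] with w h1 h2
  constructor
  · intro hA
    obtain ⟨E, a1, n, a2⟩ := nhds_basic _ hA
    exact ⟨E, h2 E a1, n, fun l' _ => a2 _⟩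
  · rintro ⟨E, -, n, a⟩
    refine mem_of_superset (basic_nhds _ E (ε := 1 / ((n : ℝ) + 1)) (by positivity)) fun y hy => ?_
    obtain ⟨l', a1, rfl⟩ := h1 y
    exact a l' a1 hy

theorem NS.meas_open {A : ∀ w, Set (X w)} (h : NS A) : Measurable fun w => IsOpen (A w) := by
  refine (measurable_all_in fun l => (h l).imp (h.meas_nhds l)).congr_ev (ev_pt.mono fun w hw => ?_)
  rw [isOpen_iff_mem_nhds]
  exact ⟨fun a l _ => a _, fun a x hx => by
    obtain ⟨l, a1, rfl⟩ := hw x
    exact a l a1 hx⟩

theorem NF.ns_near {F : ∀ w, X w → ℝ} (h : NF F) (l : L) (ε : ℝ) :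
    NS fun w => {y | |F w y - F w (pt w l)| < ε} := fun l' =>
  ((h l').sub (h l)).abs.lt measurable_const

theorem continuous_iff_near {Y : Type} [TopologicalSpace Y] {f : Y → ℝ} :
    Continuous f ↔ ∀ x, ∀ n : ℕ, {y | |f y - f x| < 1 / ((n : ℝ) + 1)} ∈ 𝓝 x := by
  refine ⟨fun h x n => (isOpen_lt (by fun_prop) continuous_const).mem_nhds (by simp; positivity),
    fun h => continuous_iff_continuousAt.2 fun x => Metric.tendsto_nhds.2 fun ε hε => ?_⟩
  obtain ⟨n, hn⟩ := exists_nat_one_div_lt hε
  exact mem_of_superset (h x n) fun y hy => lt_trans hy hn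

theorem NF.meas_cont {F : ∀ w, X w → ℝ} (h : NF F) : Measurable fun w => Continuous (F w) := by
  refine (measurable_all_in fun l => Measurable.forall fun n : ℕ =>
    (h.ns_near l (1 / ((n : ℝ) + 1))).meas_nhds l).congr_ev (ev_pt.mono fun w hw => ?_)
  rw [continuous_iff_near]
  exact ⟨fun a l _ => a _, fun a x => by
    obtain ⟨l, a1, rfl⟩ := hw x
    exact a l a1⟩

end Pool.Agent.P.MP_181197_gt.Con
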