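import Pool.Agent.P.MP_181197_gt.ConMod

/-!
The key forcing lemma, and perfect normality of the function space in the extension.
-/

open Set Function Filter Topology Pool.Agent.Lib.Helper87 Pool.Agent.P.MP_6e1b89_gt

namespace Pool.Agent.P.MP_181197_gt.Con

/-- the countable part of the data attached to a function -/
abbrev DD : Type := Σ k : ℕ,
  Finset (Fin k) × (Fin k → ℕ × ℕ) × Finset (Qidx × ℚ) × (Fin k → Fin k → ℕ) × ℕ

/-- the data describe the function near the given points -/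
def Dw (φ : FN) (F : Finset L) (η : ℝ) (d : DD) (E : Fin d.1 → I) (w : World P) : Prop :=
  (∀ j ∈ d.2.1, Md w (fval w φ) (E j) (Finset.univ.image E) d.2.2.2.2.2 (pp (d.2.2.1 j).1) η) ∧
  (∀ l ∈ F, Sum.elim (fun x : I × RN × RN => ∃ j ∈ d.2.1, E j = x.1 ∧
      |pp (d.2.2.1 j).1 (GG (d.2.2.1 j).2 (tv w x.2)) - pp (d.2.2.1 j).1 (tv w x.2)| < η)
    (fun s => ∃ r, (s, r) ∈ d.2.2.2.1) l) ∧
  (∀ x ∈ d.2.2.2.1, |fval w φ (pt w (.inr x.1)) - x.2| < η) ∧
  ∀ j l, cd w (E j) (E l) = d.2.2.2.2.1 j l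

theorem meas_dw (φ : FN) (F : Finset L) (η : ℝ) (d : DD) (E : Fin d.1 → I) :
    Measurable (Dw φ F η d E) := by
  refine (meas_finset _ fun j => (nf_fval φ).meas_md ..).and ((meas_finset F fun l => ?_).and
    ((meas_finset _ fun x => ((nf_fval φ _).sub_const _).abs.lt measurable_const).and
      (Measurable.forall fun j => Measurable.forall fun l => (meas_cd _ _).eq_const _)))
  rcases l with x | s
  · refine Measurable.exists fun j => measurable_const.and (measurable_const.and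
      (Measurable.lt ?_ measurable_const))
    exact (Continuous.measurable (f := fun t => |pp (d.2.2.1 j).1 (GG (d.2.2.1 j).2 t) -
      pp (d.2.2.1 j).1 t|) (by fun_prop)).comp (meas_tv _)
  · exact measurable_const

theorem ev_dw (φ : FN) (F : Finset L) {η : ℝ} (hη : 0 < η) :
    ∀ᶠ w in gen P, Continuous (fval w φ) → ∃ a : Σ d : DD, Fin d.1 → I, w.In a ∧
      (Injective a.2 ∧ Dw φ F η a.1 a.2 w) := by
  classical
  let row : L → I := Sum.elim (fun x => x.1) fun _ => Classical.arbitrary I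
  filter_upwards [(eventually_all_finset (F.image row)).2 fun β _ =>
      (ev_const β).and ((nf_fval φ).ev_md β hη),
    ev_call fun d : DD => ev_all_fin fun E : Fin d.1 → I =>
      ev_const (P := P) (⟨d, E⟩ : Σ d : DD, Fin d.1 → I)] with w h1 h2 hc
  choose! E0 a1 n k a2 using fun β hβ => (h1 β hβ).2 hc
  let B := F.image row
  let E1 : Finset I := B ∪ B.biUnion E0
  let E : Fin E1.card → I := fun l => (E1.equivFin.symm l).1
  have hE : Finset.univ.image E = E1 := by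
    ext γ
    simp only [Finset.mem_image, Finset.mem_univ, true_and]
    exact ⟨fun ⟨l, e⟩ => e ▸ (E1.equivFin.symm l).2, fun h => ⟨E1.equivFin ⟨γ, h⟩, by simp [E]⟩⟩
  choose G hG using fun β => exists_GG (pp (k β))
    (F.finite_toSet.image (Sum.elim (fun x : I × RN × RN => tv w x.2) fun _ => va)) hη
  choose r hr using fun s : Qidx => exists_rat_near (fval w φ (pt w (.inr s))) hη
  refine ⟨⟨⟨E1.card, Finset.univ.filter fun j => E j ∈ B, fun j => (k (E j), G (E j)),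
    F.toRight.image fun s => (s, r s), fun j l => cd w (E j) (E l), B.sup n⟩, E⟩,
    h2 _ _ fun l => ?_, fun l l' e => E1.equivFin.symm.injective (Subtype.ext e),
    fun j hj t y hy => ?_, ?_, fun x hx => ?_, fun _ _ => rfl⟩
  · rcases Finset.mem_union.1 (E1.equivFin.symm l).2 with h | h
    · exact (h1 _ h).1
    · obtain ⟨β, b1, b2⟩ := Finset.mem_biUnion.1 h
      exact a1 β b1 _ b2
  · have hj' : E j ∈ B := (Finset.mem_filter.1 hj).2
    refine a2 _ hj' t y (hy.mono ?_ (Finset.le_sup hj'))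
    exact ((Finset.subset_biUnion_of_mem E0 hj').trans Finset.subset_union_right).trans hE.ge
  · rintro (x | s) hl
    · have b1 : x.1 ∈ B := Finset.mem_image_of_mem row hl
      obtain ⟨j, -, e⟩ := Finset.mem_image.1 (hE.ge (Finset.mem_union_left _ b1))
      exact ⟨j, Finset.mem_filter.2 ⟨Finset.mem_univ _, e ▸ b1⟩, e, hG _ _ ⟨_, hl, rfl⟩⟩
    · exact ⟨r s, Finset.mem_image_of_mem _ (Finset.mem_toRight.2 hl)⟩
  · obtain ⟨s, -, rfl⟩ := Finset.mem_image.1 hx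
    exact hr s

theorem core (p : I → P) (φ : I → FN) (hc : ∀ ξ, Sem (p ξ) fun w => Continuous (fval w (φ ξ)))
    (F : I → Finset L) (n : I → ℕ) : ∃ ξ ξ', ξ < ξ' ∧ ∃ q ≤ p ξ, q ≤ p ξ' ∧ Sem q fun w =>
      ∀ l ∈ F ξ, |fval w (φ ξ') (pt w l) - fval w (φ ξ) (pt w l)| < 1 / ((n ξ : ℝ) + 1) := by
  classical
  obtain ⟨⟨d, m⟩, hS1⟩ := lpigeon large_univ (fun ξ (x : DD × ℕ) => n ξ = x.2 ∧
    ∃ q ≤ p ξ, ∃ E : Fin x.1.1 → I, Injective E ∧
      Sem q (Dw (φ ξ) (F ξ) (1 / ((x.2 : ℝ) + 1) / 4) x.1 E)) fun ξ _ => by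
      obtain ⟨q, a1, a, a2⟩ := Sem.ex_in (fun a => measurable_const.and (meas_dw _ _ _ _ _))
        ((hc ξ).imp (ev_dw (φ ξ) (F ξ) (η := 1 / ((n ξ : ℝ) + 1) / 4) (by positivity)))
      obtain ⟨_, -, a3, -⟩ := a2.exists (Eventually.of_forall fun _ => trivial)
      exact ⟨(a.1, n ξ), rfl, q, a1, a.2, a3.1, a2.imp' fun _ h => h.2⟩
  set S1 := {ξ ∈ (univ : Set I) | _} with hS1def
  set η : ℝ := 1 / ((m : ℝ) + 1) / 4 with hη
  have hdata : ∀ ξ ∈ S1, n ξ = m ∧ ∃ q ≤ p ξ, ∃ E : Fin d.1 → I, Injective E ∧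
      Sem q (Dw (φ ξ) (F ξ) η d E) := fun ξ hξ => hξ.2
  clear_value S1
  choose! hn q hq E hinj hD using hdata
  obtain ⟨S3, hS31, hS3, J, ρ, hρ, hJ⟩ := lsplit E hS1
  obtain ⟨γρ, hγρ⟩ := bdd ρ
  obtain ⟨γ1, hγ1⟩ := hJ γρ
  choose pat hpat using fun j l => exists_dense_flat.choose_spec.2 _
    (flat_hh_comp (d.2.2.2.2.1 j l) (flat_GG (d.2.2.1 j).2))
    (1 / ((d.2.2.2.2.2 : ℝ) + 1)) (by positivity)
  obtain ⟨ξ, hξ, ξ', hξ', hlt, hlt', r, r1, r2, r3⟩ := amalg (S := {ξ ∈ S3 | γ1 < ξ})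
    (fun γ => (hS3 (max γ γ1)).imp fun ξ h =>
      ⟨⟨h.1, (le_max_right _ _).trans_lt h.2⟩, (le_max_left _ _).trans_lt h.2⟩)
    q (fun ξ (l : J) => E ξ l) (fun ξ h _ _ e => Subtype.ext (hinj ξ (hS31 h.1) e))
    (fun γ => (hJ γ).imp fun γ' h ξ a b l => h ξ a.1 b l l.2) fun j l => pat j l
  have s1 := hS31 hξ.1
  have s2 := hS31 hξ'.1
  refine ⟨ξ, ξ', hlt, r, r1.trans (hq ξ s1), r2.trans (hq ξ' s2), ?_⟩
  filter_upwards [(hD ξ s1).mono r1, (hD ξ' s2).mono r2,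
    eventually_all.2 fun j => eventually_all.2 fun l => sem_col (r3 j l),
    (eventually_all_finset (F ξ)).2 fun l _ => ev_const l] with w h1 h2 h3 h4 hr l hl
  obtain ⟨a1, a2, a3, -⟩ := h1 hr
  obtain ⟨b1, -, b3, b4⟩ := h2 hr
  have e4 : 1 / ((n ξ : ℝ) + 1) = 4 * η := by rw [hn ξ s1, hη]; ring
  have hη0 : 0 < η := by positivity
  rw [e4]
  rcases l with x | s
  · obtain ⟨j, c1, c2, c3⟩ := a2 _ hl
    have hy : (pt w (.inl x)).1 = ee w (E ξ j) (tv w x.2) := by rw [pt_val (h4 _ hl), c2]; rfl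
    have c4 := abs_le.1 (a1 j c1 (tv w x.2) (pt w (.inl x)) fun γ _ => by
      rw [hy, dist_self]; positivity)
    by_cases hj : j ∈ J
    · have c5 := abs_le.1 (b1 j c1 (GG (d.2.2.1 j).2 (tv w x.2)) (pt w (.inl x)) fun γ hγ => by
        obtain ⟨l, -, rfl⟩ := Finset.mem_image.1 hγ
        rw [hy, ee, ee]
        split_ifs
        · by_cases hl : l ∈ J
          · rw [b4, cd_gt w (hlt' ⟨j, hj⟩ ⟨l, hl⟩), h3 ⟨j, hj⟩ ⟨l, hl⟩ hr]
            exact (ContinuousMap.dist_apply_le_dist (f := gg (pat j l))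
              (g := (hh (d.2.2.2.2.1 j l)).comp (GG (d.2.2.1 j).2)) _).trans_lt (hpat j l)
          · rw [hρ ξ' hξ'.1 l hl, cd_lt w ((hγρ l).trans (hγ1 ξ hξ.1 hξ.2 j hj)),
              cd_lt w ((hγρ l).trans (hγ1 ξ' hξ'.1 hξ'.2 j hj))]
            simp only [hh, ContinuousMap.zero_apply, dist_self]
            positivity
        · rw [dist_self]; positivity)
      rw [abs_lt] at c3 ⊢
      constructor <;> linarith [c3.1, c3.2, c4.1, c4.2, c5.1, c5.2]
    · have c5 := abs_le.1 (b1 j c1 (tv w x.2) (pt w (.inl x)) fun γ _ => by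
        rw [hy, hρ ξ' hξ'.1 j hj, hρ ξ hξ.1 j hj, dist_self]; positivity)
      rw [abs_lt]
      constructor <;> linarith [c4.1, c4.2, c5.1, c5.2]
  · obtain ⟨r, c1⟩ := a2 _ hl
    have c2 := abs_lt.1 (a3 _ c1)
    have c3 := abs_lt.1 (b3 _ c1)
    rw [abs_lt]
    constructor <;> linarith [c2.1, c2.2, c3.1, c3.2]

/-- names of basic neighbourhoods -/
abbrev BN : Type := FN × Finset L × ℕ

/-- open basic neighbourhoods -/
def ball (w : World P) (b : BN) : Set (X w → ℝ) :=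
  {g | ∀ l ∈ b.2.1, |g (pt w l) - fval w b.1 (pt w l)| < 1 / ((b.2.2 : ℝ) + 1)}

/-- closed basic neighbourhoods -/
def cball (w : World P) (b : BN) : Set (X w → ℝ) :=
  {g | ∀ l ∈ b.2.1, |g (pt w l) - fval w b.1 (pt w l)| ≤ 1 / ((b.2.2 : ℝ) + 1)}

theorem nsf_ball (b : BN) : NSF fun w => ball w b := fun φ =>
  meas_finset _ fun l => ((nf_fval φ l).sub (nf_fval _ l)).abs.lt measurable_const

theorem nsf_cball (b : BN) : NSF fun w => cball w b := fun φ =>
  meas_finset _ fun l => ((nf_fval φ l).sub (nf_fval _ l)).abs.le' measurable_const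

theorem isOpen_ball (w : World P) (b : BN) : IsOpen (ball w b) :=
  isOpen_iff_mem_nhds.2 fun _ hg => (eventually_all_finset _).2 fun l hl =>
    (isOpen_lt (by fun_prop) continuous_const).mem_nhds (hg l hl)

theorem isClosed_cball (w : World P) (b : BN) : IsClosed (cball w b) := by
  simp only [cball, ofPred_forall]
  exact isClosed_iInter fun l => isClosed_iInter fun _ => isClosed_le (by fun_prop) continuous_const

/-- the closed neighbourhood misses the set `z` -/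
def Good (z : World P → ZFSet.{0}) (b : BN) (w : World P) : Prop :=
  Continuous (fval w b.1) ∧
    ∀ φ, w.In φ → Continuous (fval w φ) → fval w φ ∈ cball w b → fc w (fval w φ) ∉ z w

variable {z : World P → ZFSet.{0}}

theorem meas_good (hz : Named z) (b : BN) : Measurable (Good z b) :=
  (nf_fval _).meas_cont.and (measurable_all_in fun φ => (nf_fval φ).meas_cont.imp
    ((nsf_cball b φ).imp ((nf_fval φ).named.measurable_mem hz).not))

theorem exists_family (hz : Named z) : ∃ 𝒞 : Set (P × BN), 𝒞.Countable ∧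
    (∀ x ∈ 𝒞, Sem x.1 (Good z x.2)) ∧
    ∀ b, ∀ᶠ w in gen P, Good z b w → ∃ x ∈ 𝒞, w.Has x.1 ∧ fval w b.1 ∈ ball w x.2 := by
  by_contra hcon
  simp only [not_exists, not_and, not_forall] at hcon
  have step : ∀ (j : I) (g : ∀ i, i < j → {x : P × BN // Sem x.1 (Good z x.2)}),
      ∃ y : {x : P × BN // Sem x.1 (Good z x.2)}, ∀ i (hi : i < j), Sem y.1.1 fun w =>
        w.Has (g i hi).1.1 → fval w y.1.2.1 ∉ ball w (g i hi).1.2 := by
    intro j g
    have := (seg j).to_subtype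
    obtain ⟨b, hb⟩ := hcon (range fun i : Iio j => (g i.1 i.2).1) (countable_range _)
      (by rintro _ ⟨i, rfl⟩; exact (g i.1 i.2).2)
    simp only [exists_range_iff] at hb
    obtain ⟨p, hp⟩ := not_forall_not.1 fun h => hb (ev_of_not_sem ((meas_good hz b).imp
      (Measurable.exists fun i => (measurable_has _).and (nsf_ball _ _))) h)
    exact ⟨⟨(p, b), hp.imp' fun w h => (Classical.not_imp.1 h).1⟩, fun i hi => hp.imp' fun w h a1 a2 =>
      (Classical.not_imp.1 h).2 ⟨⟨i, hi⟩, a1, a2⟩⟩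
  choose nxt h using step
  let y : I → {x : P × BN // Sem x.1 (Good z x.2)} := (wellFounded_lt (α := I)).fix nxt
  have hy : ∀ j, y j = nxt j (fun i _ => y i) := fun j => (wellFounded_lt (α := I)).fix_eq nxt j
  obtain ⟨ξ, ξ', hlt, q, q1, q2, hq⟩ := core (fun j => (y j).1.1) (fun j => (y j).1.2.1)
    (fun j => (y j).2.imp' fun _ h => h.1) (fun j => (y j).1.2.2.1) fun j => (y j).1.2.2.2
  have := h ξ' (fun i _ => y i) ξ hlt
  rw [← hy ξ'] at this
  obtain ⟨w, a1, a2, -⟩ := (hq.and (this.mono q2)).exists (Eventually.of_forall fun _ => trivial)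
  exact a2.2 ((w.has_of_mem a1).mono q1) a2.1

theorem cover (hz : Named z) : ∃ U C : ℕ → ∀ w, Set (X w → ℝ), (∀ n, NSF (U n)) ∧
    (∀ n, NSF (C n)) ∧ (∀ n w, IsOpen (U n w)) ∧ (∀ n w, IsClosed (C n w)) ∧
    (∀ n w, U n w ⊆ C n w) ∧ ∀ᶠ w in gen P, ∀ A : Set (CC w), cSet (d1 w) A = z w → IsClosed A →
      (∀ n, ∀ f ∈ A, f.1 ∉ C n w) ∧ ∀ f ∉ A, ∃ n, f.1 ∈ U n w := by
  classical
  obtain ⟨𝒞, h1, h2, h3⟩ := exists_family hz
  obtain ⟨e, he⟩ := countable_iff_exists_subset_range.1 h1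
  have ho : ∀ (A : Prop) {Y : Type} [TopologicalSpace Y] {s : Set Y},
      (IsOpen s → IsOpen {y | A ∧ y ∈ s}) ∧ (IsClosed s → IsClosed {y | A ∧ y ∈ s}) := by
    intro A Y _ s
    by_cases hA : A <;> simp [hA]
  refine ⟨fun n w => {g | (e n ∈ 𝒞 ∧ w.Has (e n).1) ∧ g ∈ ball w (e n).2},
    fun n w => {g | (e n ∈ 𝒞 ∧ w.Has (e n).1) ∧ g ∈ cball w (e n).2},
    fun n φ => (measurable_const.and (measurable_has _)).and (nsf_ball _ φ),
    fun n φ => (measurable_const.and (measurable_has _)).and (nsf_cball _ φ),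
    fun n w => (ho _).1 (isOpen_ball ..), fun n w => (ho _).2 (isClosed_cball ..),
    fun n w g hg => ⟨hg.1, fun l hl => (hg.2 l hl).le⟩, ?_⟩
  filter_upwards [ev_nm, ev_pt, ev_call fun n => ev_imp (h2 (e n)),
    ev_all fun φ => ev_all_finset fun F => ev_call fun n => h3 (φ, F, n)]
    with w a1 a2 a3 a4 A hA hc
  have hA' : ∀ f : CC w, fc w f.1 ∈ z w ↔ f ∈ A := fun f =>
    hA ▸ Set.ext_iff.1 (dec_set (d1_inj w) A) f
  refine ⟨fun n f hf hm => ?_, fun f hf => ?_⟩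
  · obtain ⟨φ, b1, b2⟩ := a1.1 f.1 f.2
    exact (a3 n hm.1.1 hm.1.2).2 φ b1 (b2 ▸ cont_of_mem f.2) (b2 ▸ hm.2) (b2 ▸ (hA' f).2 hf)
  · obtain ⟨V, hV, hVs⟩ := (mem_nhds_subtype _ _ _).1 (hc.isOpen_compl.mem_nhds hf)
    obtain ⟨F, ε, hε, hF⟩ := nhds_pi_basic f.1 hV
    obtain ⟨n, hn⟩ := exists_nat_one_div_lt hε
    obtain ⟨φ, b1, b2⟩ := a1.1 f.1 f.2
    choose lab c1 c2 using a2
    obtain ⟨x, d1, d2, d3⟩ := a4 φ b1 (F.image lab) (by
      intro l hl
      obtain ⟨x, -, rfl⟩ := Finset.mem_image.1 hl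
      exact c1 x) n ⟨b2 ▸ cont_of_mem f.2, fun φ' e1 e2 e3 e4 =>
        hVs (a := ⟨_, a1.2 φ' e1 e2⟩) (hF _ fun x hx => by
          have := e3 _ (Finset.mem_image_of_mem lab hx)
          rw [c2, b2] at this
          exact this.trans_lt hn) ((hA' ⟨_, a1.2 φ' e1 e2⟩).1 e4)⟩
    obtain ⟨k, rfl⟩ := he d1
    exact ⟨k, ⟨d1, d2⟩, b2 ▸ d3⟩

theorem nsf_shrink {U C : ℕ → ∀ w, Set (X w → ℝ)} (hU : ∀ n, NSF (U n)) (hC : ∀ n, NSF (C n)) :
    NSF fun w => {g | ∃ n, g ∈ U n w ∧ ∀ k ≤ n, g ∉ C k w} := fun φ =>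
  Measurable.exists fun n => (hU n φ).and
    (Measurable.forall fun k => measurable_const.imp (hC k φ).not)

theorem isOpen_shrink {Y : Type} [TopologicalSpace Y] {U C : ℕ → Set Y} (hU : ∀ n, IsOpen (U n))
    (hC : ∀ n, IsClosed (C n)) : IsOpen {g | ∃ n, g ∈ U n ∧ ∀ k ≤ n, g ∉ C k} :=
  isOpen_iff_mem_nhds.2 fun _ ⟨n, h1, h2⟩ => mem_of_superset (inter_mem ((hU n).mem_nhds h1)
    ((eventually_all_finite (finite_le_nat n)).2 fun k hk =>
      (hC k).isOpen_compl.mem_nhds (h2 k hk))) fun _ hg => ⟨n, hg⟩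

theorem ev_perf : ∀ᶠ w in gen P, PerfNormalIn w.M (d1 w) := by
  have h1 : ∀ᶠ w in gen P, ∀ a ∈ w.M, ∀ b ∈ w.M, ∀ A B : Set (CC w), cSet (d1 w) A = a →
      cSet (d1 w) B = b → IsClosed A → IsClosed B → Disjoint A B → ∃ U V : Set (CC w),
        cSet (d1 w) U ∈ w.M ∧ cSet (d1 w) V ∈ w.M ∧ IsOpen U ∧ IsOpen V ∧ A ⊆ U ∧ B ⊆ V ∧
          Disjoint U V := by
    refine ev_all_named fun a ha => ev_all_named fun b hb => ?_
    obtain ⟨U, C, a1, a2, a3, a4, a5, a6⟩ := cover ha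
    obtain ⟨V, D, b1, b2, b3, b4, b5, b6⟩ := cover hb
    filter_upwards [a6, b6, (nsf_shrink b1 a2).named.ev_mem, (nsf_shrink a1 b2).named.ev_mem]
      with w c1 c2 c3 c4 A B hA hB hA' hB' hAB
    refine ⟨_, _, c3, c4,
      (isOpen_shrink (fun n => b3 n w) fun n => a4 n w).preimage continuous_subtype_val,
      (isOpen_shrink (fun n => a3 n w) fun n => b4 n w).preimage continuous_subtype_val,
      fun f hf => ((c2 B hB hB').2 f (disjoint_left.1 hAB hf)).imp fun n h =>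
        ⟨h, fun k _ => (c1 A hA hA').1 k f hf⟩,
      fun f hf => ((c1 A hA hA').2 f (disjoint_right.1 hAB hf)).imp fun n h =>
        ⟨h, fun k _ => (c2 B hB hB').1 k f hf⟩,
      disjoint_left.2 fun f ⟨n, d1, d2⟩ ⟨m, d3, d4⟩ => ?_⟩
    rcases le_total n m with h | h
    exacts [d4 n h (b5 n w d1), d2 m h (a5 m w d3)]
  have h2 : ∀ᶠ w in gen P, ∀ a ∈ w.M, ∀ A : Set (CC w), cSet (d1 w) A = a → IsClosed A →
      ∃ s : ℕ → Set (CC w), cFun cNat (cSet (d1 w)) univ s ∈ w.M ∧ (∀ n, IsOpen (s n)) ∧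
        A = ⋂ n, s n := by
    refine ev_all_named fun a ha => ?_
    obtain ⟨U, C, a1, a2, a3, a4, a5, a6⟩ := cover ha
    filter_upwards [a6, (named_dSeq (e := fun w => cSet (d1 w))
      (s := fun w n => Subtype.val ⁻¹' (C n w)ᶜ) fun n =>
        NSF.named (A := fun w => (C n w)ᶜ) fun φ => (a2 n φ).not).ev_mem] with w c1 c2 A hA hA'
    refine ⟨_, c2, fun n => (a4 n w).isOpen_compl.preimage continuous_subtype_val,
      Subset.antisymm (subset_iInter fun n f hf => (c1 A hA hA').1 n f hf) fun f hf => ?_⟩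
    by_contra hc
    obtain ⟨n, hn⟩ := (c1 A hA hA').2 f hc
    exact mem_iInter.1 hf n (a5 n w hn)
  filter_upwards [h1, h2] with w h1 h2
  exact ⟨fun A B a b => h1 _ a _ b A B rfl rfl, fun A a => h2 _ a A rfl⟩

end Pool.Agent.P.MP_181197_gt.Con
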