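import Pool.Agent.P.MP_181197_gt.ConTop

/-!
Compactness of the square in the extension and moduli of continuity along the rows.
-/

open Set Function Filter Topology Pool.Agent.Lib.Helper87 TopologicalSpace

namespace Pool.Agent.P.MP_181197_gt.Con

instance : Nonempty T := ⟨va⟩

theorem exists_peano : ∃ σ : ℝ → T, Continuous σ ∧ ∀ t, ∃ x ∈ Icc (0 : ℝ) 1, σ x = t := by
  obtain ⟨f, h1, h2⟩ := exists_nat_bool_continuous_surjective_of_compact T
  obtain ⟨g, hg⟩ := ContinuousMap.exists_restrict_eq (Y := ℝ × ℝ) isClosed_cantorSet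
    ⟨fun x => (f (cantorSetHomeomorphNatToBool x)).1, by fun_prop⟩
  refine ⟨fun x => clamp (g x), continuous_clamp.comp g.continuous, fun t => ?_⟩
  obtain ⟨x, rfl⟩ := (h2.comp cantorSetHomeomorphNatToBool.surjective) t
  refine ⟨x.1, cantorSet_subset_unitInterval x.2, ?_⟩
  have : g x.1 = (f (cantorSetHomeomorphNatToBool x)).1 :=
    congrArg (fun u : C(cantorSet, ℝ × ℝ) => u x) hg
  simp only [this, clamp_val, comp_apply]

theorem exists_select {ι : Type} [Countable ι] {b : ι → Set T} (hb : ∀ n, IsOpen (b n))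
    {good : ι → World P → Prop} (hg : ∀ n, Measurable (good n)) :
    ∃ t : World P → T, Measurable t ∧
      ∀ w, (∃ n, good n w ∧ t w ∈ b n) → ∀ t', ∃ n, good n w ∧ t' ∈ b n := by
  obtain ⟨σ, h1, h2⟩ := exists_peano
  let O : World P → Set ℝ := fun w => {x | ∃ n, good n w ∧ σ x ∈ b n}
  have hO : ∀ w, IsOpen (O w) := fun w => isOpen_iff_mem_nhds.2 fun x ⟨n, a1, a2⟩ =>
    mem_of_superset (((hb n).preimage h1).mem_nhds a2) fun y hy => ⟨n, a1, hy⟩
  have hK : ∀ K : Set ℝ, IsCompact K → Measurable fun w => K ⊆ O w := fun K hK => by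
    have : ∀ w, K ⊆ O w ↔ ∃ s : Finset ι, (∀ n ∈ s, good n w) ∧ ∀ x ∈ K, ∃ n ∈ s, σ x ∈ b n := by
      refine fun w => ⟨fun h => ?_, fun ⟨s, a1, a2⟩ x hx => ?_⟩
      · obtain ⟨s, a1, a2, a3⟩ := hK.elim_finite_subcover_image (b := {n | good n w})
          (c := fun n => σ ⁻¹' b n) (fun n _ => (hb n).preimage h1)
          fun x hx => let ⟨n, a1, a2⟩ := h hx; mem_iUnion₂.2 ⟨n, a1, a2⟩
        refine ⟨a2.toFinset, fun n hn => a1 (a2.mem_toFinset.1 hn), fun x hx => ?_⟩
        obtain ⟨n, c1, c2⟩ := mem_iUnion₂.1 (a3 hx)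
        exact ⟨n, a2.mem_toFinset.2 c1, c2⟩
      · obtain ⟨n, c1, c2⟩ := a2 x hx
        exact ⟨n, a1 n c1, c2⟩
    simp only [this]
    exact Measurable.exists fun s => (meas_finset s hg).and measurable_const
  have hA : ∀ w, IsCompact (insert 1 (Icc (0 : ℝ) 1 \ O w)) := fun w =>
    (isCompact_Icc.diff (hO w)).insert 1
  have hm := fun w => (hA w).sInf_mem (insert_nonempty _ _)
  have hle := fun w x hx => csInf_le (hA w).bddBelow (a := x) hx
  refine ⟨fun w => σ (sInf (insert 1 (Icc 0 1 \ O w))),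
    h1.measurable.comp (measurable_of_Iic fun a => measurableSet_setOfPred.2 ?_),
    fun w hw t' => ?_⟩
  · refine (measurable_const (a := 1 ≤ a)).or (hK (Icc 0 a) isCompact_Icc).not |>.congr_ev
      (Eventually.of_forall fun w => ⟨fun h => ?_, fun h => ?_⟩)
    · rcases hm w with e | e
      · exact Or.inl (e ▸ h)
      · exact Or.inr fun hs => e.2 (hs ⟨e.1.1, h⟩)
    · by_cases ha : 1 ≤ a
      · exact (hle w 1 (Or.inl rfl)).trans ha
      · obtain ⟨x, c1, c2⟩ := not_subset.1 (h.resolve_left ha)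
        exact (hle w x (Or.inr ⟨⟨c1.1, c1.2.trans (not_le.1 ha).le⟩, c2⟩)).trans c1.2
  · obtain ⟨x, c1, rfl⟩ := h2 t'
    by_contra hx
    have e := (hm w).resolve_right fun e => e.2 hw
    have := le_antisymm c1.2 (e ▸ hle w x (Or.inr ⟨c1, hx⟩))
    simp only [e] at hw
    exact hx (this ▸ hw)

theorem meas_exT {Φ : T → World P → Prop} (ho : ∀ w, IsOpen {t | Φ t w})
    (hm : ∀ t, Measurable (Φ t)) : Measurable fun w => ∃ t, Φ t w := by
  have : ∀ w, (∃ t, Φ t w) ↔ ∃ n, Φ (denseSeq T n) w := fun w =>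
    ⟨fun h => (denseRange_denseSeq T).exists_mem_open (ho w) h, fun ⟨_, h⟩ => ⟨_, h⟩⟩
  simp only [this]
  exact Measurable.exists fun n => hm _

/-- the point `y` is close to the point of the row `β` at `t` -/
def Cl (w : World P) (β : I) (E : Finset I) (n : ℕ) (t : T) (y : X w) : Prop :=
  ∀ γ ∈ E, dist (y.1 γ) (ee w β t γ) < 1 / ((n : ℝ) + 1)

theorem isOpen_cl (w : World P) (β : I) (E : Finset I) (n : ℕ) (y : X w) :
    IsOpen {t | Cl w β E n t y} :=
  isOpen_iff_mem_nhds.2 fun _ ht => (eventually_all_finset E).2 fun γ hγ =>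
    (isOpen_lt (continuous_const.dist (continuous_ee w β γ)) continuous_const).mem_nhds (ht γ hγ)

theorem meas_cl (β : I) (E : Finset I) (n : ℕ) (t : T) (l : L) :
    Measurable fun w => Cl w β E n t (pt w l) :=
  meas_finset E fun γ => ((meas_pt l γ).dist (meas_ee β γ measurable_const)).lt measurable_const

theorem Cl.mono {w : World P} {β : I} {E E' : Finset I} {n n' : ℕ} {t : T} {y : X w}
    (h : Cl w β E' n' t y) (hE : E ⊆ E') (hn : n ≤ n') : Cl w β E n t y := fun γ hγ =>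
  (h γ (hE hγ)).trans_le (Nat.one_div_le_one_div hn)

/-- near the row `β` the function `f` is approximated by `ψ` -/
def Md (w : World P) (f : X w → ℝ) (β : I) (E : Finset I) (n : ℕ) (ψ : C(T, ℝ)) (η : ℝ) : Prop :=
  ∀ t y, Cl w β E n t y → |f y - ψ t| ≤ η

theorem NF.meas_md {F : ∀ w, X w → ℝ} (h : NF F) (β : I) (E : Finset I) (n : ℕ) (ψ : C(T, ℝ))
    (η : ℝ) : Measurable fun w => Md w (F w) β E n ψ η := by
  refine (measurable_all_in fun l => (meas_exT
    (Φ := fun t w => Cl w β E n t (pt w l) ∧ η < |F w (pt w l) - ψ t|)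
    (fun w => (isOpen_cl w β E n _).inter
      (isOpen_lt continuous_const (continuous_const.sub ψ.continuous).abs))
    fun t => (meas_cl β E n t l).and (measurable_const.lt ((h l).sub_const _).abs)).not).congr_ev
    (ev_pt.mono fun w hw => ⟨fun a l _ ⟨t, a1, a2⟩ => a2.not_ge (a t _ a1), fun a t y hy => ?_⟩)
  obtain ⟨l, a1, rfl⟩ := hw y
  exact not_lt.1 fun hc => a l a1 ⟨t, hy, hc⟩

/-- a dense sequence of continuous functions on the square -/
noncomputable def pp : ℕ → C(T, ℝ) := denseSeq C(T, ℝ)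

theorem NF.ev_md {F : ∀ w, X w → ℝ} (h : NF F) (β : I) {η : ℝ} (hη : 0 < η) :
    ∀ᶠ w in gen P, Continuous (F w) →
      ∃ E : Finset I, (∀ γ ∈ E, w.In γ) ∧ ∃ n k, Md w (F w) β E n (pp k) η := by
  classical
  obtain ⟨t, ht, hsel⟩ := exists_select (b := fun b : countableBasis T => b.1)
    (fun b => isOpen_of_mem_countableBasis b.2)
    (good := fun b w => ∃ E : Finset I, w.In E ∧ ∃ (n : ℕ) (r : ℚ), ∀ l, w.In l →
      (∃ t, t ∈ b.1 ∧ Cl w β E n t (pt w l)) → |F w (pt w l) - r| ≤ η / 2)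
    fun b => measurable_ex_in fun E => Measurable.exists fun n => Measurable.exists fun r =>
      measurable_all_in fun l => (meas_exT
        (fun w => (isOpen_of_mem_countableBasis b.2).inter (isOpen_cl w β E n _))
        fun t => measurable_const.and (meas_cl β E n t l)).imp
          (((h l).sub_const _).abs.le' measurable_const)
  obtain ⟨a, ha⟩ := exists_tv ht
  filter_upwards [ha, ev_const (.inl (β, a) : L), ev_pt, ev_in_finset I,
    ev_all fun E : Finset I => ev_countable_set (P := P) E.countable_toSet]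
    with w h1 h2 h3 h4 h5 hc
  have hx : (pt w (.inl (β, a))).1 = ee w β (t w) := by rw [pt_val h2, ← h1]; rfl
  have key := hsel w (by
    obtain ⟨E, a1, n, a2⟩ := nhds_basic (pt w (.inl (β, a)))
      (U := {y | |F w y - F w (pt w (.inl (β, a)))| < η / 4})
      ((isOpen_lt (by fun_prop) continuous_const).mem_nhds (by simpa using hη))
    obtain ⟨r, hr⟩ := exists_rat_near (F w (pt w (.inl (β, a)))) (show 0 < η / 4 by positivity)
    obtain ⟨b, b1, b2, b3⟩ := (isBasis_countableBasis T).exists_subset_of_mem_open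
      (show t w ∈ {t | Cl w β E (2 * n + 1) t (pt w (.inl (β, a)))} from fun γ _ => by
        rw [hx, dist_self]; positivity) (isOpen_cl ..)
    refine ⟨⟨b, b1⟩, ⟨E, h4 E a1, 2 * n + 1, r, fun l _ ⟨t', c1, c2⟩ => ?_⟩, b2⟩
    have : |F w (pt w l) - F w (pt w (.inl (β, a)))| < η / 4 := a2 _ fun γ hγ => by
      have e : 1 / ((n : ℝ) + 1) = 1 / (((2 * n + 1 : ℕ) : ℝ) + 1) + 1 / (((2 * n + 1 : ℕ) : ℝ) + 1) := by
        push_cast; field_simp; ring
      exact (dist_triangle_right _ _ _).trans_lt (e ▸ add_lt_add (c2 γ hγ) (b3 c1 γ hγ))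
    rw [abs_lt] at this hr
    rw [abs_le]
    constructor <;> linarith [this.1, this.2, hr.1, hr.2])
  obtain ⟨E, a1, n, a2⟩ := isCompact_univ.induction_on (s := (univ : Set T))
    (p := fun K => ∃ E : Finset I, (∀ γ ∈ E, w.In γ) ∧ ∃ n, ∀ t ∈ K, ∃ r : ℝ, ∀ᶠ t' in 𝓝 t,
      ∀ y, Cl w β E n t' y → |F w y - r| ≤ η / 2) ⟨∅, by simp, 0, by simp⟩
    (fun _ _ hst ⟨E, a1, n, a2⟩ => ⟨E, a1, n, fun t ht => a2 t (hst ht)⟩)
    (fun _ _ ⟨E, a1, n, a2⟩ ⟨E', b1, n', b2⟩ => ⟨E ∪ E',
      fun γ hγ => (Finset.mem_union.1 hγ).elim (a1 γ) (b1 γ), max n n', fun t ht => ht.elim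
        (fun ht => (a2 t ht).imp fun _ hr => hr.mono fun _ c y hy =>
          c y (hy.mono Finset.subset_union_left (le_max_left _ _)))
        (fun ht => (b2 t ht).imp fun _ hr => hr.mono fun _ c y hy =>
          c y (hy.mono Finset.subset_union_right (le_max_right _ _)))⟩)
    fun t _ => by
      obtain ⟨b, ⟨E, a1, n, r, a2⟩, a3⟩ := key t
      have hb := isOpen_of_mem_countableBasis b.2
      refine ⟨b, mem_nhdsWithin_of_mem_nhds (hb.mem_nhds a3), E, h5 E a1, n, fun t' ht' =>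
        ⟨r, mem_of_superset (hb.mem_nhds ht') fun t'' c y hy => ?_⟩⟩
      obtain ⟨l, c1, rfl⟩ := h3 y
      exact a2 l c1 ⟨t'', c, hy⟩
  obtain ⟨ψ, hψ⟩ := exists_continuous_forall_mem_convex_of_local_const
    (t := fun t => {r : ℝ | ∀ y, Cl w β E n t y → |F w y - r| ≤ η / 2}) (fun t => by
      have := convex_iInter₂ fun (y : X w) (_ : Cl w β E n t y) => convex_closedBall (F w y) (η / 2)
      convert this using 1
      ext r
      simp [Real.dist_eq, abs_sub_comm]) fun t => a2 t (mem_univ t)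
  obtain ⟨k, hk⟩ := (denseRange_denseSeq C(T, ℝ)).exists_dist_lt ψ (half_pos hη)
  refine ⟨E, a1, n, k, fun t y hy => ?_⟩
  have c1 := abs_le.1 (hψ t y hy)
  have c2 : |ψ t - pp k t| < η / 2 := (ContinuousMap.dist_apply_le_dist t).trans_lt hk
  rw [abs_lt] at c2
  rw [abs_le]
  constructor <;> linarith [c1.1, c1.2, c2.1, c2.2]

instance : Nonempty {G : C(T, T) // Flat (incl.comp G)} :=
  ⟨⟨ContinuousMap.const T va, fun _ _ _ h => by simp [Pos, cr, incl, va] at h⟩⟩

/-- a dense sequence of flat self maps of the square -/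
noncomputable def GG (k : ℕ) : C(T, T) := (denseSeq {G : C(T, T) // Flat (incl.comp G)} k).1

theorem flat_GG (k : ℕ) : Flat (incl.comp (GG k)) := (denseSeq {G // Flat (incl.comp G)} k).2

theorem exists_GG (ψ : C(T, ℝ)) {A : Set T} (hA : A.Finite) {η : ℝ} (hη : 0 < η) :
    ∃ k, ∀ t ∈ A, |ψ (GG k t) - ψ t| < η := by
  obtain ⟨G, h1, h2⟩ := exists_flat_section ψ A hA
  refine (denseRange_denseSeq {G : C(T, T) // Flat (incl.comp G)}).exists_mem_open
    (s := {G | ∀ t ∈ A, |ψ (G.1 t) - ψ t| < η}) ?_ ⟨⟨G, h1⟩, fun t ht => by simpa [h2 t ht]⟩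
  exact isOpen_iff_mem_nhds.2 fun G hG => (eventually_all_finite hA).2 fun t ht =>
    (isOpen_lt (by fun_prop) continuous_const).mem_nhds (hG t ht)

end Pool.Agent.P.MP_181197_gt.Con
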