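import Pool.Agent.P.MP_181197_gt.ConCore

/-!
The square of the function space is not normal in the extension.
-/

open Set Function Filter Topology Pool.Agent.Lib.Helper87 Pool.Agent.P.MP_6e1b89_gt

namespace Pool.Agent.P.MP_181197_gt.Con

variable {w : World P}

/-- evaluation of a pair of functions -/
def ev2 (y : CC w × CC w) (x : X w) : ℝ × ℝ := (y.1.1 x, y.2.1 x)

theorem cont_left (x : X w) : Continuous fun y : CC w × CC w => ev2 y x :=
  ((continuous_apply x).comp (continuous_subtype_val.comp continuous_fst)).prodMk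
    ((continuous_apply x).comp (continuous_subtype_val.comp continuous_snd))

theorem cont_right (y : CC w × CC w) : Continuous (ev2 y) :=
  (cont_of_mem y.1.2).prodMk (cont_of_mem y.2.2)

theorem nhds_sq (y : CC w × CC w) {U : Set (CC w × CC w)} (hU : U ∈ 𝓝 y) :
    ∃ F : Finset (X w), ∀ y', (∀ z ∈ F, ev2 y' z = ev2 y z) → y' ∈ U := by
  classical
  obtain ⟨A, hA, B, hB, hAB⟩ := mem_nhds_prod_iff.1 hU
  obtain ⟨A', a1, a2⟩ := (mem_nhds_subtype _ _ _).1 hA
  obtain ⟨B', b1, b2⟩ := (mem_nhds_subtype _ _ _).1 hB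
  obtain ⟨F1, ε1, h1, hF1⟩ := nhds_pi_basic y.1.1 a1
  obtain ⟨F2, ε2, h2, hF2⟩ := nhds_pi_basic y.2.1 b1
  refine ⟨F1 ∪ F2, fun y' hy' => hAB ⟨a2 (hF1 _ fun z hz => ?_), b2 (hF2 _ fun z hz => ?_)⟩⟩
  · have : y'.1.1 z = y.1.1 z := congrArg Prod.fst (hy' z (Finset.mem_union_left _ hz))
    rwa [this, dist_self]
  · have : y'.2.1 z = y.2.1 z := congrArg Prod.snd (hy' z (Finset.mem_union_right _ hz))
    rwa [this, dist_self]

theorem exists_lab (β : I) (t : T) : ∃ l : L, ∀ᶠ w in gen P, (pt w l).1 = ee w β t := by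
  obtain ⟨a, ha⟩ := exists_tv (measurable_const (a := t))
  refine ⟨.inl (β, a), ?_⟩
  filter_upwards [ha, ev_const (.inl (β, a) : L)] with w h1 h2
  rw [pt_val h2, ← h1]
  rfl

/-- labels of the points of the rows with a fixed position -/
noncomputable def lab (β : I) (t : T) : L := (exists_lab β t).choose

/-- the labels have the intended values -/
def Lb (w : World P) : Prop :=
  (∀ β, w.In β → (pt w (lab β va)).1 = ee w β va ∧ (pt w (lab β vb)).1 = ee w β vb ∧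
    (pt w (lab β vc)).1 = ee w β vc) ∧ ∀ s, (pt w (.inr s)).1 = qq w s

theorem ev_lb : ∀ᶠ w in gen P, Lb w :=
  (ev_all fun β => (exists_lab β va).choose_spec.and
    ((exists_lab β vb).choose_spec.and (exists_lab β vc).choose_spec)).and
    (ev_call fun s => (ev_const (.inr s : L)).mono fun _ h => pt_val h)

/-- the set of projections -/
def DS (w : World P) : Set (CC w × CC w) := {y | ∃ α, w.In α ∧ ∀ x, ev2 y x = x.1 α}

/-- the pairs which surround the origin on no row -/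
def BS (w : World P) : Set (CC w × CC w) := {y | ∀ β, w.In β →
  ¬ Pos (ev2 y (pt w (lab β va))) (ev2 y (pt w (lab β vb))) (ev2 y (pt w (lab β vc)))}

theorem named_DS : Named fun w => cSet (d2 w) (DS w) := by
  refine named_sq (A := fun w f g => ∃ α, w.In α ∧ ∀ x, (f x, g x) = x.1 α) fun φ φ' => ?_
  refine (measurable_ex_in fun α => measurable_all_in fun l =>
    ((nf_fval φ l).prodMk (nf_fval φ' l)).eq (meas_pt l α)).congr_ev (ev_pt.mono fun w hw => ?_)
  refine exists_congr fun α => and_congr_right fun _ => ⟨fun h l _ => h _, fun h x => ?_⟩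
  obtain ⟨l, a, rfl⟩ := hw x
  exact h l a

theorem named_BS : Named fun w => cSet (d2 w) (BS w) := by
  refine named_sq (A := fun w f g => ∀ β, w.In β → ¬ Pos (f (pt w (lab β va)), g (pt w (lab β va)))
    (f (pt w (lab β vb)), g (pt w (lab β vb))) (f (pt w (lab β vc)), g (pt w (lab β vc))))
    fun φ φ' => measurable_all_in fun β => Measurable.not ?_
  exact measurableSet_setOfPred.1 ((((nf_fval φ _).prodMk (nf_fval φ' _)).prodMk
    (((nf_fval φ _).prodMk (nf_fval φ' _)).prodMk ((nf_fval φ _).prodMk (nf_fval φ' _))))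
    isOpen_pos.measurableSet)

theorem isClosed_BS : IsClosed (BS w) := by
  simp only [BS, ofPred_forall]
  exact isClosed_iInter fun β => isClosed_iInter fun _ => (isOpen_pos.preimage
    ((cont_left _).prodMk ((cont_left _).prodMk (cont_left _)))).isClosed_compl

theorem ee_in {α : I} (h : w.In α) (β : I) (t : T) : ee w β t α = hh (cd w β α) t := if_pos h

theorem ee_self {α : I} (h : w.In α) (t : T) : ee w α t α = t.1 := by
  rw [ee_in h, cd_self]
  rfl

theorem pos_coord {α β : I} (h : w.In α)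
    (hp : Pos (ee w β va α) (ee w β vb α) (ee w β vc α)) : α = β := by
  by_contra hne
  simp only [ee_in h] at hp
  exact flat_hh (cd_ne w hne) _ _ _ hp

theorem Lb.disjoint (h : Lb w) : Disjoint (DS w) (BS w) := by
  refine disjoint_left.2 fun y ⟨α, a1, a2⟩ hy => hy α a1 ?_
  obtain ⟨b1, b2, b3⟩ := h.1 α a1
  simp only [a2, b1, b2, b3, ee_self a1]
  exact pos_abc

theorem Lb.isClosed_DS (h : Lb w) : IsClosed (DS w) := by
  classical
  have hq : ∀ s α, w.In α → (pt w (.inr s)).1 α = kk (rr α) s := fun s α hα => by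
    rw [h.2, qq, if_pos hα]
  have hr : Injective rr := exists_rr.choose_spec
  refine isClosed_of_closure_subset fun y hy => ?_
  have hcl : IsClosed {y : CC w × CC w | (fun s => ev2 y (pt w (.inr s))) ∈ range kk} :=
    (isCompact_range continuous_kk).isClosed.preimage (continuous_pi fun s => cont_left _)
  obtain ⟨ρ, hρ⟩ : (fun s => ev2 y (pt w (.inr s))) ∈ range kk := by
    refine hcl.closure_subset_iff.2 ?_ hy
    rintro y ⟨α, a1, a2⟩
    exact ⟨rr α, funext fun s => by rw [a2, hq s α a1]⟩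
  have key : ∀ (z : X w) (v : ℝ × ℝ), (∀ α, w.In α → rr α = ρ → z.1 α = v) → ev2 y z = v := by
    intro z v hv
    refine eq_of_forall_dist_le fun η hη => ?_
    have h1 : ev2 y ⁻¹' Metric.ball (ev2 y z) (η / 2) ∈ 𝓝 z :=
      (cont_right y).continuousAt (Metric.ball_mem_nhds _ (by positivity))
    obtain ⟨E, hE0, n, hE⟩ := nhds_basic z h1
    obtain ⟨s, hs⟩ := kk_approx (insert ρ (E.image rr))
      (fun ρ' => if ρ' = ρ then v else z.1 (invFun rr ρ'))
      (lt_min (show (0 : ℝ) < 1 / ((n : ℝ) + 1) by positivity) (half_pos hη))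
    have h2 : dist (kk ρ s) v < η / 2 := by
      have := hs ρ (Finset.mem_insert_self _ _)
      rw [if_pos rfl] at this
      exact this.trans_le (min_le_right _ _)
    have h3 : dist (ev2 y (pt w (.inr s))) (ev2 y z) < η / 2 := by
      refine hE _ fun α hα => ?_
      have := hs (rr α) (Finset.mem_insert_of_mem (Finset.mem_image_of_mem _ hα))
      have e : (if rr α = ρ then v else z.1 (invFun rr (rr α))) = z.1 α := by
        split_ifs with h
        · exact (hv α (hE0 α hα) h).symm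
        · rw [leftInverse_invFun hr α]
      rw [e] at this
      rw [hq s α (hE0 α hα)]
      exact this.trans_le (min_le_left _ _)
    have h4 : kk ρ s = ev2 y (pt w (.inr s)) := congrFun hρ s
    rw [h4] at h2
    have := dist_triangle_left (ev2 y z) v (ev2 y (pt w (.inr s)))
    linarith
  by_cases hα : ∃ α, w.In α ∧ rr α = ρ
  · obtain ⟨α, a1, a2⟩ := hα
    exact ⟨α, a1, fun z => key z _ fun β _ hβ => by rw [hr (hβ.trans a2.symm)]⟩
  · have h0 := key (pt w l0) 0 fun α a b => absurd ⟨α, a, b⟩ hα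
    have h1 := key (pt w l0) 1 fun α a b => absurd ⟨α, a, b⟩ hα
    exact absurd (h0.symm.trans h1) zero_ne_one

theorem delta_set {S : Set I} (hS : Large S) (A : I → Finset I) : ∃ S' ⊆ S, Large S' ∧
    ∃ R : Set I, R.Finite ∧ ∀ γ, ∃ γ', ∀ ξ ∈ S', γ' < ξ → ∀ z ∈ A ξ, z ∈ R ∨ γ < z := by
  classical
  obtain ⟨S', h1, h2, R, h3, -, h4⟩ := delta hS fun ξ =>
    ⟨fun x => if x ∈ A ξ ×ˢ A ξ then 1 else 0, (A ξ ×ˢ A ξ).finite_toSet.subset fun x hx => by
      by_contra hc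
      exact hx (if_neg hc)⟩
  refine ⟨S', h1, h2, R, h3, fun γ => (h4 γ).imp fun γ' h ξ a b z hz => h ξ a b z ?_⟩
  exact fst_mem (x := (z, z)) (by simp [hz])

/-- all pairs which agree with the projection at the given points belong to `z` -/
def Th (z : World P → ZFSet.{0}) (α : I) (F : Finset L) (w : World P) : Prop :=
  ∀ φ, w.In φ → ∀ φ', w.In φ' → Continuous (fval w φ) → Continuous (fval w φ') →
    (∀ l ∈ F, (fval w φ (pt w l), fval w φ' (pt w l)) = (pt w l).1 α) →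
      (fc w (fval w φ)).pair (fc w (fval w φ')) ∈ z w

variable {z : World P → ZFSet.{0}}

theorem meas_th (hz : Named z) (α : I) (F : Finset L) : Measurable (Th z α F) :=
  measurable_all_in fun φ => measurable_all_in fun φ' => (nf_fval φ).meas_cont.imp
    ((nf_fval φ').meas_cont.imp ((meas_finset F fun l =>
      ((nf_fval φ l).prodMk (nf_fval φ' l)).eq (meas_pt l α)).imp
        (((nf_fval φ).named.pair (nf_fval φ').named).measurable_mem hz)))

theorem ev_system (hz : Named z) : ∀ᶠ w in gen P, (∀ α, w.In α → ∃ F, w.In F ∧ Th z α F w) →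
    ∃ (F : I → Finset L) (A : Set I), (∀ α ∈ A, w.In α ∧ (∀ l ∈ F α, w.In l) ∧ Th z α (F α) w) ∧
      (∀ γ, w.In γ → ∃ α ∈ A, γ < α ∧ ∀ x, .inl x ∈ F α →
        (∀ α' ∈ A, cd w x.1 α' = cd w x.1 α) ∨ γ < x.1) ∧
      ∀ α ∈ A, ∀ α' ∈ A, ∀ s, .inr s ∈ F α → kk (rr α') s = kk (rr α) s := by
  classical
  refine ev_of_dense fun q0 => ?_
  obtain ⟨q, h0, hq | hq⟩ := (measurable_all_in fun α => measurable_ex_in fun F =>
    meas_th hz α F).decides q0
  swap
  · exact ⟨q, h0, hq.imp' fun w h h' => absurd h' h⟩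
  choose p0 hp0 F hF using fun α => Sem.ex_in (meas_th hz α)
    (hq.imp ((ev_const α).mono fun _ a h => h α a))
  obtain ⟨S1, -, a1, R, a2, a3⟩ := delta_set large_univ fun α => (F α).toLeft.image Prod.fst
  have := a2.to_subtype
  choose p hp v hv using fun α => Sem.ex (p := p0 α)
    (Φ := fun (v : R → ℕ) w => ∀ β : R, cd w β α = v β)
    (fun v => Measurable.forall fun β => (meas_cd _ _).eq_const _)
    (sem_of_ev (Eventually.of_forall fun w => ⟨_, fun _ => rfl⟩) _)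
  obtain ⟨S2, b1, b2, ⟨v0, Sq⟩, b3⟩ := lconst a1 fun α => (v α, (F α).toRight)
  obtain ⟨S3, c1, c2, u, c3⟩ := lconst b2 fun α (s : Sq) => s.1.2 fun i => rr α i
  obtain ⟨ξ0, -, d1⟩ := exists_unb c2 p
  refine ⟨p ξ0, ((hp _).trans (hp0 _)).trans h0, ?_⟩
  filter_upwards [ev_all fun α => (hF α).mono (hp α), ev_all hv,
    ev_all fun α => ev_countable_set (P := P) (F α).countable_toSet,
    sem_all (p := p ξ0) (Φ := fun γ w => ∃ α ∈ S3, w.In α ∧ w.Has (p α) ∧ γ < α ∧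
      ∀ x, .inl x ∈ F α → x.1 ∈ R ∨ γ < x.1) fun γ => sem_of_dense fun r hr => by
        obtain ⟨γ', e1⟩ := a3 γ
        obtain ⟨α, e2, e3, r', e4, e5⟩ := d1 r hr (max γ γ')
        exact ⟨r', e4, (ev_const α).mono fun w h h' => ⟨α, e2, h, h'.mono e5,
          (le_max_left _ _).trans_lt e3, fun x hx => e1 α (b1 (c1 e2))
            ((le_max_right _ _).trans_lt e3) _
            (Finset.mem_image_of_mem _ (Finset.mem_toLeft.2 hx))⟩⟩] with w h1 h2 h3 h4 hw _
  refine ⟨F, {α ∈ S3 | w.In α ∧ w.Has (p α)}, fun α hα =>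
    ⟨hα.2.1, h3 α hα.2.1, h1 α hα.2.1 hα.2.2⟩, fun γ hγ => ?_, fun α hα α' hα' s hs => ?_⟩
  · obtain ⟨α, e1, e2, e3, e4, e5⟩ := h4 hw γ hγ
    refine ⟨α, ⟨e1, e2, e3⟩, e4, fun x hx => (e5 x hx).imp_left fun hR α' hα' => ?_⟩
    rw [h2 α' hα'.2.1 hα'.2.2 ⟨_, hR⟩, h2 α e2 e3 ⟨_, hR⟩, (Prod.mk.inj (b3 α (c1 e1))).1,
      (Prod.mk.inj (b3 α' (c1 hα'.1))).1]
  · have hs' : s ∈ Sq := (Prod.mk.inj (b3 α (c1 hα.1))).2 ▸ Finset.mem_toRight.2 hs
    have : (s.2 fun i => rr α' i) = s.2 fun i => rr α i :=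
      (congrFun (c3 α' hα'.1) ⟨s, hs'⟩).trans (congrFun (c3 α hα.1) ⟨s, hs'⟩).symm
    simp only [kk, this]

theorem ev_bump : ∀ᶠ w in gen P, ∀ H Z : Finset (X w), (∀ x ∈ Z, x ∉ H) →
    ∃ μ ∈ CC w, (∀ x ∈ H, μ x = 1) ∧ ∀ x ∈ Z, μ x = 0 := by
  classical
  filter_upwards [ev_tych, ev_op (Θ := fun a => a.1 * a.2.1) (by fun_prop),
    NF.ev_cc (F := fun _ _ => 1) fun _ => measurable_const] with w h1 h2 h3 H Z hZ
  induction Z using Finset.induction_on with
  | empty => exact ⟨_, h3 continuous_const, fun _ _ => rfl, by simp⟩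
  | insert x Z _ ih =>
    obtain ⟨μ, a1, a2, a3⟩ := ih fun y hy => hZ y (Finset.mem_insert_of_mem hy)
    obtain ⟨f, b1, b2, b3⟩ := h1 x (H : Set (X w))ᶜ
      (H.finite_toSet.isClosed.isOpen_compl.mem_nhds (hZ x (Finset.mem_insert_self _ _)))
    refine ⟨_, h2 μ a1 f b1 f b1, fun y hy => by simp [a2 y hy, b3 y (by simpa using hy)],
      fun y hy => ?_⟩
    rcases Finset.mem_insert.1 hy with rfl | hy
    · simp [b2]
    · simp [a3 y hy]

theorem exists_pos_radius : ∃ s > 0, ∀ p q r : ℝ × ℝ, dist va.1 p < s → dist vb.1 q < s →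
    dist vc.1 r < s → Pos p q r := by
  obtain ⟨s, hs, hb⟩ := Metric.isOpen_iff.1 isOpen_pos (va.1, vb.1, vc.1) pos_abc
  refine ⟨s, hs, fun p q r h1 h2 h3 => hb (a := (p, q, r)) ?_⟩
  simp only [Metric.mem_ball, Prod.dist_eq (x := (p, q, r)), Prod.dist_eq (x := (q, r)), max_lt_iff]
  exact ⟨dist_comm p _ ▸ h1, dist_comm q _ ▸ h2, dist_comm r _ ▸ h3⟩

theorem ev_proj : ∀ᶠ w in gen P, ∀ α, w.In α → ∃ y : CC w × CC w, ∀ x, ev2 y x = x.1 α := by
  filter_upwards [ev_all fun α => (NF.ev_cc (F := fun w x => (x.1 α).1) fun l =>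
    (meas_pt l α).fst).and (NF.ev_cc (F := fun w x => (x.1 α).2) fun l => (meas_pt l α).snd)]
    with w h α hα
  exact ⟨(⟨_, (h α hα).1 (continuous_coord w α).fst⟩, ⟨_, (h α hα).2 (continuous_coord w α).snd⟩),
    fun _ => rfl⟩

/-- the cut-off of a vector -/
noncomputable def cut (s : ℝ) (a b : ℝ × ℝ) : ℝ × ℝ := max 0 (1 - dist a b / s) • a

theorem continuous_cut (s : ℝ) : Continuous fun a : (ℝ × ℝ) × (ℝ × ℝ) => cut s a.1 a.2 := by
  unfold cut
  fun_prop

theorem meas_cut {a b : World P → ℝ × ℝ} (ha : Measurable a) (hb : Measurable b) (s : ℝ) :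
    Measurable fun w => cut s (a w) (b w) :=
  Measurable.comp (g := fun a : (ℝ × ℝ) × (ℝ × ℝ) => cut s a.1 a.2) (f := fun w => (a w, b w))
    (continuous_cut s).measurable (ha.prodMk hb)

theorem cont_cut {Y : Type} [TopologicalSpace Y] {a b : Y → ℝ × ℝ} (ha : Continuous a)
    (hb : Continuous b) (s : ℝ) : Continuous fun x => cut s (a x) (b x) :=
  Continuous.comp (g := fun a : (ℝ × ℝ) × (ℝ × ℝ) => cut s a.1 a.2) (f := fun x => (a x, b x))
    (continuous_cut s) (ha.prodMk hb)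

theorem ev_cut (s : ℝ) : ∀ᶠ w in gen P, ∀ α, w.In α → ∀ α', w.In α' → ∃ y : CC w × CC w,
    ∀ x, ev2 y x = cut s (x.1 α) (x.1 α') := by
  refine ev_all fun α => ev_all fun α' => ?_
  filter_upwards [NF.ev_cc (F := fun w x => (cut s (x.1 α) (x.1 α')).1) fun l =>
      (meas_cut (meas_pt l α) (meas_pt l α') s).fst,
    NF.ev_cc (F := fun w x => (cut s (x.1 α) (x.1 α')).2) fun l =>
      (meas_cut (meas_pt l α) (meas_pt l α') s).snd] with w h1 h2
  have := cont_cut (continuous_coord w α) (continuous_coord w α') s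
  exact ⟨(⟨_, h1 this.fst⟩, ⟨_, h2 this.snd⟩), fun _ => rfl⟩

theorem ev_meet (hz : Named z) : ∀ᶠ w in gen P, ∀ U : Set (CC w × CC w), cSet (d2 w) U = z w →
    IsOpen U → DS w ⊆ U → ∃ y ∈ BS w, y ∈ closure U := by
  classical
  obtain ⟨s, hs0, hs⟩ := exists_pos_radius
  filter_upwards [ev_system hz, ev_bump, ev_proj, ev_cut s, ev_lb, ev_nm, ev_pt, ev_in_finset L,
    ev_op (Θ := fun a => a.1 * a.2.1 + (1 - a.1) * a.2.2) (by fun_prop),
    ev_const (Classical.arbitrary I)] with w h1 h2 h3 h4 h5 h6 h7 h8 h9 h10 U hU hUo hD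
  have hU' : ∀ y : CC w × CC w, d2 w y ∈ z w ↔ y ∈ U := fun y =>
    hU ▸ Set.ext_iff.1 (dec_set (d2_inj w) U) y
  choose lb l1 l2 using h7
  obtain ⟨F, A, a1, a2, a3⟩ := h1 fun α hα => by
    obtain ⟨y, hy⟩ := h3 α hα
    obtain ⟨H, hH⟩ := nhds_sq y (hUo.mem_nhds (hD ⟨α, hα, hy⟩))
    refine ⟨H.image lb, h8 _ (by
      intro l hl
      obtain ⟨x, -, rfl⟩ := Finset.mem_image.1 hl
      exact l1 x), fun φ b1 φ' b2 b3 b4 b5 =>
      (hU' (⟨_, h6.2 φ b1 b3⟩, ⟨_, h6.2 φ' b2 b4⟩)).2 (hH _ fun x hx => ?_)⟩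
    have := b5 _ (Finset.mem_image_of_mem lb hx)
    rw [l2] at this
    rw [hy]
    exact this
  obtain ⟨α0, b1, -⟩ := a2 _ h10
  have i0 := (a1 α0 b1).1
  obtain ⟨α1, b2, b3, -⟩ := a2 α0 i0
  have i1 := (a1 α1 b2).1
  obtain ⟨y, hy⟩ := h4 α0 i0 α1 i1
  refine ⟨y, fun β hβ hp => ?_, mem_closure_iff_nhds.2 fun V hV => ?_⟩
  · obtain ⟨c1, c2, c3⟩ := h5.1 β hβ
    obtain ⟨n1, n2, n3⟩ := hp.ne_zero
    simp only [hy, c1, c2, c3, cut] at hp n1 n2 n3
    obtain rfl := pos_coord i0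
      (pos_of_smul (le_max_left _ _) (le_max_left _ _) (le_max_left _ _) hp)
    have key : ∀ t, max 0 (1 - dist (ee w α0 t α0) (ee w α0 t α1) / s) • ee w α0 t α0 ≠ 0 →
        dist t.1 (ee w α0 t α1) < s := fun t ht => by
      rw [ee_self i0] at ht
      by_contra hc
      rw [max_eq_left (sub_nonpos.2 ((one_le_div hs0).2 (not_lt.1 hc))), zero_smul] at ht
      exact ht rfl
    exact b3.ne' (pos_coord i1 (hs _ _ _ (key _ n1) (key _ n2) (key _ n3)))
  · obtain ⟨H, hH⟩ := nhds_sq y hV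
    obtain ⟨γ, c1, c2⟩ : ∃ γ : I, w.In γ ∧ ∀ x ∈ H, ∀ δ, γ < δ → (∀ ε < δ, x.1 ε = 0) → x.1 = 0 := by
      clear hH
      induction H using Finset.induction_on with
      | empty => exact ⟨α0, i0, by simp⟩
      | insert x H _ ih =>
        obtain ⟨γ, d1, d2⟩ := ih
        by_cases hx : x.1 = 0
        · exact ⟨γ, d1, Finset.forall_mem_insert .. |>.2 ⟨fun _ _ _ => hx, d2⟩⟩
        · obtain ⟨ε, hε⟩ := ne_iff.1 hx
          have d3 : w.In ε := by_contra fun h => hε (zero_out x h)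
          exact ⟨max γ ε, max_rec' _ d1 d3, Finset.forall_mem_insert .. |>.2
            ⟨fun δ e1 e2 => absurd (e2 ε ((le_max_right _ _).trans_lt e1)) hε,
              fun x hx δ e1 => d2 x hx δ ((le_max_left _ _).trans_lt e1)⟩⟩
    obtain ⟨α, d1, -, d2⟩ := a2 γ c1
    obtain ⟨i2, d3, d4⟩ := a1 α d1
    have key : ∀ l ∈ F α, pt w l ∈ H → ev2 y (pt w l) = (pt w l).1 α := by
      intro l hl hH
      suffices h : ∀ α' ∈ A, (pt w l).1 α' = (pt w l).1 α by simp [hy, cut, h α0 b1, h α1 b2]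
      intro α' hα'
      have i3 := (a1 α' hα').1
      rcases l with x | s
      · have e : (pt w (.inl x)).1 = ee w x.1 (tv w x.2) := pt_val (d3 _ hl)
        rcases d2 x hl with h | h
        · rw [e, ee_in i3, ee_in i2, h α' hα']
        · rw [c2 _ hH _ h fun ε hε => by
            rw [e, ee, cd_lt w hε]
            split_ifs <;> rfl]
          rfl
      · rw [h5.2, qq, qq, if_pos i3, if_pos i2, a3 α d1 α' hα' s hl]
    obtain ⟨μ, e1, e2, e3⟩ := h2 H ((F α).image (pt w) \ H) fun x hx => (Finset.mem_sdiff.1 hx).2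
    obtain ⟨u, hu⟩ := h3 α i2
    let y' : CC w × CC w := (⟨_, h9 μ e1 _ y.1.2 _ u.1.2⟩, ⟨_, h9 μ e1 _ y.2.2 _ u.2.2⟩)
    have f1 : ∀ x, μ x = 1 → ev2 y' x = ev2 y x := fun x hx => by simp [ev2, y', hx]
    have f2 : ∀ x, μ x = 0 → ev2 y' x = ev2 u x := fun x hx => by simp [ev2, y', hx]
    refine ⟨y', hH y' fun x hx => f1 x (e2 x hx), (hU' y').1 ?_⟩
    obtain ⟨φ, g1, g2⟩ := h6.1 _ y'.1.2
    obtain ⟨φ', g3, g4⟩ := h6.1 _ y'.2.2
    have := d4 φ g1 φ' g3 (g2 ▸ cont_of_mem y'.1.2) (g4 ▸ cont_of_mem y'.2.2) fun l hl => by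
      rw [g2, g4]
      by_cases hx : pt w l ∈ H
      · exact (f1 _ (e2 _ hx)).trans (key l hl hx)
      · exact (f2 _ (e3 _ (Finset.mem_sdiff.2 ⟨Finset.mem_image_of_mem _ hl, hx⟩))).trans (hu _)
    rwa [g2, g4] at this

theorem ev_not_normal : ∀ᶠ w in gen P, ¬ NormalIn w.M (d2 w) := by
  filter_upwards [named_DS.ev_mem, named_BS.ev_mem, ev_lb, ev_all_named
    (Φ := fun z w => ∀ U : Set (CC w × CC w), cSet (d2 w) U = z → IsOpen U → DS w ⊆ U →
      ∃ y ∈ BS w, y ∈ closure U) fun z hz => ev_meet hz] with w h1 h2 h3 h4 hN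
  obtain ⟨U, V, a1, -, a2, a3, a4, a5, a6⟩ := hN _ _ h1 h2 h3.isClosed_DS isClosed_BS h3.disjoint
  obtain ⟨y, b1, b2⟩ := h4 _ a1 U rfl a2 a4
  obtain ⟨x, c1, c2⟩ := mem_closure_iff.1 b2 V a3 (a5 b1)
  exact disjoint_left.1 a6 c2 c1

theorem con_main : ∃ M : Set ZFSet.{0}, TransModelZFC M ∧
    ∃ (X : Type) (c : X → ZFSet.{0}) (𝒯 : Set (Set X)), Injective c ∧
      cSet c univ ∈ M ∧ cSet (cSet c) 𝒯 ∈ M ∧ TychonoffIn M c 𝒯 ∧
      PerfNormalIn M (fun f : CpIn M c 𝒯 => cFun c cReal univ f.1) ∧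
      ¬ NormalIn M fun y : CpIn M c 𝒯 × CpIn M c 𝒯 =>
        (cFun c cReal univ y.1.1).pair (cFun c cReal univ y.2.1) := by
  obtain ⟨w, h1, h2, h3, h4, h5, h6⟩ := ((ev_zfc (P := P)).and (ev_univ.and (named_TT.ev_mem.and
    (ev_tychonoff.and (ev_perf.and ev_not_normal))))).exists
  exact ⟨w.M, h1, X w, pc w, TT w, pc_inj w, h2, h3, h4, h5, h6⟩

end Pool.Agent.P.MP_181197_gt.Con
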