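import Pool.Agent.P.MP_181197_gt.ConCode

/-!
The topology of the space in the extension, its function space, and names of sets of functions.
-/

open Set Function Filter Topology Pool.Agent.Lib.Helper87 Pool.Agent.P.MP_6e1b89_gt
open Pool.Agent.P.MP_c9188c_gt (mem_cSet mem_cSet_iff HausdorffIn)

namespace Pool.Agent.P.MP_181197_gt.Con

/-- the open sets of the extension -/
def TT (w : World P) : Set (Set (X w)) := {U | IsOpen U ∧ cSet (pc w) U ∈ w.M}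

/-- the continuous functions of the extension -/
abbrev CC (w : World P) : Set (X w → ℝ) := CpIn w.M (pc w) (TT w)

theorem ns_pos (φ : FN) : NS fun w => {x | 0 < fval w φ x} := fun l =>
  measurable_const.lt (nf_fval φ l)

theorem named_TT : Named fun w => cSet (cSet (pc w)) (TT w) := by
  refine named_dSet (g := fun φ w => {x | 0 < fval w φ x}) (fun φ => (ns_pos φ).named)
    (fun φ => (ns_pos φ).meas_open) ?_
  filter_upwards [ev_pos, ev_all fun φ => (ns_pos φ).named.ev_mem] with w h1 h2 U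
  constructor
  · intro hU
    obtain ⟨φ, a1, rfl⟩ := h1 U hU.2
    exact ⟨φ, a1, hU.1, rfl⟩
  · rintro ⟨φ, a1, a2, rfl⟩
    exact ⟨a2, h2 φ a1⟩

theorem cont_of_mem {w : World P} {f : X w → ℝ} (h : f ∈ CC w) : Continuous f :=
  continuous_iff_near.2 fun x n => by
    obtain ⟨U, a1, a2, a3⟩ := h.2 x (1 / ((n : ℝ) + 1)) (by positivity)
    exact mem_of_superset (a1.1.mem_nhds a2) a3

theorem ev_cc : ∀ᶠ w in gen P, ∀ f, fc w f ∈ w.M → Continuous f → f ∈ CC w := by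
  filter_upwards [ev_pt, ev_fval, ev_all fun φ => ev_all fun l => ev_call fun n : ℕ =>
    ((nf_fval φ).ns_near l (1 / ((n : ℝ) + 1))).named.ev_mem] with w h1 h2 h3 f hf hc
  refine ⟨hf, fun x ε hε => ?_⟩
  obtain ⟨φ, a1, rfl⟩ := h2 f hf
  obtain ⟨l, a2, rfl⟩ := h1 x
  obtain ⟨n, hn⟩ := exists_nat_one_div_lt hε
  exact ⟨_, ⟨isOpen_lt (by fun_prop) continuous_const, h3 φ a1 l a2 n⟩, by simp; positivity,
    fun y hy => lt_trans hy hn⟩

theorem NF.ev_cc {F : ∀ w, X w → ℝ} (h : NF F) :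
    ∀ᶠ w in gen P, Continuous (F w) → F w ∈ CC w := by
  filter_upwards [Con.ev_cc, h.named.ev_mem] with w h1 h2 using h1 _ h2

/-- the facts on names of continuous functions -/
def Nm (w : World P) : Prop := (∀ f ∈ CC w, ∃ φ, w.In φ ∧ fval w φ = f) ∧
  ∀ φ, w.In φ → Continuous (fval w φ) → fval w φ ∈ CC w

theorem ev_nm : ∀ᶠ w in gen P, Nm w := by
  filter_upwards [ev_fval, ev_all fun φ => (nf_fval φ).ev_cc] with w h1 h2
  exact ⟨fun f hf => h1 f hf.1, h2⟩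

theorem ev_op {Θ : ℝ × ℝ × ℝ → ℝ} (hΘ : Continuous Θ) : ∀ᶠ w in gen P, ∀ f ∈ CC w, ∀ g ∈ CC w,
    ∀ h ∈ CC w, (fun x => Θ (f x, g x, h x)) ∈ CC w := by
  filter_upwards [ev_nm, ev_all fun a => ev_all fun b => ev_all fun c => NF.ev_cc
    (F := fun w x => Θ (fval w a x, fval w b x, fval w c x)) fun l => hΘ.measurable.comp
      ((nf_fval a l).prodMk ((nf_fval b l).prodMk (nf_fval c l)))] with w h1 h2 f hf g hg h hh
  obtain ⟨a, a1, rfl⟩ := h1.1 f hf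
  obtain ⟨b, b1, rfl⟩ := h1.1 g hg
  obtain ⟨c, c1, rfl⟩ := h1.1 h hh
  exact h2 a a1 b b1 c c1 (hΘ.comp
    ((cont_of_mem hf).prodMk ((cont_of_mem hg).prodMk (cont_of_mem hh))))

theorem ev_tych : ∀ᶠ w in gen P, ∀ (x : X w), ∀ U ∈ 𝓝 x,
    ∃ f ∈ CC w, f x = 0 ∧ ∀ y ∉ U, f y = 1 := by
  filter_upwards [ev_pt, ev_all fun l => ev_all_finset fun E : Finset I => ev_call fun n : ℕ =>
    NF.ev_cc (F := fun w y => min 1 (((n : ℝ) + 1) * ∑ γ ∈ E, dist (y.1 γ) ((pt w l).1 γ)))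
      fun l' => measurable_const.min (measurable_const.mul
        (Finset.measurable_sum E fun γ _ => (meas_pt l' γ).dist (meas_pt l γ)))]
    with w h1 h2 x U hU
  obtain ⟨l, a1, rfl⟩ := h1 x
  obtain ⟨E, a2, n, a3⟩ := nhds_basic _ hU
  refine ⟨_, h2 l a1 E a2 n (continuous_const.min (continuous_const.mul
    (continuous_finsetSum E fun γ _ => (continuous_coord w γ).dist continuous_const))),
    by simp, fun y hy => min_eq_left ?_⟩
  obtain ⟨γ, b1, b2⟩ : ∃ γ ∈ E, 1 / ((n : ℝ) + 1) ≤ dist (y.1 γ) ((pt w l).1 γ) := by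
    by_contra hc
    push Not at hc
    exact hy (a3 y hc)
  have := b2.trans (Finset.single_le_sum (f := fun γ => dist (y.1 γ) ((pt w l).1 γ))
    (fun _ _ => dist_nonneg) b1)
  rwa [div_le_iff₀' (by positivity)] at this

theorem cSet_sUnion {α : Type} (c : α → ZFSet.{0}) (𝒰 : Set (Set α)) :
    cSet c (⋃₀ 𝒰) = (cSet (cSet c) 𝒰).sUnion := by
  ext z
  simp only [mem_cSet, ZFSet.mem_sUnion, mem_sUnion]
  constructor
  · rintro ⟨x, ⟨U, h1, h2⟩, rfl⟩
    exact ⟨_, ⟨U, h1, rfl⟩, mem_cSet.2 ⟨x, h2, rfl⟩⟩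
  · rintro ⟨_, ⟨U, h1, rfl⟩, h2⟩
    obtain ⟨x, h3, rfl⟩ := mem_cSet.1 h2
    exact ⟨x, ⟨U, h1, h3⟩, rfl⟩

theorem ev_univ : ∀ᶠ w in gen P, cSet (pc w) univ ∈ w.M :=
  (NS.named (A := fun _ => univ) fun _ => measurable_const).ev_mem

theorem ev_tychonoff : ∀ᶠ w in gen P, TychonoffIn w.M (pc w) (TT w) := by
  filter_upwards [ev_univ, ev_union, ev_pos, ev_tych, ev_nm,
    ev_all fun a => ev_all fun b => (NS.named (A := fun w => {x | 0 < fval w a x} ∩
      {x | 0 < fval w b x}) fun l => (ns_pos a l).and (ns_pos b l)).ev_mem,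
    ev_all fun a => (NS.named (A := fun w => {x | fval w a x < 1 / 2})
      fun l => (nf_fval a l).lt measurable_const).ev_mem,
    ev_all fun a => (NS.named (A := fun w => {x | 1 / 2 < fval w a x})
      fun l => measurable_const.lt (nf_fval a l)).ev_mem] with w h1 h2 h3 h4 h5 h6 h7 h8
  refine ⟨⟨⟨isOpen_univ, h1⟩, fun U hU V hV => ⟨hU.1.inter hV.1, ?_⟩,
    fun 𝒰 a1 a2 => ⟨isOpen_sUnion fun U hU => (a1 hU).1, cSet_sUnion _ 𝒰 ▸ h2 _ a2⟩,
    fun x y hxy => ?_⟩, fun U hU x hx => h4 x U (hU.1.mem_nhds hx)⟩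
  · obtain ⟨a, a1, rfl⟩ := h3 U hU.2
    obtain ⟨b, b1, rfl⟩ := h3 V hV.2
    exact h6 a a1 b b1
  · obtain ⟨f, a1, a2, a3⟩ := h4 x {y}ᶜ (compl_singleton_mem_nhds hxy)
    have hc := cont_of_mem a1
    obtain ⟨a, b1, rfl⟩ := h5.1 f a1
    refine ⟨_, ⟨isOpen_lt hc continuous_const, h7 a b1⟩, _,
      ⟨isOpen_lt continuous_const hc, h8 a b1⟩, by simp [a2], ?_,
      disjoint_left.2 fun z c1 c2 => lt_asymm (mem_ofPred.1 c1) (mem_ofPred.1 c2)⟩
    rw [mem_ofPred_eq, a3 y (by simp)]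
    norm_num

/-- codes of continuous functions -/
noncomputable abbrev d1 (w : World P) (f : CC w) : ZFSet.{0} := cFun (pc w) cReal univ f.1

/-- codes of pairs of continuous functions -/
noncomputable abbrev d2 (w : World P) (y : CC w × CC w) : ZFSet.{0} :=
  (cFun (pc w) cReal univ y.1.1).pair (cFun (pc w) cReal univ y.2.1)

theorem d1_inj (w : World P) : Injective (d1 w) := fun _ _ h => Subtype.ext (fc_inj w h)

theorem d2_inj (w : World P) : Injective (d2 w) := fun _ _ h =>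
  Prod.ext (d1_inj w (ZFSet.pair_inj.1 h).1) (d1_inj w (ZFSet.pair_inj.1 h).2)

theorem dec_set {α : Type} {c : α → ZFSet.{0}} (hc : Injective c) (A : Set α) :
    {x | c x ∈ cSet c A} = A :=
  Set.ext fun x => mem_cSet_iff hc.injOn (subset_univ A) (mem_univ x)

/-- named sets of functions -/
def NSF (A : ∀ w, Set (X w → ℝ)) : Prop := ∀ φ, Measurable fun w => fval w φ ∈ A w

theorem NSF.named {A : ∀ w, Set (X w → ℝ)} (h : NSF A) :
    Named fun w => cSet (d1 w) (Subtype.val ⁻¹' A w) := by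
  refine named_of_mem_iff (x := fun φ w => fc w (fval w φ)) (fun φ => (nf_fval φ).named)
    (Φ := fun φ w => Continuous (fval w φ) ∧ fval w φ ∈ A w)
    (fun φ => (nf_fval φ).meas_cont.and (h φ)) (ev_nm.mono fun w hw z => ?_)
  rw [mem_cSet]
  constructor
  · rintro ⟨⟨f, hf⟩, a1, rfl⟩
    obtain ⟨φ, a2, rfl⟩ := hw.1 f hf
    exact ⟨φ, a2, ⟨cont_of_mem hf, a1⟩, rfl⟩
  · rintro ⟨φ, a1, ⟨a2, a3⟩, rfl⟩
    exact ⟨⟨_, hw.2 φ a1 a2⟩, a3, rfl⟩

theorem named_sq {A : ∀ w, (X w → ℝ) → (X w → ℝ) → Prop}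
    (h : ∀ φ φ', Measurable fun w => A w (fval w φ) (fval w φ')) :
    Named fun w => cSet (d2 w) {y | A w y.1.1 y.2.1} := by
  refine named_of_mem_iff (I := FN × FN)
    (x := fun φ w => (fc w (fval w φ.1)).pair (fc w (fval w φ.2)))
    (fun φ => (nf_fval _).named.pair (nf_fval _).named)
    (Φ := fun φ w => Continuous (fval w φ.1) ∧ Continuous (fval w φ.2) ∧
      A w (fval w φ.1) (fval w φ.2))
    (fun φ => (nf_fval _).meas_cont.and ((nf_fval _).meas_cont.and (h _ _))) ?_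
  filter_upwards [ev_nm, ev_in_prod FN FN] with w hw h2 z
  rw [mem_cSet]
  constructor
  · rintro ⟨⟨⟨f, hf⟩, g, hg⟩, a1, rfl⟩
    obtain ⟨φ, a2, rfl⟩ := hw.1 f hf
    obtain ⟨φ', a3, rfl⟩ := hw.1 g hg
    exact ⟨(φ, φ'), (h2 _).2 ⟨a2, a3⟩, ⟨cont_of_mem hf, cont_of_mem hg, a1⟩, rfl⟩
  · rintro ⟨φ, a1, ⟨a2, a3, a4⟩, rfl⟩
    exact ⟨(⟨_, hw.2 _ ((h2 _).1 a1).1 a2⟩, ⟨_, hw.2 _ ((h2 _).1 a1).2 a3⟩), a4, rfl⟩

end Pool.Agent.P.MP_181197_gt.Con
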