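import Mathlib

namespace Pool.Agent.P.MP_181197_gt

/-- The bounding number: the least size of a family of functions `ℕ → ℕ` that is unbounded in
the order of eventual domination. -/
noncomputable def boundingNumber : Cardinal :=
  sInf {c : Cardinal | ∃ F : Set (ℕ → ℕ), Cardinal.mk F = c ∧
    ¬ ∃ g : ℕ → ℕ, ∀ f ∈ F, ∀ᶠ n in Filter.atTop, f n ≤ g n}

end Pool.Agent.P.MP_181197_gt
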