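import Mathlib
import Pool.Agent.P.MP_181197_gt.Defs

open Cardinal Set Function Filter

namespace Pool.Agent.P.MP_181197_gt

theorem exists_unbounded : ∃ F : Set (ℕ → ℕ), #F = boundingNumber ∧
    ¬ ∃ g : ℕ → ℕ, ∀ f ∈ F, ∀ᶠ n in atTop, f n ≤ g n := by
  have hne : {c : Cardinal | ∃ F : Set (ℕ → ℕ), #F = c ∧
      ¬ ∃ g : ℕ → ℕ, ∀ f ∈ F, ∀ᶠ n in atTop, f n ≤ g n}.Nonempty := by
    refine ⟨_, univ, rfl, ?_⟩
    rintro ⟨g, hg⟩
    obtain ⟨n, hn⟩ := (hg (fun n => g n + 1) (mem_univ _)).exists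
    omega
  exact csInf_mem hne

theorem bounded_of_lt (F : Set (ℕ → ℕ)) (hF : #F < boundingNumber) :
    ∃ g : ℕ → ℕ, ∀ f ∈ F, ∀ᶠ n in atTop, f n ≤ g n := by
  by_contra h
  exact absurd (csInf_le' (s := {c : Cardinal | ∃ F : Set (ℕ → ℕ), #F = c ∧
      ¬ ∃ g : ℕ → ℕ, ∀ f ∈ F, ∀ᶠ n in atTop, f n ≤ g n}) ⟨F, rfl, h⟩) (not_le.2 hF)

theorem aleph0_lt_b : ℵ₀ < boundingNumber := by
  obtain ⟨F, hF, hunb⟩ := exists_unbounded
  by_contra h
  rw [not_lt, ← hF, le_aleph0_iff_set_countable] at h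
  apply hunb
  rcases F.eq_empty_or_nonempty with rfl | hne
  · exact ⟨fun _ => 0, by simp⟩
  obtain ⟨e, he⟩ := h.exists_eq_range hne
  refine ⟨fun n => (Finset.range (n + 1)).sup fun k => e k n, ?_⟩
  rw [he]
  rintro _ ⟨k, rfl⟩
  filter_upwards [eventually_ge_atTop k] with n hn
  exact Finset.le_sup (f := fun k => e k n) (Finset.mem_range.2 (by omega))

theorem b_le_continuum : boundingNumber ≤ 𝔠 := by
  obtain ⟨F, hF, -⟩ := exists_unbounded
  rw [← hF]
  refine (mk_set_le F).trans ?_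
  simp

/-- A well-ordered, eventually increasing, unbounded scale of length `boundingNumber`. -/
structure IsScale (I : Type) [LinearOrder I] (x : I → ℕ → ℕ) : Prop where
  card : #I = boundingNumber
  seg : ∀ γ : I, #(Iio γ) < boundingNumber
  mono : ∀ α, Monotone (x α)
  lt : ∀ β α, β < α → ∀ᶠ n in atTop, x β n < x α n
  unb : ∀ g : ℕ → ℕ, ∃ α, ∃ᶠ n in atTop, g n < x α n

theorem exists_scale_aux (I : Type) (e : I → ℕ → ℕ) (hI : #I = boundingNumber)
    (hunb : ¬ ∃ g : ℕ → ℕ, ∀ i, ∀ᶠ n in atTop, e i n ≤ g n) :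
    ∃ (_ : LinearOrder I) (_ : WellFoundedLT I) (x : I → ℕ → ℕ), IsScale I x := by
  classical
  obtain ⟨lo, wf, ho⟩ := Cardinal.exists_ord_eq_type_lt I
  have hseg : ∀ γ : I, #(Iio γ) < boundingNumber := fun γ => hI ▸ Cardinal.mk_Iio_lt γ ho
  have step : ∀ (j : I) (g : ∀ i, i < j → ℕ → ℕ), ∃ y : ℕ → ℕ, Monotone y ∧
      (∀ n, e j n ≤ y n) ∧ ∀ i (hi : i < j), ∀ᶠ n in atTop, g i hi n < y n := by
    intro j g
    obtain ⟨b, hb⟩ := bounded_of_lt (range fun i : Iio j => g i.1 i.2)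
      (lt_of_le_of_lt mk_range_le (hseg j))
    refine ⟨fun n => (Finset.range (n + 1)).sup fun k => b k + e j k + 1, ?_, ?_, ?_⟩
    · intro n m hnm
      exact Finset.sup_mono (Finset.range_mono (by omega))
    · intro n
      have := Finset.le_sup (f := fun k => b k + e j k + 1) (Finset.self_mem_range_succ n)
      simp only at this ⊢
      omega
    · intro i hi
      filter_upwards [hb _ ⟨⟨i, hi⟩, rfl⟩] with n hn
      have := Finset.le_sup (f := fun k => b k + e j k + 1) (Finset.self_mem_range_succ n)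
      have hn' : g i hi n ≤ b n := hn
      omega
  choose nxt h1 h2 h3 using step
  let x : I → ℕ → ℕ := (wellFounded_lt (α := I)).fix nxt
  have hx : ∀ j, x j = nxt j (fun i _ => x i) := fun j => (wellFounded_lt (α := I)).fix_eq nxt j
  refine ⟨lo, wf, x, hI, hseg, fun α => by rw [hx]; exact h1 _ _, fun β α h => ?_, fun g => ?_⟩
  · have := h3 α (fun i _ => x i) β h
    rwa [← hx α] at this
  · by_contra hcon
    push Not at hcon
    apply hunb
    refine ⟨g, fun f => ?_⟩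
    filter_upwards [hcon f] with n hn
    have := h2 f (fun i _ => x i) n
    rw [← hx] at this
    exact this.trans hn

theorem exists_scale : ∃ (I : Type) (_ : LinearOrder I) (_ : WellFoundedLT I) (x : I → ℕ → ℕ),
    IsScale I x := by
  obtain ⟨F, hF, hunb⟩ := exists_unbounded
  exact ⟨F, exists_scale_aux F Subtype.val hF fun ⟨g, hg⟩ => hunb ⟨g, fun f hf => hg ⟨f, hf⟩⟩⟩

namespace IsScale

variable {I : Type} [LinearOrder I] {x : I → ℕ → ℕ} (h : IsScale I x)
include h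

theorem small (s : Set I) (hs : #s < boundingNumber) : ∃ γ, ∀ a ∈ s, a < γ := by
  obtain ⟨g, hg⟩ := bounded_of_lt (x '' s) (lt_of_le_of_lt mk_image_le hs)
  obtain ⟨α, hα⟩ := h.unb g
  refine ⟨α, fun a ha => ?_⟩
  by_contra hle
  have h1 := hg _ ⟨a, ha, rfl⟩
  have h2 : ∀ᶠ n in atTop, x α n ≤ x a n := by
    rcases (not_lt.1 hle).eq_or_lt with e | e
    · exact Eventually.of_forall fun n => by rw [e]
    · exact (h.lt _ _ e).mono fun n hn => hn.le
  obtain ⟨n, hn1, hn2, hn3⟩ := (hα.and_eventually (h1.and h2)).exists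
  omega

theorem bdd_countable {ι : Type} [Countable ι] (f : ι → I) : ∃ γ, ∀ i, f i < γ := by
  obtain ⟨γ, hγ⟩ := h.small (range f)
    (lt_of_le_of_lt (le_aleph0_iff_set_countable.2 (countable_range f)) aleph0_lt_b)
  exact ⟨γ, fun i => hγ _ ⟨i, rfl⟩⟩

theorem bdd_seg (γ : I) (f : I → I) : ∃ δ, ∀ z ≤ γ, f z < δ := by
  obtain ⟨δ, hδ⟩ := h.small (f '' Iio γ) (lt_of_le_of_lt mk_image_le (h.seg γ))
  obtain ⟨δ', hδ'⟩ := h.bdd_countable (fun _ : Unit => f γ)
  refine ⟨max δ δ', fun z hz => ?_⟩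
  rcases hz.eq_or_lt with rfl | hz
  · exact lt_max_of_lt_right (hδ' ())
  · exact lt_max_of_lt_left (hδ _ ⟨z, hz, rfl⟩)

theorem nonempty : Nonempty I := by
  obtain ⟨α, -⟩ := h.unb fun _ => 0
  exact ⟨α⟩

theorem injective : Injective x := by
  intro a b e
  by_contra hne
  rcases lt_or_gt_of_ne hne with hl | hl
  · obtain ⟨n, hn⟩ := (h.lt _ _ hl).exists
    rw [e] at hn
    exact lt_irrefl _ hn
  · obtain ⟨n, hn⟩ := (h.lt _ _ hl).exists
    rw [e] at hn
    exact lt_irrefl _ hn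

theorem exists_inj : ∃ r : I → ℕ → Bool, Injective r := by
  have : #I ≤ #(ℕ → Bool) := by
    rw [h.card]
    simpa using b_le_continuum
  obtain ⟨e⟩ := this
  exact ⟨e, e.injective⟩

end IsScale

end Pool.Agent.P.MP_181197_gt
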