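import Mathlib
import Pool.Agent.P.MP_181197_gt.Scale

open Cardinal Set Function Filter

namespace Pool.Agent.P.MP_181197_gt

/-- A family of tuples is big if it has members lying above any given bound. -/
def Big {I κ : Type} [LinearOrder I] (𝓕 : Set (κ → I)) : Prop := ∀ γ, ∃ a ∈ 𝓕, ∀ l, γ < a l

/-- Places where `u` overtakes `v`. -/
def Ov (u v : ℕ → ℕ) : Set ℕ := {l | u l ≤ v l ∧ v (l + 1) < u (l + 1)}

theorem count_step (u v u' v' : ℕ → ℕ) (n P n' : ℕ) (hn : 1 ≤ n) (hP : n < P) (hn' : P < n')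
    (hu : ∀ l < n, u' l = u l) (hv : ∀ l < n, v' l = v l) (h0 : u (n - 1) ≤ v (n - 1))
    (h1 : ∀ l, n ≤ l → l < P → v' l < u' l) (h2 : ∀ l, P ≤ l → l < n' → u' l ≤ v' l) :
    (Ov u' v' ∩ Iio (n' - 1)).ncard = (Ov u v ∩ Iio (n - 1)).ncard + 1 := by
  have : Ov u' v' ∩ Iio (n' - 1) = insert (n - 1) (Ov u v ∩ Iio (n - 1)) := by
    ext l
    simp only [Ov, mem_inter_iff, mem_ofPred_eq, mem_Iio, mem_insert_iff]
    constructor
    · rintro ⟨⟨a1, a2⟩, a3⟩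
      by_cases hl : l < n - 1
      · right
        rw [hu l (by omega), hv l (by omega)] at a1
        rw [hu (l + 1) (by omega), hv (l + 1) (by omega)] at a2
        exact ⟨⟨a1, a2⟩, hl⟩
      · left
        by_contra hne
        by_cases hlP : l < P
        · have := h1 l (by omega) hlP
          omega
        · have := h2 (l + 1) (by omega) (by omega)
          omega
    · rintro (rfl | ⟨⟨a1, a2⟩, a3⟩)
      · refine ⟨⟨?_, ?_⟩, by omega⟩
        · rw [hu _ (by omega), hv _ (by omega)]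
          exact h0
        · exact h1 _ (by omega) (by omega)
      · refine ⟨⟨?_, ?_⟩, by omega⟩
        · rw [hu l (by omega), hv l (by omega)]
          exact a1
        · rw [hu (l + 1) (by omega), hv (l + 1) (by omega)]
          exact a2
  rw [this, ncard_insert_of_notMem (by simp) ((finite_Iio _).subset inter_subset_right)]

theorem count_final (u v u' v' : ℕ → ℕ) (n : ℕ) (hn : 1 ≤ n)
    (hu : ∀ l < n, u' l = u l) (hv : ∀ l < n, v' l = v l) (h0 : u (n - 1) ≤ v (n - 1))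
    (h1 : ∀ l, n ≤ l → v' l < u' l) :
    (Ov u' v').ncard = (Ov u v ∩ Iio (n - 1)).ncard + 1 := by
  have : Ov u' v' = insert (n - 1) (Ov u v ∩ Iio (n - 1)) := by
    ext l
    simp only [Ov, mem_inter_iff, mem_ofPred_eq, mem_Iio, mem_insert_iff]
    constructor
    · rintro ⟨a1, a2⟩
      by_cases hl : l < n - 1
      · right
        rw [hu l (by omega), hv l (by omega)] at a1
        rw [hu (l + 1) (by omega), hv (l + 1) (by omega)] at a2
        exact ⟨⟨a1, a2⟩, hl⟩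
      · left
        by_contra hne
        have := h1 l (by omega)
        omega
    · rintro (rfl | ⟨⟨a1, a2⟩, a3⟩)
      · refine ⟨?_, ?_⟩
        · rw [hu _ (by omega), hv _ (by omega)]
          exact h0
        · exact h1 _ (by omega)
      · refine ⟨?_, ?_⟩
        · rw [hu l (by omega), hv l (by omega)]
          exact a1
        · rw [hu (l + 1) (by omega), hv (l + 1) (by omega)]
          exact a2
  rw [this, ncard_insert_of_notMem (by simp) ((finite_Iio _).subset inter_subset_right)]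

theorem exists_bound {κ : Type} [Finite κ] (p : κ → ℕ) (s : κ → ℕ → ℕ) :
    ∃ N, ∀ i, ∀ l < p i, s i l ≤ N := by
  have : Fintype κ := Fintype.ofFinite κ
  refine ⟨Finset.univ.sup fun i => (Finset.range (p i)).sup (s i), fun i l hl => ?_⟩
  exact (Finset.le_sup (f := s i) (Finset.mem_range.2 hl)).trans
    (Finset.le_sup (f := fun i => (Finset.range (p i)).sup (s i)) (Finset.mem_univ i))

theorem exists_gt_all {κ : Type} [Finite κ] (p : κ → ℕ) : ∃ N, ∀ i, p i < N := by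
  obtain ⟨N, hN⟩ := (finite_range p).bddAbove
  exact ⟨N + 1, fun i => Nat.lt_succ_of_le (hN ⟨i, rfl⟩)⟩

/-- Agreement below `L`. -/
def Ag {I κ : Type} (x : I → ℕ → ℕ) (L : ℕ) (a b : κ → I) : Prop :=
  ∀ i, ∀ n < L, x (b i) n = x (a i) n

/-- `(n, t)` is a limit node of the family. -/
def Lim {I κ : Type} (x : I → ℕ → ℕ) (𝓒 : Set (κ → I)) (n : κ → ℕ) (t : κ → ℕ → ℕ) : Prop :=
  ∀ N, ∃ a ∈ 𝓒, ∀ j, (∀ l < n j, x (a j) l = t j l) ∧ N < x (a j) (n j)

namespace IsScale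

variable {I : Type} [LinearOrder I] {x : I → ℕ → ℕ} (h : IsScale I x) {κ : Type}
include h

theorem pigeon {ι : Type} [Countable ι] {𝓕 : Set (κ → I)} (hF : Big 𝓕)
    (p : (κ → I) → ι → Prop) (hp : ∀ a ∈ 𝓕, ∃ i, p a i) : ∃ i, Big {a ∈ 𝓕 | p a i} := by
  by_contra hcon
  simp only [Big, not_exists, not_forall] at hcon
  choose γ hγ using hcon
  obtain ⟨δ, hδ⟩ := h.bdd_countable γ
  obtain ⟨a, ha, ha'⟩ := hF δ
  obtain ⟨i, hi⟩ := hp a ha
  exact hγ i a ⟨⟨ha, hi⟩, fun l => (hδ i).trans (ha' l)⟩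

theorem cond [Finite κ] {𝓕 : Set (κ → I)} (hF : Big 𝓕) :
    ∃ 𝓒 ⊆ 𝓕, Big 𝓒 ∧ ∀ a ∈ 𝓒, ∀ L, Big {b ∈ 𝓒 | Ag x L a b} := by
  classical
  have hne := h.nonempty
  let 𝓒 : Set (κ → I) := {a ∈ 𝓕 | ∀ L, Big {b ∈ 𝓕 | Ag x L a b}}
  have key : ∃ γ0, ∀ a ∈ 𝓕, (∀ l, γ0 < a l) → a ∈ 𝓒 := by
    have h1 : ∀ s : Σ L : ℕ, κ → Fin L → ℕ, ∃ γ,
        ¬ Big {b ∈ 𝓕 | ∀ i (n : Fin s.1), x (b i) n = s.2 i n} →
          ∀ b ∈ 𝓕, (∀ i (n : Fin s.1), x (b i) n = s.2 i n) → ¬ ∀ l, γ < b l := by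
      intro s
      by_cases hb : Big {b ∈ 𝓕 | ∀ i (n : Fin s.1), x (b i) n = s.2 i n}
      · exact ⟨Classical.arbitrary I, fun h' => absurd hb h'⟩
      · have hb' := hb
        simp only [Big, not_forall, not_exists] at hb'
        obtain ⟨γ, hγ⟩ := hb'
        exact ⟨γ, fun _ b hb1 hb2 hb3 => hγ b ⟨⟨hb1, hb2⟩, hb3⟩⟩
    choose γ hγ using h1
    obtain ⟨γ0, hγ0⟩ := h.bdd_countable γ
    refine ⟨γ0, fun a ha ha' => ⟨ha, fun L => ?_⟩⟩
    by_contra hnb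
    refine hγ ⟨L, fun i n => x (a i) n⟩ ?_ a ha (fun _ _ => rfl)
      fun l => (hγ0 _).trans (ha' l)
    intro hb
    apply hnb
    intro δ
    obtain ⟨b, ⟨hb1, hb2⟩, hb3⟩ := hb δ
    exact ⟨b, ⟨hb1, fun i n hn => hb2 i ⟨n, hn⟩⟩, hb3⟩
  obtain ⟨γ0, hγ0⟩ := key
  refine ⟨𝓒, fun a ha => ha.1, fun γ => ?_, fun a ha L γ => ?_⟩
  · obtain ⟨a, ha, ha'⟩ := hF (max γ γ0)
    exact ⟨a, hγ0 a ha fun l => (le_max_right _ _).trans_lt (ha' l),
      fun l => (le_max_left _ _).trans_lt (ha' l)⟩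
  · obtain ⟨b, hb, hb'⟩ := ha.2 L (max γ γ0)
    exact ⟨b, ⟨hγ0 b hb.1 fun l => (le_max_right _ _).trans_lt (hb' l), hb.2⟩,
      fun l => (le_max_left _ _).trans_lt (hb' l)⟩

theorem limit_node [Finite κ] {𝓖 : Set (κ → I)} (hG : Big 𝓖) : ∃ n t, Lim x 𝓖 n t := by
  classical
  have h1 : ∃ m, ∀ N, ∃ a ∈ 𝓖, ∀ j, N < x (a j) m := by
    by_contra hcon
    push Not at hcon
    choose g hg using hcon
    obtain ⟨α, hα⟩ := h.unb g
    obtain ⟨a, ha, ha'⟩ := hG α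
    have hev : ∀ᶠ n in atTop, ∀ j, x α n < x (a j) n :=
      eventually_all.2 fun j => h.lt _ _ (ha' j)
    obtain ⟨n, hn1, hn2⟩ := (hα.and_eventually hev).exists
    obtain ⟨j, hj⟩ := hg n a ha
    have := hn2 j
    omega
  obtain ⟨m, hm⟩ := h1
  choose a ha ha' using hm
  let u : Ultrafilter ℕ := hyperfilter ℕ
  have hu : (u : Filter ℕ) ≤ atTop := Nat.hyperfilter_le_atTop
  have hex : ∀ j, ∃ l, ¬ ∃ v, ∀ᶠ N in (u : Filter ℕ), x (a N j) l = v := by
    intro j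
    refine ⟨m, ?_⟩
    rintro ⟨v, hv⟩
    obtain ⟨N, hN1, hN2⟩ := (hv.and (hu (eventually_ge_atTop v))).exists
    have := ha' N j
    have hN2' : v ≤ N := hN2
    omega
  let n : κ → ℕ := fun j => Nat.find (hex j)
  have h2 : ∀ j l, ∃ v, l < n j → ∀ᶠ N in (u : Filter ℕ), x (a N j) l = v := by
    intro j l
    by_cases hl : l < n j
    · have := Nat.find_min (hex j) hl
      obtain ⟨v, hv⟩ := not_not.1 this
      exact ⟨v, fun _ => hv⟩
    · exact ⟨0, fun h' => absurd h' hl⟩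
  choose t ht using h2
  refine ⟨n, t, fun M => ?_⟩
  have h3 : ∀ j, ∀ᶠ N in (u : Filter ℕ), M < x (a N j) (n j) := by
    intro j
    have hs := Nat.find_spec (hex j)
    have : ∀ᶠ N in (u : Filter ℕ), ∀ v ∈ Iic M, x (a N j) (n j) ≠ v := by
      rw [(finite_Iic M).eventually_all]
      intro v _
      exact Ultrafilter.eventually_not.2 fun hv => hs ⟨v, hv⟩
    filter_upwards [this] with N hN
    by_contra hle
    exact hN _ (not_lt.1 hle) rfl
  have h4 : ∀ j, ∀ᶠ N in (u : Filter ℕ), ∀ l ∈ Iio (n j), x (a N j) l = t j l := by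
    intro j
    rw [(finite_Iio (n j)).eventually_all]
    exact fun l hl => ht j l hl
  obtain ⟨N, hN⟩ := (eventually_all.2 fun j => (h4 j).and (h3 j)).exists
  exact ⟨a N, ha N, fun j => ⟨(hN j).1, (hN j).2⟩⟩

theorem extend [Finite κ] {𝓒 : Set (κ → I)} (hC : ∀ a ∈ 𝓒, ∀ L, Big {b ∈ 𝓒 | Ag x L a b})
    {a : κ → I} (ha : a ∈ 𝓒) (L : ℕ) :
    ∃ n t, Lim x 𝓒 n t ∧ ∀ j, L ≤ n j ∧ ∀ l < L, t j l = x (a j) l := by
  obtain ⟨n, t, hl⟩ := h.limit_node (hC a ha L)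
  refine ⟨n, t, fun N => ?_, fun j => ?_⟩
  · obtain ⟨b, hb, hb'⟩ := hl N
    exact ⟨b, hb.1, hb'⟩
  · obtain ⟨b, hb, hb'⟩ := hl (x (a j) (n j))
    have hL : L ≤ n j := by
      by_contra hlt
      have := hb.2 j (n j) (not_le.1 hlt)
      have := (hb' j).2
      omega
    exact ⟨hL, fun l hl' => by rw [← (hb' j).1 l (by omega), hb.2 j l hl']⟩

theorem osc_main [Finite κ] {𝓕 : Set (κ → I)} (hF : Big 𝓕) :
    ∃ H : κ → κ → ℕ, ∀ N, ∃ d ∈ 𝓕, ∃ a ∈ 𝓕, (∀ i j, d i < a j) ∧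
      ∀ i j, (Ov (x (a j)) (x (d i))).ncard = H i j + N := by
  classical
  obtain ⟨a0, ha0, -⟩ := hF (Classical.choice h.nonempty)
  -- a countable dense subfamily
  have h1 : ∀ s : Σ L : ℕ, κ → Fin L → ℕ, ∃ d ∈ 𝓕,
      (∃ b ∈ 𝓕, ∀ i (n : Fin s.1), x (b i) n = s.2 i n) →
        ∀ i (n : Fin s.1), x (d i) n = s.2 i n := by
    intro s
    by_cases hb : ∃ b ∈ 𝓕, ∀ i (n : Fin s.1), x (b i) n = s.2 i n
    · obtain ⟨b, hb1, hb2⟩ := hb
      exact ⟨b, hb1, fun _ => hb2⟩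
    · exact ⟨a0, ha0, fun h' => absurd h' hb⟩
  choose D hD hD' using h1
  obtain ⟨γ0, hγ0⟩ := h.bdd_countable (fun p : (Σ L : ℕ, κ → Fin L → ℕ) × κ => D p.1 p.2)
  have hF0 : Big {a ∈ 𝓕 | ∀ j, γ0 < a j} := by
    intro γ
    obtain ⟨a, ha, ha'⟩ := hF (max γ γ0)
    exact ⟨a, ⟨ha, fun l => (le_max_right _ _).trans_lt (ha' l)⟩,
      fun l => (le_max_left _ _).trans_lt (ha' l)⟩
  obtain ⟨m0, hF1⟩ := h.pigeon hF0 (fun a (m : ℕ) => ∀ n ≥ m, ∀ j, x γ0 n < x (a j) n)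
    (fun a ha => eventually_atTop.1 (eventually_all.2 fun j => h.lt _ _ (ha.2 j)))
  obtain ⟨𝓒, hCsub, hCbig, hC⟩ := h.cond hF1
  obtain ⟨a1, ha1, -⟩ := hCbig γ0
  -- the invariant
  let St : (κ → κ → ℕ) → Prop := fun C => ∃ n t b, Lim x 𝓒 n t ∧ b ∈ 𝓒 ∧ ∀ i j, 1 ≤ n j ∧
    t j (n j - 1) ≤ x (b i) (n j - 1) ∧ (Ov (t j) (x (b i)) ∩ Iio (n j - 1)).ncard = C i j
  have init : ∃ C, St C := by
    obtain ⟨p, s, hps, -⟩ := h.extend hC ha1 0
    obtain ⟨L, hL⟩ := exists_gt_all p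
    obtain ⟨n, t, hnt, hnt'⟩ := h.extend hC ha1 L
    obtain ⟨N, hN⟩ := exists_bound n t
    obtain ⟨b, hb, hb'⟩ := hps N
    refine ⟨fun i j => (Ov (t j) (x (b i)) ∩ Iio (n j - 1)).ncard, n, t, b, hnt, hb,
      fun i j => ⟨?_, ?_, rfl⟩⟩
    · have := hL i
      have := (hnt' j).1
      omega
    · have e1 := hL i
      have e2 := (hnt' j).1
      have e3 := hN j (n j - 1) (by omega)
      have e4 := (hb' i).2
      have e5 := h.mono (b i) (show p i ≤ n j - 1 by omega)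
      omega
  have step : ∀ C, St C → St (fun i j => C i j + 1) := by
    rintro C ⟨n, t, b, hnt, hb, hinv⟩
    obtain ⟨L, hL⟩ := exists_gt_all n
    obtain ⟨p, s, hps, hps'⟩ := h.extend hC hb L
    obtain ⟨N, hN⟩ := exists_bound p s
    obtain ⟨a, ha, ha'⟩ := hnt N
    obtain ⟨L', hL'⟩ := exists_gt_all p
    obtain ⟨n', t', hnt1, hnt2⟩ := h.extend hC ha L'
    obtain ⟨N', hN'⟩ := exists_bound n' t'
    obtain ⟨b', hb1, hb2⟩ := hps N'
    refine ⟨n', t', b', hnt1, hb1, fun i j => ?_⟩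
    have e1 := hL j
    have e2 := (hps' i).1
    have e3 := hL' i
    have e4 := (hnt2 j).1
    obtain ⟨i1, i2, i3⟩ := hinv i j
    have low : ∀ l, p i ≤ l → l < n' j → t' j l ≤ x (b' i) l := by
      intro l hl1 hl2
      have f1 := hN' j l hl2
      have f2 := (hb2 i).2
      have f3 := h.mono (b' i) hl1
      omega
    refine ⟨by omega, low _ (by omega) (by omega), ?_⟩
    show _ = C i j + 1
    rw [← i3]
    refine count_step _ _ _ _ (n j) (p i) (n' j) i1 (by omega) (by omega) ?_ ?_ i2 ?_ low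
    · intro l hl
      rw [(hnt2 j).2 l (by omega), (ha' j).1 l hl]
    · intro l hl
      rw [(hb2 i).1 l (by omega), (hps' i).2 l (by omega)]
    · intro l hl1 hl2
      rw [(hb2 i).1 l hl2, (hnt2 j).2 l (by omega)]
      have f1 := hN i l hl2
      have f2 := (ha' j).2
      have f3 := h.mono (a j) hl1
      omega
  have final : ∀ C, St C → ∃ d ∈ 𝓕, ∃ a ∈ 𝓕, (∀ i j, d i < a j) ∧
      ∀ i j, (Ov (x (a j)) (x (d i))).ncard = C i j + 1 := by
    rintro C ⟨n, t, b, hnt, hb, hinv⟩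
    obtain ⟨L, hL⟩ := exists_gt_all n
    let s : Σ L : ℕ, κ → Fin L → ℕ := ⟨L, fun i n => x (b i) n⟩
    have hd : ∀ i, ∀ l < L, x (D s i) l = x (b i) l := fun i l hl =>
      hD' s ⟨b, (hCsub hb).1.1, fun _ _ => rfl⟩ i ⟨l, hl⟩
    obtain ⟨m1, hm1⟩ := eventually_atTop.1
      (eventually_all.2 fun i => h.lt (D s i) γ0 (hγ0 (s, i)))
    obtain ⟨N, hN⟩ := exists_bound (fun _ : κ => max m0 m1) (fun i => x (D s i))
    obtain ⟨a, ha, ha'⟩ := hnt N
    refine ⟨D s, hD s, a, (hCsub ha).1.1,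
      fun i j => (hγ0 (s, i)).trans ((hCsub ha).1.2 j), fun i j => ?_⟩
    obtain ⟨i1, i2, i3⟩ := hinv i j
    rw [← i3]
    refine count_final _ _ _ _ (n j) i1 (ha' j).1 (fun l hl => hd i l (hl.trans (hL j))) i2 ?_
    intro l hl
    by_cases hlm : l < max m0 m1
    · have f1 := hN i l hlm
      have f2 := (ha' j).2
      have f3 := h.mono (a j) hl
      omega
    · exact (hm1 l (by omega) i).trans ((hCsub ha).2 l (by omega) j)
  obtain ⟨C0, hC0⟩ := init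
  have all : ∀ N, St (fun i j => C0 i j + N) := by
    intro N
    induction N with
    | zero => exact hC0
    | succ N ih => exact step _ ih
  refine ⟨fun i j => C0 i j + 1, fun N => ?_⟩
  obtain ⟨d, hd, a, ha, h1, h2⟩ := final _ (all N)
  exact ⟨d, hd, a, ha, h1, fun i j => by rw [h2 i j]; simp only; omega⟩

/-- Todorcevic's oscillation colouring: every finite pattern is realised on every big family of
injective tuples. -/
theorem exists_coloring : ∃ c : I → I → ℕ, ∀ (κ : Type) [Finite κ] (𝓕 : Set (κ → I)),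
    Big 𝓕 → (∀ a ∈ 𝓕, Injective a) → ∀ pat : κ → κ → ℕ,
      ∃ d ∈ 𝓕, ∃ a ∈ 𝓕, (∀ i j, d i < a j) ∧ ∀ i j, c (d i) (a j) = pat i j := by
  classical
  let Code := Σ L : ℕ, ((Fin L → ℕ) × (Fin L → ℕ)) →₀ ℕ
  have : Countable Code := inferInstance
  have : Nonempty Code := ⟨⟨0, 0⟩⟩
  obtain ⟨e, he⟩ := exists_surjective_nat Code
  let ev : Code → I → I → ℕ := fun k β α => k.2 (fun n => x β n, fun n => x α n)
  refine ⟨fun β α => ev (e (Nat.unpair (Nat.log 2 (Ov (x α) (x β)).ncard)).1) β α, ?_⟩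
  intro κ _ 𝓕 hF hinj pat
  obtain ⟨⟨L, s⟩, hF1⟩ := h.pigeon hF
    (fun a (s : Σ L : ℕ, κ → Fin L → ℕ) => Injective s.2 ∧ ∀ i (n : Fin s.1), x (a i) n = s.2 i n)
    (by
      intro a ha
      have : ∀ᶠ L in atTop, ∀ i j, (∀ n < L, x (a i) n = x (a j) n) → i = j := by
        refine eventually_all.2 fun i => eventually_all.2 fun j => ?_
        by_cases hij : i = j
        · exact Eventually.of_forall fun _ _ => hij
        · have : x (a i) ≠ x (a j) := fun e => hij (hinj a ha (h.injective e))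
          obtain ⟨n, hn⟩ := ne_iff.1 this
          filter_upwards [eventually_gt_atTop n] with L hL h'
          exact absurd (h' n hL) hn
      obtain ⟨L, hL⟩ := this.exists
      exact ⟨⟨L, fun i n => x (a i) n⟩,
        fun i j e => hL i j fun n hn => congrFun e ⟨n, hn⟩, fun _ _ => rfl⟩)
  obtain ⟨a0, ha0, -⟩ := hF1 (Classical.choice h.nonempty)
  have hs : Injective s := ha0.2.1
  have hs2 : Injective (fun p : κ × κ => (s p.1, s p.2)) := fun p q e =>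
    Prod.ext (hs (congrArg Prod.fst e)) (hs (congrArg Prod.snd e))
  let φ : ((Fin L → ℕ) × (Fin L → ℕ)) →₀ ℕ :=
    Finsupp.mapDomain (fun p : κ × κ => (s p.1, s p.2))
      (Finsupp.equivFunOnFinite.symm fun p : κ × κ => pat p.1 p.2)
  have hφ : ∀ i j, φ (s i, s j) = pat i j := fun i j => by
    have := Finsupp.mapDomain_apply hs2
      (Finsupp.equivFunOnFinite.symm fun p : κ × κ => pat p.1 p.2) (i, j)
    simpa using this
  obtain ⟨k, hk⟩ := he ⟨L, φ⟩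
  obtain ⟨H, hH⟩ := h.osc_main hF1
  obtain ⟨M, hM⟩ := exists_gt_all (fun p : κ × κ => H p.1 p.2)
  obtain ⟨d, hd, a, ha, h1, h2⟩ := hH (2 ^ Nat.pair k M)
  refine ⟨d, hd.1, a, ha.1, h1, fun i j => ?_⟩
  have hlog : Nat.log 2 (H i j + 2 ^ Nat.pair k M) = Nat.pair k M := by
    have e1 : H i j < M := hM (i, j)
    have e2 : M ≤ Nat.pair k M := Nat.right_le_pair k M
    have e3 : Nat.pair k M < 2 ^ Nat.pair k M := Nat.lt_two_pow_self
    refine Nat.log_eq_of_pow_le_of_lt_pow (by omega) ?_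
    rw [pow_succ]
    omega
  simp only [h2 i j, hlog, Nat.unpair_pair, hk, ev]
  rw [← hφ i j]
  congr 2
  · exact funext (hd.2.2 i)
  · exact funext (ha.2.2 j)

end IsScale

end Pool.Agent.P.MP_181197_gt
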