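import Mathlib
import Pool.Agent.P.MP_181197_gt.Osc

open Cardinal Set Function Filter Topology

namespace Pool.Agent.P.MP_181197_gt

/-! ### Large (cofinal) sets -/

def Large {I : Type} [LinearOrder I] (S : Set I) : Prop := ∀ γ, ∃ ξ ∈ S, γ < ξ

theorem Large.mono {I : Type} [LinearOrder I] {S S' : Set I} (h : Large S) (hs : S ⊆ S') :
    Large S' := fun γ => let ⟨ξ, h1, h2⟩ := h γ; ⟨ξ, hs h1, h2⟩

namespace IsScale

variable {I : Type} [LinearOrder I] {x : I → ℕ → ℕ} (h : IsScale I x)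
include h

theorem large_univ : Large (univ : Set I) := fun γ =>
  let ⟨δ, hδ⟩ := h.bdd_countable (fun _ : Unit => γ); ⟨δ, mem_univ _, hδ ()⟩

theorem lpigeon {ι : Type} [Countable ι] {S : Set I} (hS : Large S)
    (p : I → ι → Prop) (hp : ∀ a ∈ S, ∃ i, p a i) : ∃ i, Large {a ∈ S | p a i} := by
  by_contra hcon
  simp only [Large, not_exists, not_forall] at hcon
  choose γ hγ using hcon
  obtain ⟨δ, hδ⟩ := h.bdd_countable γ
  obtain ⟨a, ha, ha'⟩ := hS δ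
  obtain ⟨i, hi⟩ := hp a ha
  exact hγ i a ⟨⟨ha, hi⟩, (hδ i).trans ha'⟩

theorem lcond {Y : Type} [TopologicalSpace Y] [SecondCountableTopology Y] (ψ : I → Y)
    {S : Set I} (hS : Large S) : ∃ ξ0 ∈ S, ∀ O ∈ 𝓝 (ψ ξ0), Large {ξ ∈ S | ψ ξ ∈ O} := by
  by_contra hcon
  push Not at hcon
  obtain ⟨b, hbc, -, hb⟩ := TopologicalSpace.exists_countable_basis Y
  have : Countable b := hbc.to_subtype
  obtain ⟨u, hu⟩ := h.lpigeon hS (fun ξ (u : b) => ψ ξ ∈ u.1 ∧ ¬ Large {ξ ∈ S | ψ ξ ∈ u.1}) (by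
    intro ξ hξ
    obtain ⟨O, hO, hO'⟩ := hcon ξ hξ
    obtain ⟨u, hub, hu1, hu2⟩ := hb.mem_nhds_iff.1 hO
    exact ⟨⟨u, hub⟩, hu1, fun hl => hO' (hl.mono fun ξ hξ => ⟨hξ.1, hu2 hξ.2⟩)⟩)
  obtain ⟨ξ, hξ, -⟩ := hu (Classical.choice h.nonempty)
  exact hξ.2.2 (hu.mono fun ξ hξ => ⟨hξ.1, hξ.2.1⟩)

theorem lsplit {κ Z : Type} [Finite κ] (a : I → κ → Z) {S : Set I} (hS : Large S) :
    ∃ S' ⊆ S, Large S' ∧ ∃ (J : Set κ) (ρ : κ → Z), (∀ ξ ∈ S', ∀ l ∉ J, a ξ l = ρ l) ∧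
      ∀ l ∈ J, ∀ z, ∃ γ, ∀ ξ ∈ S', γ < ξ → a ξ l ≠ z := by
  classical
  obtain ⟨ξ0, -, -⟩ := hS (Classical.choice h.nonempty)
  let Good : Set κ → Prop := fun K => ∃ S' ⊆ S, Large S' ∧ ∃ ρ : κ → Z,
    ∀ ξ ∈ S', ∀ l ∈ K, a ξ l = ρ l
  have hne : {K | Good K}.Nonempty := ⟨∅, S, Subset.rfl, hS, a ξ0, by simp⟩
  obtain ⟨K, hK⟩ := (toFinite {K | Good K}).exists_maximal hne
  obtain ⟨S', hS'1, hS'2, ρ, hρ⟩ := hK.prop
  refine ⟨S', hS'1, hS'2, Kᶜ, ρ, fun ξ hξ l hl => hρ ξ hξ l (by simpa using hl), fun l hl z => ?_⟩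
  by_contra hcon
  push Not at hcon
  have hg : Good (insert l K) := by
    refine ⟨{ξ ∈ S' | a ξ l = z}, fun ξ hξ => hS'1 hξ.1, fun γ => ?_, update ρ l z, ?_⟩
    · obtain ⟨ξ, h1, h2, h3⟩ := hcon γ
      exact ⟨ξ, ⟨h1, h3⟩, h2⟩
    · rintro ξ hξ l' (rfl | hl')
      · simpa using hξ.2
      · have : l' ≠ l := fun e => hl (e ▸ hl')
        rw [update_of_ne this]
        exact hρ ξ hξ.1 l' hl'
  exact hl (hK.le_of_ge hg (subset_insert l K) (mem_insert l K))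

end IsScale

/-! ### Basic neighbourhoods in products -/

theorem nhds_pi_basic {Z M : Type} [PseudoMetricSpace M] (f : Z → M) {U : Set (Z → M)}
    (hU : U ∈ 𝓝 f) : ∃ (F : Finset Z) (ε : ℝ), 0 < ε ∧
      ∀ f' : Z → M, (∀ z ∈ F, dist (f' z) (f z) < ε) → f' ∈ U := by
  classical
  rw [nhds_pi, Filter.pi] at hU
  refine Filter.iInf_sets_induct hU (p := fun U => ∃ (F : Finset Z) (ε : ℝ), 0 < ε ∧
      ∀ f' : Z → M, (∀ z ∈ F, dist (f' z) (f z) < ε) → f' ∈ U)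
    ⟨∅, 1, one_pos, fun _ _ => mem_univ _⟩ ?_
  rintro z s₁ s₂ ⟨W, hW, hWs⟩ ⟨F, ε, hε, hF⟩
  obtain ⟨δ, hδ, hb⟩ := Metric.mem_nhds_iff.1 hW
  refine ⟨insert z F, min ε δ, lt_min hε hδ, fun f' hf' => ⟨hWs (hb ?_), hF f' fun z' hz' => ?_⟩⟩
  · exact (hf' z (Finset.mem_insert_self _ _)).trans_le (min_le_right _ _)
  · exact (hf' z' (Finset.mem_insert_of_mem hz')).trans_le (min_le_left _ _)

theorem uniformity_pi_basic {Z M : Type} [PseudoMetricSpace M] {V : Set ((Z → M) × (Z → M))}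
    (hV : V ∈ uniformity (Z → M)) : ∃ (F : Finset Z) (ε : ℝ), 0 < ε ∧
      ∀ f f' : Z → M, (∀ z ∈ F, dist (f' z) (f z) < ε) → (f, f') ∈ V := by
  classical
  rw [Pi.uniformity] at hV
  refine Filter.iInf_sets_induct hV (p := fun V => ∃ (F : Finset Z) (ε : ℝ), 0 < ε ∧
      ∀ f f' : Z → M, (∀ z ∈ F, dist (f' z) (f z) < ε) → (f, f') ∈ V)
    ⟨∅, 1, one_pos, fun _ _ _ => mem_univ _⟩ ?_
  rintro z s₁ s₂ ⟨W, hW, hWs⟩ ⟨F, ε, hε, hF⟩
  obtain ⟨δ, hδ, hb⟩ := Metric.mem_uniformity_dist.1 hW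
  refine ⟨insert z F, min ε δ, lt_min hε hδ, fun f f' hf' =>
    ⟨hWs (hb ?_), hF f f' fun z' hz' => ?_⟩⟩
  · rw [dist_comm]
    exact (hf' z (Finset.mem_insert_self _ _)).trans_le (min_le_right _ _)
  · exact (hf' z' (Finset.mem_insert_of_mem hz')).trans_le (min_le_left _ _)

theorem modulus {Z M : Type} [PseudoMetricSpace M] {A : Set (Z → M)} {K : Set A}
    (hK : IsCompact K) {f : A → ℝ} (hf : Continuous f) {η : ℝ} (hη : 0 < η) :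
    ∃ (F : Finset Z) (δ : ℝ), 0 < δ ∧
      ∀ z ∈ K, ∀ y : A, (∀ γ ∈ F, dist (y.1 γ) (z.1 γ) < δ) → dist (f y) (f z) < η := by
  have h1 := hK.uniformContinuousAt_of_continuousAt f (fun a _ => hf.continuousAt)
    (Metric.dist_mem_uniformity hη)
  rw [uniformity_subtype] at h1
  obtain ⟨V, hV, hVs⟩ := h1
  obtain ⟨F, δ, hδ, hF⟩ := uniformity_pi_basic hV
  refine ⟨F, δ, hδ, fun z hz y hy => ?_⟩
  have : (z, y) ∈ (fun q : A × A => (q.1.1, q.2.1)) ⁻¹' V := hF _ _ hy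
  rw [dist_comm]
  exact hVs this hz

theorem nhds_cp_basic {X : Type} [TopologicalSpace X] (f : {f : X → ℝ // Continuous f})
    {U : Set {f : X → ℝ // Continuous f}} (hU : U ∈ 𝓝 f) : ∃ (F : Finset X) (ε : ℝ), 0 < ε ∧
      ∀ f' : {f : X → ℝ // Continuous f}, (∀ z ∈ F, dist (f'.1 z) (f.1 z) < ε) → f' ∈ U := by
  obtain ⟨W, hW, hWs⟩ := (mem_nhds_subtype _ _ _).1 hU
  obtain ⟨F, ε, hε, hF⟩ := nhds_pi_basic f.1 hW
  exact ⟨F, ε, hε, fun f' hf' => hWs (hF _ hf')⟩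

/-! ### The plane -/

def cr (p q : ℝ × ℝ) : ℝ := p.1 * q.2 - p.2 * q.1

/-- The origin lies strictly inside the positively oriented triangle `p q r`. -/
def Pos (p q r : ℝ × ℝ) : Prop := 0 < cr p q ∧ 0 < cr q r ∧ 0 < cr r p

abbrev T : Type := Icc (-1 : ℝ × ℝ) 1

def va : T := ⟨(1, 0), by simp [Prod.le_def]⟩
def vb : T := ⟨(0, 1), by simp [Prod.le_def]⟩
def vc : T := ⟨(-1, -1), by simp [Prod.le_def]⟩

theorem pos_abc : Pos va.1 vb.1 vc.1 := by simp [Pos, cr, va, vb, vc]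

def Flat (g : C(T, ℝ × ℝ)) : Prop := ∀ t₁ t₂ t₃, ¬ Pos (g t₁) (g t₂) (g t₃)

def incl : C(T, ℝ × ℝ) := ⟨Subtype.val, continuous_subtype_val⟩

theorem flat_zero : Flat 0 := fun _ _ _ h => by simp [Pos, cr] at h

theorem Flat.comp {g : C(T, ℝ × ℝ)} (hg : Flat g) (G : C(T, T)) : Flat (g.comp G) :=
  fun _ _ _ => hg _ _ _

theorem isOpen_pos : IsOpen {p : (ℝ × ℝ) × (ℝ × ℝ) × (ℝ × ℝ) | Pos p.1 p.2.1 p.2.2} := by
  have c1 : Continuous fun p : (ℝ × ℝ) × (ℝ × ℝ) × (ℝ × ℝ) => cr p.1 p.2.1 := by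
    unfold cr; fun_prop
  have c2 : Continuous fun p : (ℝ × ℝ) × (ℝ × ℝ) × (ℝ × ℝ) => cr p.2.1 p.2.2 := by
    unfold cr; fun_prop
  have c3 : Continuous fun p : (ℝ × ℝ) × (ℝ × ℝ) × (ℝ × ℝ) => cr p.2.2 p.1 := by
    unfold cr; fun_prop
  exact (isOpen_lt continuous_const c1).inter
    ((isOpen_lt continuous_const c2).inter (isOpen_lt continuous_const c3))

theorem pos_of_smul {p q r : ℝ × ℝ} {a b c : ℝ} (ha : 0 ≤ a) (hb : 0 ≤ b) (hc : 0 ≤ c)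
    (h : Pos (a • p) (b • q) (c • r)) : Pos p q r := by
  obtain ⟨h1, h2, h3⟩ := h
  have e1 : cr (a • p) (b • q) = (a * b) * cr p q := by simp [cr]; ring
  have e2 : cr (b • q) (c • r) = (b * c) * cr q r := by simp [cr]; ring
  have e3 : cr (c • r) (a • p) = (c * a) * cr r p := by simp [cr]; ring
  rw [e1] at h1
  rw [e2] at h2
  rw [e3] at h3
  exact ⟨pos_of_mul_pos_right h1 (mul_nonneg ha hb), pos_of_mul_pos_right h2 (mul_nonneg hb hc),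
    pos_of_mul_pos_right h3 (mul_nonneg hc ha)⟩

theorem exists_dense_flat : ∃ g : ℕ → C(T, ℝ × ℝ), (∀ n, Flat (g n)) ∧
    ∀ u, Flat u → ∀ δ > 0, ∃ n, dist (g n) u < δ := by
  have : Nonempty {u : C(T, ℝ × ℝ) // Flat u} := ⟨⟨0, flat_zero⟩⟩
  refine ⟨fun n => (TopologicalSpace.denseSeq {u : C(T, ℝ × ℝ) // Flat u} n).1,
    fun n => (TopologicalSpace.denseSeq {u : C(T, ℝ × ℝ) // Flat u} n).2, fun u hu δ hδ => ?_⟩
  obtain ⟨n, hn⟩ := (TopologicalSpace.denseRange_denseSeq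
    {u : C(T, ℝ × ℝ) // Flat u}).exists_dist_lt ⟨u, hu⟩ hδ
  exact ⟨n, by rw [dist_comm]; exact hn⟩

theorem exists_flat_section (φ : C(T, ℝ)) (A : Set T) (hA : A.Finite) :
    ∃ G : C(T, T), Flat (incl.comp G) ∧ ∀ t ∈ A, φ (G t) = φ t := by
  obtain ⟨p, -, hp⟩ := isCompact_univ.exists_isMinOn ⟨va, mem_univ _⟩ φ.continuous.continuousOn
  obtain ⟨q, -, hq⟩ := isCompact_univ.exists_isMaxOn ⟨va, mem_univ _⟩ φ.continuous.continuousOn
  let seg : Icc (0 : ℝ) 1 → T := fun s => ⟨(1 - s.1) • p.1 + s.1 • q.1,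
    convex_Icc (𝕜 := ℝ) (-1 : ℝ × ℝ) 1 p.2 q.2 (sub_nonneg.2 s.2.2) s.2.1 (by ring)⟩
  have hseg : Continuous seg := by
    refine Continuous.subtype_mk ?_ _
    fun_prop
  have h0 : seg 0 = p := Subtype.ext (by simp [seg])
  have h1 : seg 1 = q := Subtype.ext (by simp [seg])
  have hsec : ∀ t, ∃ s, φ (seg s) = φ t := by
    intro t
    have := intermediate_value_univ (0 : Icc (0 : ℝ) 1) 1 (φ.continuous.comp hseg)
    refine this ⟨?_, ?_⟩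
    · simpa [h0] using hp (mem_univ t)
    · simpa [h1] using hq (mem_univ t)
  choose σ hσ using hsec
  have : Finite A := hA
  obtain ⟨ψ, hψ1, hψ2⟩ := ContinuousMap.exists_restrict_eq_forall_mem_of_closed
    (s := A) ⟨fun t => (σ t.1).1, continuous_of_discreteTopology⟩ (t := Icc (0 : ℝ) 1)
    (fun t => (σ t.1).2) ⟨0, by simp⟩ hA.isClosed
  refine ⟨⟨fun t => seg ⟨ψ t, hψ1 t⟩, hseg.comp (ψ.continuous.subtype_mk _)⟩, ?_, fun t ht => ?_⟩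
  · rintro t₁ t₂ t₃ ⟨a1, a2, a3⟩
    simp only [incl, seg, cr, ContinuousMap.comp_apply, ContinuousMap.coe_mk, Prod.fst_add,
      Prod.snd_add, Prod.smul_fst, Prod.smul_snd, smul_eq_mul] at a1 a2 a3
    nlinarith
  · have e : ψ t = (σ t).1 := by
      have := congrArg (fun g : C(A, ℝ) => g ⟨t, ht⟩) hψ2
      simpa using this
    have e' : (⟨ψ t, hψ1 t⟩ : Icc (0 : ℝ) 1) = σ t := Subtype.ext e
    simp only [ContinuousMap.coe_mk, e', hσ]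

end Pool.Agent.P.MP_181197_gt
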