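import Mathlib
import Pool.Agent.P.MP_181197_gt.Tools

open Cardinal Set Function Filter Topology

namespace Pool.Agent.P.MP_181197_gt

/-- All the data of the construction. -/
structure Setup where
  I : Type
  [lo : LinearOrder I]
  [wf : WellFoundedLT I]
  x : I → ℕ → ℕ
  sc : IsScale I x
  c : I → I → ℕ
  hc : ∀ (κ : Type) [Finite κ] (𝓕 : Set (κ → I)), Big 𝓕 → (∀ a ∈ 𝓕, Injective a) →
    ∀ pat : κ → κ → ℕ, ∃ d ∈ 𝓕, ∃ a ∈ 𝓕, (∀ i j, d i < a j) ∧ ∀ i j, c (d i) (a j) = pat i j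
  g : ℕ → C(T, ℝ × ℝ)
  gflat : ∀ n, Flat (g n)
  gdense : ∀ u, Flat u → ∀ δ > 0, ∃ n, dist (g n) u < δ
  r : I → ℕ → Bool
  hr : Injective r

attribute [instance] Setup.lo Setup.wf

theorem exists_setup : Nonempty Setup := by
  obtain ⟨I, lo, wf, x, sc⟩ := exists_scale
  obtain ⟨c, hc⟩ := sc.exists_coloring
  obtain ⟨g, h1, h2⟩ := exists_dense_flat
  obtain ⟨r, hr⟩ := sc.exists_inj
  exact ⟨⟨I, x, sc, c, hc, g, h1, h2, r, hr⟩⟩

abbrev Qidx : Type := Σ n : ℕ, ((Fin n → Bool) → ℚ × ℚ)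

namespace Setup

variable (S : Setup)

noncomputable def uu (β α : S.I) : C(T, ℝ × ℝ) :=
  if α < β then 0 else if α = β then incl else S.g (S.c β α)

noncomputable def ee (β : S.I) (t : T) : S.I → ℝ × ℝ := fun α => S.uu β α t

def qq (s : Qidx) : S.I → ℝ × ℝ := fun α =>
  (((s.2 fun i => S.r α i).1 : ℝ), ((s.2 fun i => S.r α i).2 : ℝ))

def XS : Set (S.I → ℝ × ℝ) := {z | (∃ β t, z = S.ee β t) ∨ ∃ s, z = S.qq s}

abbrev X : Type := S.XS

noncomputable def eX (β : S.I) (t : T) : S.X := ⟨S.ee β t, Or.inl ⟨β, t, rfl⟩⟩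

def qX (s : Qidx) : S.X := ⟨S.qq s, Or.inr ⟨s, rfl⟩⟩

theorem continuous_eX (β : S.I) : Continuous (S.eX β) :=
  (continuous_pi fun α => (S.uu β α).continuous).subtype_mk _

theorem uu_lt {β α : S.I} (h : α < β) : S.uu β α = 0 := by simp [uu, h]

theorem uu_self (β : S.I) : S.uu β β = incl := by simp [uu]

theorem uu_gt {β α : S.I} (h : β < α) : S.uu β α = S.g (S.c β α) := by
  simp [uu, h.not_gt, h.ne']

theorem flat_uu {β α : S.I} (h : α ≠ β) : Flat (S.uu β α) := by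
  rcases lt_or_gt_of_ne h with h | h
  · rw [S.uu_lt h]; exact flat_zero
  · rw [S.uu_gt h]; exact S.gflat _

theorem flat_uu_comp (β α : S.I) {G : C(T, T)} (hG : Flat (incl.comp G)) :
    Flat ((S.uu β α).comp G) := by
  by_cases h : α = β
  · rw [h, S.uu_self]; exact hG
  · exact (S.flat_uu h).comp G

/-- The point coded by an index and a position. -/
noncomputable def pt {k : ℕ} (E : Fin k → S.I) : Fin k ⊕ Qidx → T → S.X
  | Sum.inl l, t => S.eX (E l) t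
  | Sum.inr s, _ => S.qX s

theorem data (f : S.X → ℝ) (hf : Continuous f) (ξ : S.I) (F : Finset S.X) {ε : ℝ} (hε : 0 < ε) :
    ∃ (p : Σ km : ℕ × ℕ, (Fin km.2 → Fin km.1 ⊕ Qidx) × ℕ × ℕ),
      ∃ (E : Fin p.1.1 → S.I) (t : Fin p.1.2 → T), Injective E ∧ (∃ l, E l = ξ) ∧
        4 * (1 / ((p.2.2.1 : ℝ) + 1)) ≤ ε ∧ (∀ z ∈ F, ∃ i, z = S.pt E (p.2.1 i) (t i)) ∧
        ∀ i l, p.2.1 i = Sum.inl l → ∀ (t' : T) (y : S.X),
          (∀ l', dist (y.1 (E l')) (S.ee (E l) t' (E l')) < 1 / ((p.2.2.2 : ℝ) + 1)) →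
            dist (f y) (f (S.eX (E l) t')) < 1 / ((p.2.2.1 : ℝ) + 1) := by
  classical
  obtain ⟨nε, hnε⟩ := exists_nat_one_div_lt (show 0 < ε / 4 by positivity)
  have hrep : ∀ z : S.X, ∃ w : (S.I × T) ⊕ Qidx,
      z = Sum.elim (fun p : S.I × T => S.eX p.1 p.2) S.qX w := by
    rintro ⟨z, ⟨β, t, rfl⟩ | ⟨s, rfl⟩⟩
    · exact ⟨Sum.inl (β, t), rfl⟩
    · exact ⟨Sum.inr s, rfl⟩
  choose w hw using hrep
  let β : S.X → S.I := fun z => Sum.elim (fun p : S.I × T => p.1) (fun _ => ξ) (w z)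
  let B : Finset S.I := F.image β
  have hK : IsCompact (⋃ b ∈ B, range (S.eX b)) :=
    B.isCompact_biUnion fun b _ => isCompact_range (S.continuous_eX b)
  obtain ⟨E0, δ, hδ, hmod⟩ := modulus hK hf (η := 1 / ((nε : ℝ) + 1)) (by positivity)
  obtain ⟨nδ, hnδ⟩ := exists_nat_one_div_lt hδ
  let E1 : Finset S.I := insert ξ (E0 ∪ B)
  let E : Fin E1.card → S.I := fun l => (E1.equivFin.symm l).1
  have hEinj : Injective E := fun l l' e => E1.equivFin.symm.injective (Subtype.ext e)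
  have hEsurj : ∀ γ ∈ E1, ∃ l, E l = γ := fun γ hγ => ⟨E1.equivFin ⟨γ, hγ⟩, by simp [E]⟩
  let z : Fin F.card → S.X := fun i => (F.equivFin.symm i).1
  have hz : ∀ i, z i ∈ F := fun i => (F.equivFin.symm i).2
  have hβ : ∀ i, β (z i) ∈ B := fun i => Finset.mem_image_of_mem β (hz i)
  have hβ1 : ∀ i, ∃ l, E l = β (z i) := fun i =>
    hEsurj _ (Finset.mem_insert_of_mem (Finset.mem_union_right _ (hβ i)))
  choose lab hlab using hβ1
  let idx : Fin F.card → Fin E1.card ⊕ Qidx := fun i =>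
    Sum.elim (fun _ => Sum.inl (lab i)) Sum.inr (w (z i))
  let t : Fin F.card → T := fun i => Sum.elim (fun p : S.I × T => p.2) (fun _ => va) (w (z i))
  refine ⟨⟨(E1.card, F.card), idx, nε, nδ⟩, E, t, hEinj, hEsurj _ (Finset.mem_insert_self _ _),
    by simp only; linarith, fun y hy => ⟨F.equivFin ⟨y, hy⟩, ?_⟩, ?_⟩
  · have hzy : z (F.equivFin ⟨y, hy⟩) = y := by simp [z]
    have h1 := hw y
    have h2 := hlab (F.equivFin ⟨y, hy⟩)
    simp only [idx, t, β, hzy] at h2 ⊢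
    rcases hwy : w y with ⟨b, t0⟩ | s
    · rw [hwy] at h1 h2
      simp only [Sum.elim_inl] at h1 h2 ⊢
      rw [pt, h2]
      exact h1
    · rw [hwy] at h1
      exact h1
  · intro i l hil t' y hy
    have hl : l = lab i := by
      simp only [idx] at hil
      rcases hwy : w (z i) with p | s
      · rw [hwy] at hil
        exact (Sum.inl.inj hil).symm
      · rw [hwy] at hil
        cases hil
    refine hmod _ (mem_iUnion₂.2 ⟨E l, ?_, t', rfl⟩) y fun γ hγ => ?_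
    · rw [hl, hlab]; exact hβ i
    · obtain ⟨l', rfl⟩ := hEsurj γ (Finset.mem_insert_of_mem (Finset.mem_union_left _ hγ))
      exact (hy l').trans hnδ

theorem core (f : S.I → S.X → ℝ) (hf : ∀ ξ, Continuous (f ξ)) (F : S.I → Finset S.X)
    (ε : S.I → ℝ) (hε : ∀ ξ, 0 < ε ξ) :
    ∃ ξ ξ', ξ < ξ' ∧ ∀ z ∈ F ξ, dist (f ξ' z) (f ξ z) < ε ξ := by
  classical
  have hne := S.sc.nonempty
  have hneT : Nonempty T := ⟨va⟩
  obtain ⟨⟨⟨k, m⟩, idx, nε, nδ⟩, hS1⟩ := S.sc.lpigeon S.sc.large_univ _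
    (fun ξ _ => S.data (f ξ) (hf ξ) ξ (F ξ) (hε ξ))
  set S1 := {ξ ∈ (univ : Set S.I) | _} with hS1def
  simp only at hS1def
  set η : ℝ := 1 / ((nε : ℝ) + 1) with hη
  set δ : ℝ := 1 / ((nδ : ℝ) + 1) with hδ
  have hη0 : 0 < η := by positivity
  have hδ0 : 0 < δ := by positivity
  have hdata : ∀ ξ ∈ S1, ∃ (E : Fin k → S.I) (t : Fin m → T), Injective E ∧ (∃ l, E l = ξ) ∧
      4 * η ≤ ε ξ ∧ (∀ z ∈ F ξ, ∃ i, z = S.pt E (idx i) (t i)) ∧
      ∀ i l, idx i = Sum.inl l → ∀ (t' : T) (y : S.X),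
        (∀ l', dist (y.1 (E l')) (S.ee (E l) t' (E l')) < δ) →
          dist (f ξ y) (f ξ (S.eX (E l) t')) < η := fun ξ hξ => hξ.2
  clear_value S1
  choose! E t hinj hself hηε hpt hmod using hdata
  obtain ⟨S3, hS31, hS3, J, ρ, hρ, hJ⟩ := S.sc.lsplit E hS1
  let φ : S.I → Fin k → C(T, ℝ) := fun ξ l => ⟨fun t => f ξ (S.eX (E ξ l) t),
    (hf ξ).comp (S.continuous_eX _)⟩
  let ψ : S.I → (Fin k → C(T, ℝ)) × (Fin k → Fin k → C(T, ℝ × ℝ)) × (Fin m → T) × (Qidx → ℝ) :=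
    fun ξ => (φ ξ, fun j l => S.uu (E ξ j) (E ξ l), t ξ, fun s => f ξ (S.qX s))
  have i1 : SecondCountableTopology (Fin k → C(T, ℝ)) := inferInstance
  have i2 : SecondCountableTopology (Fin k → Fin k → C(T, ℝ × ℝ)) := inferInstance
  have i3 : SecondCountableTopology ((Fin m → T) × (Qidx → ℝ)) := inferInstance
  obtain ⟨ξ0, -, hcond⟩ := S.sc.lcond ψ hS3
  choose G hG1 hG2 using fun j => exists_flat_section (φ ξ0 j) (range (t ξ0)) (finite_range _)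
  choose pat hpat using fun j l => S.gdense _ (S.flat_uu_comp (E ξ0 j) (E ξ0 l) (hG1 j))
    (δ / 2) (by positivity)
  let sel : Fin m → Qidx := fun i => Sum.elim (fun _ => ⟨0, fun _ => (0, 0)⟩) id (idx i)
  have hO : ∀ᶠ p in 𝓝 (ψ ξ0), (∀ j, dist (p.1 j) (φ ξ0 j) < η) ∧
      (∀ j l, dist (p.2.1 j l) (S.uu (E ξ0 j) (E ξ0 l)) < δ / 2) ∧
      (∀ i j, dist (φ ξ0 j (G j (p.2.2.1 i))) (φ ξ0 j (p.2.2.1 i)) < η) ∧
      ∀ i, dist (p.2.2.2 (sel i)) (f ξ0 (S.qX (sel i))) < η := by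
    refine (eventually_all.2 fun j => ?_).and ((eventually_all.2 fun j =>
      eventually_all.2 fun l => ?_).and ((eventually_all.2 fun i =>
      eventually_all.2 fun j => ?_).and (eventually_all.2 fun i => ?_)))
    · refine (isOpen_lt (by fun_prop) continuous_const).mem_nhds ?_
      simpa [ψ] using hη0
    · refine (isOpen_lt (by fun_prop) continuous_const).mem_nhds ?_
      simpa [ψ] using hδ0
    · refine (isOpen_lt (by fun_prop) continuous_const).mem_nhds ?_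
      have := hG2 j (t ξ0 i) ⟨i, rfl⟩
      simpa [ψ, this] using hη0
    · refine (isOpen_lt (by fun_prop) continuous_const).mem_nhds ?_
      simpa [ψ] using hη0
  have hS4 := hcond _ hO
  obtain ⟨γρ, hγρ⟩ := S.sc.bdd_countable ρ
  have hmove : ∀ γ, ∃ γ', ∀ ξ ∈ S3, γ' < ξ → ∀ l ∈ J, γ < E ξ l := by
    intro γ
    have h1 : ∀ l z, ∃ γ', l ∈ J → ∀ ξ ∈ S3, γ' < ξ → E ξ l ≠ z := by
      intro l z
      by_cases hl : l ∈ J
      · obtain ⟨γ', h'⟩ := hJ l hl z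
        exact ⟨γ', fun _ => h'⟩
      · exact ⟨γ, fun h' => absurd h' hl⟩
    choose b hb using h1
    choose d hd using fun l => S.sc.bdd_seg γ (b l)
    obtain ⟨γ', hγ'⟩ := S.sc.bdd_countable d
    refine ⟨γ', fun ξ hξ hlt l hl => ?_⟩
    by_contra hle
    exact hb l _ hl ξ hξ (((hd l _ (not_lt.1 hle)).trans (hγ' l)).trans hlt) rfl
  let 𝓕 : Set (J → S.I) := {a | ∃ ξ ∈ S3, ((∀ j, dist (φ ξ j) (φ ξ0 j) < η) ∧
      (∀ j l, dist (S.uu (E ξ j) (E ξ l)) (S.uu (E ξ0 j) (E ξ0 l)) < δ / 2) ∧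
      (∀ i j, dist (φ ξ0 j (G j (t ξ i))) (φ ξ0 j (t ξ i)) < η) ∧
      ∀ i, dist (f ξ (S.qX (sel i))) (f ξ0 (S.qX (sel i))) < η) ∧
      γρ < ξ ∧ (∀ l ∈ J, γρ < E ξ l) ∧ a = fun l => E ξ l.1}
  have hbig : Big 𝓕 := by
    intro γ
    obtain ⟨γ', hγ'⟩ := hmove (max γ γρ)
    obtain ⟨ξ, hξ, hξ'⟩ := hS4 (max γ' γρ)
    have := hγ' ξ hξ.1 ((le_max_left _ _).trans_lt hξ')
    exact ⟨_, ⟨ξ, hξ.1, hξ.2, (le_max_right _ _).trans_lt hξ',
      fun l hl => (le_max_right _ _).trans_lt (this l hl), rfl⟩,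
      fun l => (le_max_left _ _).trans_lt (this l.1 l.2)⟩
  obtain ⟨_, ⟨ξ, hξ3, ⟨a1, a2, a3, a4⟩, hξρ, hξJ, rfl⟩, _, ⟨ξ', hξ3', ⟨b1, b2, -, b4⟩, hξρ', hξJ',
    rfl⟩, hlt, hcol⟩ := S.hc J 𝓕 hbig (by
      rintro _ ⟨ξ, hξ, -, -, -, rfl⟩ l l' e
      exact Subtype.ext (hinj ξ (hS31 hξ) e)) (fun j l => pat j.1 l.1)
  have hselfJ : ∀ ζ ∈ S3, γρ < ζ → ∃ l ∈ J, E ζ l = ζ := by
    intro ζ hζ hζ'
    obtain ⟨l, hl⟩ := hself ζ (hS31 hζ)
    refine ⟨l, ?_, hl⟩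
    by_contra hlJ
    have := hγρ l
    rw [← hρ ζ hζ l hlJ, hl] at this
    exact lt_asymm this hζ'
  obtain ⟨l0, hl0, e0⟩ := hselfJ ξ hξ3 hξρ
  obtain ⟨l1, hl1, e1⟩ := hselfJ ξ' hξ3' hξρ'
  refine ⟨ξ, ξ', by simpa [e0, e1] using hlt ⟨l0, hl0⟩ ⟨l1, hl1⟩, fun z hz => ?_⟩
  refine lt_of_lt_of_le ?_ (hηε ξ (hS31 hξ3))
  obtain ⟨i, rfl⟩ := hpt ξ (hS31 hξ3) z hz
  rcases hi : idx i with j | s
  · have c1 : dist (φ ξ j (t ξ i)) (φ ξ0 j (t ξ i)) < η :=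
      (ContinuousMap.dist_apply_le_dist _).trans_lt (a1 j)
    by_cases hj : j ∈ J
    · have c2 : dist (φ ξ' j (G j (t ξ i))) (φ ξ0 j (G j (t ξ i))) < η :=
        (ContinuousMap.dist_apply_le_dist _).trans_lt (b1 j)
      have c3 := a3 i j
      have c4 : dist (f ξ' (S.eX (E ξ j) (t ξ i))) (f ξ' (S.eX (E ξ' j) (G j (t ξ i)))) < η := by
        refine hmod ξ' (hS31 hξ3') i j hi _ _ fun l => ?_
        change dist (S.uu (E ξ j) (E ξ' l) (t ξ i)) (S.uu (E ξ' j) (E ξ' l) (G j (t ξ i))) < δ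
        by_cases hl : l ∈ J
        · have d1 : S.uu (E ξ j) (E ξ' l) = S.g (pat j l) := by
            rw [S.uu_gt (hlt ⟨j, hj⟩ ⟨l, hl⟩)]
            exact congrArg S.g (hcol ⟨j, hj⟩ ⟨l, hl⟩)
          have d2 : dist (S.g (pat j l) (t ξ i)) (S.uu (E ξ0 j) (E ξ0 l) (G j (t ξ i))) < δ / 2 :=
            (ContinuousMap.dist_apply_le_dist (f := S.g (pat j l))
              (g := (S.uu (E ξ0 j) (E ξ0 l)).comp (G j)) _).trans_lt (hpat j l)
          have d3 : dist (S.uu (E ξ' j) (E ξ' l) (G j (t ξ i)))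
              (S.uu (E ξ0 j) (E ξ0 l) (G j (t ξ i))) < δ / 2 :=
            (ContinuousMap.dist_apply_le_dist _).trans_lt (b2 j l)
          rw [d1]
          have := dist_triangle_right (S.g (pat j l) (t ξ i))
            (S.uu (E ξ' j) (E ξ' l) (G j (t ξ i))) (S.uu (E ξ0 j) (E ξ0 l) (G j (t ξ i)))
          linarith
        · rw [hρ ξ' hξ3' l hl, S.uu_lt ((hγρ l).trans (hξJ j hj)),
            S.uu_lt ((hγρ l).trans (hξJ' j hj))]
          simpa using hδ0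
      change dist (f ξ' (S.eX (E ξ j) (t ξ i))) (φ ξ j (t ξ i)) < 4 * η
      change dist (f ξ' (S.eX (E ξ j) (t ξ i))) (φ ξ' j (G j (t ξ i))) < η at c4
      rw [Real.dist_eq, abs_lt] at *
      constructor <;> linarith [c1.1, c1.2, c2.1, c2.2, c3.1, c3.2, c4.1, c4.2]
    · have c2 : dist (φ ξ' j (t ξ i)) (φ ξ0 j (t ξ i)) < η :=
        (ContinuousMap.dist_apply_le_dist _).trans_lt (b1 j)
      have e : E ξ' j = E ξ j := (hρ ξ' hξ3' j hj).trans (hρ ξ hξ3 j hj).symm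
      change dist (f ξ' (S.eX (E ξ j) (t ξ i))) (φ ξ j (t ξ i)) < 4 * η
      change dist (f ξ' (S.eX (E ξ' j) (t ξ i))) _ < η at c2
      rw [e] at c2
      rw [Real.dist_eq, abs_lt] at *
      constructor <;> linarith [c1.1, c1.2, c2.1, c2.2]
  · have c1 := a4 i
    have c2 := b4 i
    have e : sel i = s := by simp [sel, hi]
    rw [e] at c1 c2
    change dist (f ξ' (S.qX s)) (f ξ (S.qX s)) < 4 * η
    rw [Real.dist_eq, abs_lt] at *
    constructor <;> linarith [c1.1, c1.2, c2.1, c2.2]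

theorem small_subcover (𝒰 : Set (Set {f : S.X → ℝ // Continuous f})) (h𝒰 : ∀ U ∈ 𝒰, IsOpen U) :
    ∃ 𝒱 ⊆ 𝒰, #𝒱 < boundingNumber ∧ ⋃₀ 𝒱 = ⋃₀ 𝒰 := by
  classical
  by_contra hcon
  push Not at hcon
  have step : ∀ (j : S.I) (g : ∀ i, i < j → {f : S.X → ℝ // Continuous f} × 𝒰),
      ∃ y : {f : S.X → ℝ // Continuous f} × 𝒰, y.1 ∈ y.2.1 ∧
        ∀ i (hi : i < j), y.1 ∉ (g i hi).2.1 := by
    intro j g
    have hsub : (range fun i : Iio j => (g i.1 i.2).2.1) ⊆ 𝒰 := by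
      rintro _ ⟨i, rfl⟩
      exact (g i.1 i.2).2.2
    have hne := hcon _ hsub (lt_of_le_of_lt mk_range_le (S.sc.seg j))
    have : ¬ ⋃₀ 𝒰 ⊆ ⋃₀ (range fun i : Iio j => (g i.1 i.2).2.1) := fun hs =>
      hne (Subset.antisymm (sUnion_subset_sUnion hsub) hs)
    obtain ⟨y, ⟨U, hU, hyU⟩, hy⟩ := not_subset.1 this
    exact ⟨(y, ⟨U, hU⟩), hyU, fun i hi hm => hy ⟨_, ⟨⟨i, hi⟩, rfl⟩, hm⟩⟩
  choose nxt h1 h2 using step
  let y : S.I → {f : S.X → ℝ // Continuous f} × 𝒰 := (wellFounded_lt (α := S.I)).fix nxt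
  have hy : ∀ j, y j = nxt j (fun i _ => y i) := fun j =>
    (wellFounded_lt (α := S.I)).fix_eq nxt j
  have hy1 : ∀ j, (y j).1 ∈ (y j).2.1 := fun j => by rw [hy j]; exact h1 _ _
  have hy2 : ∀ i j, i < j → (y j).1 ∉ (y i).2.1 := fun i j hij => by
    have := h2 j (fun i _ => y i) i hij
    rwa [← hy j] at this
  choose F ε hε hF using fun j => nhds_cp_basic (y j).1 ((h𝒰 _ (y j).2.2).mem_nhds (hy1 j))
  obtain ⟨ξ, ξ', hlt, h⟩ := S.core (fun j => (y j).1.1) (fun j => (y j).1.2) F ε hε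
  exact hy2 ξ ξ' hlt (hF ξ _ h)

end Setup

end Pool.Agent.P.MP_181197_gt
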