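import Mathlib
import Pool.Agent.P.MP_181197_gt.Space

open Cardinal Set Function Filter Topology

namespace Pool.Agent.P.MP_181197_gt

theorem exists_pos_le_all {κ : Type} [Finite κ] (θ : κ → ℝ) (h : ∀ i, 0 < θ i) :
    ∃ s > 0, ∀ i, s < θ i := by
  have : ∀ᶠ s in 𝓝[>] (0 : ℝ), ∀ i, s < θ i :=
    eventually_all.2 fun i => (eventually_lt_nhds (h i)).filter_mono nhdsWithin_le_nhds
  obtain ⟨s, hs1, hs2⟩ := (this.and self_mem_nhdsWithin).exists
  exact ⟨s, hs2, hs1⟩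

theorem interp {X : Type} [TopologicalSpace X] [T35Space X] (R : Finset X) (O : X → Set X)
    (hO : ∀ z, O z ∈ 𝓝 z) (v : X → ℝ × ℝ) : ∃ h : X → ℝ × ℝ, Continuous h ∧
      (∀ z ∈ R, h z = v z) ∧ ∀ x, h x = 0 ∨ ∃ z ∈ R, x ∈ O z ∧ ∃ a : ℝ, 0 ≤ a ∧ h x = a • v z := by
  classical
  obtain ⟨U, hU, hdisj⟩ := R.finite_toSet.t2_separation
  have hb : ∀ z, ∃ lam : X → ℝ, Continuous lam ∧ lam z = 1 ∧ (∀ x, 0 ≤ lam x) ∧
      ∀ x, lam x ≠ 0 → x ∈ U z ∧ x ∈ O z := by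
    intro z
    obtain ⟨f, hf, hf0, hf1⟩ := CompletelyRegularSpace.completely_regular z
      (U z ∩ interior (O z))ᶜ ((hU z).2.inter isOpen_interior).isClosed_compl
      (fun hc => hc ⟨(hU z).1, mem_interior_iff_mem_nhds.2 (hO z)⟩)
    refine ⟨fun x => 1 - (f x : ℝ), by fun_prop, by simp [hf0], fun x => sub_nonneg.2 (f x).2.2,
      fun x hx => ?_⟩
    by_contra hc
    apply hx
    have : x ∈ (U z ∩ interior (O z))ᶜ := fun hm => hc ⟨hm.1, interior_subset hm.2⟩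
    simp [hf1 this]
  choose lam hl1 hl2 hl3 hl4 using hb
  have key : ∀ x, ∀ z ∈ R, x ∈ U z → ∑ z' ∈ R, lam z' x • v z' = lam z x • v z := by
    intro x z hz hx
    refine Finset.sum_eq_single_of_mem z hz fun z' hz' hne => ?_
    have : lam z' x = 0 := by
      by_contra h0
      exact disjoint_left.1 (hdisj hz' hz hne) (hl4 z' x h0).1 hx
    rw [this, zero_smul]
  refine ⟨fun x => ∑ z ∈ R, lam z x • v z, continuous_finsetSum _ fun z _ => (hl1 z).smul
    continuous_const, fun z hz => ?_, fun x => ?_⟩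
  · simp only [key z z hz (hU z).1, hl2, one_smul]
  · by_cases hx : ∃ z ∈ R, lam z x ≠ 0
    · obtain ⟨z, hz, h0⟩ := hx
      exact Or.inr ⟨z, hz, (hl4 z x h0).2, lam z x, hl3 z x, key x z hz (hl4 z x h0).1⟩
    · push Not at hx
      exact Or.inl (Finset.sum_eq_zero fun z hz => by rw [hx z hz, zero_smul])

theorem Pos.ne_zero {p q r : ℝ × ℝ} (h : Pos p q r) : p ≠ 0 ∧ q ≠ 0 ∧ r ≠ 0 := by
  refine ⟨?_, ?_, ?_⟩ <;> rintro rfl <;> simp [Pos, cr] at h

abbrev Cp (X : Type) [TopologicalSpace X] : Type := {f : X → ℝ // Continuous f}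

def ev {X : Type} [TopologicalSpace X] (y : Cp X × Cp X) (z : X) : ℝ × ℝ := (y.1.1 z, y.2.1 z)

def mkY {X : Type} [TopologicalSpace X] (h : X → ℝ × ℝ) (hh : Continuous h) : Cp X × Cp X :=
  (⟨fun z => (h z).1, hh.fst⟩, ⟨fun z => (h z).2, hh.snd⟩)

theorem continuous_ev_left {X : Type} [TopologicalSpace X] (z : X) :
    Continuous fun y : Cp X × Cp X => ev y z :=
  ((continuous_apply z).comp (continuous_subtype_val.comp continuous_fst)).prodMk
    ((continuous_apply z).comp (continuous_subtype_val.comp continuous_snd))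

theorem continuous_ev_right {X : Type} [TopologicalSpace X] (y : Cp X × Cp X) :
    Continuous (ev y) := y.1.2.prodMk y.2.2

theorem nhds_sq_basic {X : Type} [TopologicalSpace X] (y : Cp X × Cp X) {U : Set (Cp X × Cp X)}
    (hU : U ∈ 𝓝 y) : ∃ (F : Finset X) (ε : ℝ), 0 < ε ∧
      ∀ y' : Cp X × Cp X, (∀ z ∈ F, dist (ev y' z) (ev y z) < ε) → y' ∈ U := by
  classical
  obtain ⟨A, hA, B, hB, hAB⟩ := mem_nhds_prod_iff.1 hU
  obtain ⟨F1, ε1, h1, hF1⟩ := nhds_cp_basic y.1 hA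
  obtain ⟨F2, ε2, h2, hF2⟩ := nhds_cp_basic y.2 hB
  refine ⟨F1 ∪ F2, min ε1 ε2, lt_min h1 h2, fun y' hy' => hAB ⟨hF1 _ fun z hz => ?_,
    hF2 _ fun z hz => ?_⟩⟩
  · have := hy' z (Finset.mem_union_left _ hz)
    rw [Prod.dist_eq, max_lt_iff] at this
    exact this.1.trans_le (min_le_left _ _)
  · have := hy' z (Finset.mem_union_right _ hz)
    rw [Prod.dist_eq, max_lt_iff] at this
    exact this.2.trans_le (min_le_right _ _)

def kk (ρ : ℕ → Bool) (s : Qidx) : ℝ × ℝ :=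
  (((s.2 fun i => ρ i).1 : ℝ), ((s.2 fun i => ρ i).2 : ℝ))

theorem continuous_kk : Continuous kk := by
  refine continuous_pi fun s => ?_
  have h1 : Continuous fun ρ : ℕ → Bool => (fun i : Fin s.1 => ρ i) := by fun_prop
  exact (continuous_of_discreteTopology
    (f := fun w : Fin s.1 → Bool => ((((s.2 w).1 : ℝ), ((s.2 w).2 : ℝ)) : ℝ × ℝ))).comp h1

theorem kk_approx (A : Finset (ℕ → Bool)) (θ : (ℕ → Bool) → ℝ × ℝ) {δ : ℝ} (hδ : 0 < δ) :
    ∃ s : Qidx, ∀ ρ ∈ A, dist (kk ρ s) (θ ρ) < δ := by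
  classical
  have hsep : ∀ᶠ n in atTop, ∀ y ∈ A, ∀ y' ∈ A, (∀ i < n, y i = y' i) → y = y' := by
    rw [Filter.eventually_all_finset]
    intro y _
    rw [Filter.eventually_all_finset]
    intro y' _
    by_cases hyy : y = y'
    · exact Filter.Eventually.of_forall fun _ _ => hyy
    · obtain ⟨i, hi⟩ := ne_iff.1 hyy
      filter_upwards [Filter.eventually_gt_atTop i] with n hn h
      exact absurd (h i hn) hi
  obtain ⟨n, hn⟩ := hsep.exists
  have hq : ∀ p : ℝ × ℝ, ∃ q : ℚ × ℚ, dist (((q.1 : ℝ), (q.2 : ℝ)) : ℝ × ℝ) p < δ := by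
    intro p
    obtain ⟨q1, h1⟩ := exists_rat_near p.1 hδ
    obtain ⟨q2, h2⟩ := exists_rat_near p.2 hδ
    refine ⟨(q1, q2), ?_⟩
    rw [Prod.dist_eq, max_lt_iff, Real.dist_eq, Real.dist_eq, abs_sub_comm, abs_sub_comm (q2 : ℝ)]
    exact ⟨h1, h2⟩
  choose q hq using hq
  refine ⟨⟨n, fun s => if h : ∃ y ∈ A, (fun i : Fin n => y i) = s then q (θ h.choose)
    else (0, 0)⟩, fun y hy => ?_⟩
  have hex : ∃ y' ∈ A, (fun i : Fin n => y' i) = (fun i : Fin n => y i) := ⟨y, hy, rfl⟩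
  have e : hex.choose = y :=
    hn _ hex.choose_spec.1 _ hy fun i hi => congrFun hex.choose_spec.2 ⟨i, hi⟩
  simp only [kk, dif_pos hex, e]
  exact hq _

namespace Setup

variable (S : Setup)

theorem continuous_coord (α : S.I) : Continuous fun z : S.X => z.1 α :=
  (continuous_apply α).comp continuous_subtype_val

def proj (α : S.I) : Cp S.X × Cp S.X := mkY (fun z => z.1 α) (S.continuous_coord α)

def W (β : S.I) : Set (Cp S.X × Cp S.X) :=
  {y | Pos (ev y (S.eX β va)) (ev y (S.eX β vb)) (ev y (S.eX β vc))}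

theorem isOpen_W (β : S.I) : IsOpen (S.W β) :=
  isOpen_pos.preimage ((continuous_ev_left _).prodMk
    ((continuous_ev_left _).prodMk (continuous_ev_left _)))

theorem pos_coord {α β : S.I} (h : Pos (S.uu β α va) (S.uu β α vb) (S.uu β α vc)) : α = β := by
  by_contra hne
  exact S.flat_uu hne _ _ _ h

theorem proj_mem_W {α β : S.I} : S.proj α ∈ S.W β ↔ α = β := by
  refine ⟨fun h => S.pos_coord h, ?_⟩
  rintro rfl
  change Pos (S.uu α α va) (S.uu α α vb) (S.uu α α vc)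
  rw [S.uu_self]
  exact pos_abc

theorem proj_injective : Injective S.proj := fun _ _ e =>
  S.proj_mem_W.1 (e ▸ S.proj_mem_W.2 rfl)

theorem discrete_range : DiscreteTopology (range S.proj) := by
  rw [discreteTopology_iff_isOpen_singleton]
  rintro ⟨_, α, rfl⟩
  refine ⟨S.W α, S.isOpen_W α, ?_⟩
  ext ⟨_, β, rfl⟩
  simp only [mem_preimage, mem_singleton_iff, S.proj_mem_W]
  exact ⟨fun e => Subtype.ext (congrArg S.proj e),
    fun e => S.proj_injective (congrArg Subtype.val e)⟩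

theorem isClosed_range : IsClosed (range S.proj) := by
  classical
  refine isClosed_of_closure_subset fun y hy => ?_
  have hres : Continuous fun (y : Cp S.X × Cp S.X) (s : Qidx) => ev y (S.qX s) :=
    continuous_pi fun s => continuous_ev_left _
  have hcl : IsClosed {y : Cp S.X × Cp S.X | (fun s => ev y (S.qX s)) ∈ range kk} :=
    (isCompact_range continuous_kk).isClosed.preimage hres
  obtain ⟨ρ, hρ⟩ : (fun s => ev y (S.qX s)) ∈ range kk := by
    refine hcl.closure_subset_iff.2 ?_ hy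
    rintro _ ⟨α, rfl⟩
    exact ⟨S.r α, rfl⟩
  have hne := S.sc.nonempty
  have key : ∀ (z : S.X) (v : ℝ × ℝ), (∀ α, S.r α = ρ → z.1 α = v) → ev y z = v := by
    intro z v hv
    refine eq_of_forall_dist_le fun η hη => ?_
    have h1 : ev y ⁻¹' Metric.ball (ev y z) (η / 2) ∈ 𝓝 z :=
      (continuous_ev_right y).continuousAt (Metric.ball_mem_nhds _ (by positivity))
    obtain ⟨V, hV, hVs⟩ := (mem_nhds_subtype _ _ _).1 h1
    obtain ⟨E, δ, hδ, hE⟩ := nhds_pi_basic z.1 hV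
    obtain ⟨s, hs⟩ := kk_approx (insert ρ (E.image S.r))
      (fun ρ' => if ρ' = ρ then v else z.1 (invFun S.r ρ')) (lt_min hδ (half_pos hη))
    have h2 : dist (kk ρ s) v < η / 2 := by
      have := hs ρ (Finset.mem_insert_self _ _)
      rw [if_pos rfl] at this
      exact this.trans_le (min_le_right _ _)
    have h3 : dist (ev y (S.qX s)) (ev y z) < η / 2 := by
      refine hVs (hE (S.qq s) fun α hα => ?_)
      have := hs (S.r α) (Finset.mem_insert_of_mem (Finset.mem_image_of_mem _ hα))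
      have e : (if S.r α = ρ then v else z.1 (invFun S.r (S.r α))) = z.1 α := by
        split_ifs with h
        · exact (hv α h).symm
        · rw [leftInverse_invFun S.hr α]
      rw [e] at this
      exact this.trans_le (min_le_left _ _)
    have h4 : kk ρ s = ev y (S.qX s) := congrFun hρ s
    rw [h4] at h2
    have := dist_triangle_left (ev y z) v (ev y (S.qX s))
    linarith
  by_cases hr : ∃ α, S.r α = ρ
  · obtain ⟨α, hα⟩ := hr
    have : ∀ z, ev y z = z.1 α := fun z => key z _ fun β hβ => by rw [S.hr (hβ.trans hα.symm)]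
    refine ⟨α, Prod.ext (Subtype.ext (funext fun z => ?_)) (Subtype.ext (funext fun z => ?_))⟩
    · exact (congrArg Prod.fst (this z)).symm
    · exact (congrArg Prod.snd (this z)).symm
  · exfalso
    have h0 := key (S.qX ⟨0, fun _ => (0, 0)⟩) 0 fun α h => absurd ⟨α, h⟩ hr
    have h1 := key (S.qX ⟨0, fun _ => (0, 0)⟩) 1 fun α h => absurd ⟨α, h⟩ hr
    exact zero_ne_one (h0.symm.trans h1)

theorem not_normal : ¬ NormalSpace (Cp S.X × Cp S.X) := by
  classical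
  intro hN
  have hB : IsClosed (⋃ β, S.W β)ᶜ := (isOpen_iUnion S.isOpen_W).isClosed_compl
  obtain ⟨U, V, hU, hV, hDU, hBV, hUV⟩ := normal_separation S.isClosed_range hB (by
    rw [disjoint_compl_right_iff_subset]
    rintro _ ⟨α, rfl⟩
    exact mem_iUnion.2 ⟨α, S.proj_mem_W.2 rfl⟩)
  have hneX : Nonempty S.X := ⟨S.qX ⟨0, fun _ => (0, 0)⟩⟩
  obtain ⟨⟨m, nε⟩, hS1⟩ := S.sc.lpigeon S.sc.large_univ
    (fun α (p : ℕ × ℕ) => ∃ hh : Fin p.1 → S.X, ∀ y' : Cp S.X × Cp S.X,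
      (∀ l, dist (ev y' (hh l)) ((hh l).1 α) < 1 / ((p.2 : ℝ) + 1)) → y' ∈ U) (by
    intro α _
    obtain ⟨F, ε, hε, hF⟩ := nhds_sq_basic (S.proj α) (hU.mem_nhds (hDU ⟨α, rfl⟩))
    obtain ⟨n, hn⟩ := exists_nat_one_div_lt hε
    refine ⟨(F.card, n), fun l => (F.equivFin.symm l).1, fun y' hy' => hF y' fun z hz => ?_⟩
    have := hy' (F.equivFin ⟨z, hz⟩)
    simp only [Equiv.symm_apply_apply] at this
    exact this.trans hn)
  set S1 := {ξ ∈ (univ : Set S.I) | _} with hS1def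
  set ε : ℝ := 1 / ((nε : ℝ) + 1) with hε
  have hε0 : 0 < ε := by positivity
  have hdata : ∀ α ∈ S1, ∃ hh : Fin m → S.X, ∀ y' : Cp S.X × Cp S.X,
      (∀ l, dist (ev y' (hh l)) ((hh l).1 α) < ε) → y' ∈ U := fun α hα => hα.2
  clear_value S1
  choose! hh hhh using hdata
  obtain ⟨S3, hS31, hS3, J, ρ, hρ, hJ⟩ := S.sc.lsplit hh hS1
  obtain ⟨α0, -, hcond⟩ := S.sc.lcond (fun α (l : Fin m) => (ρ l).1 α) hS3
  have hO : ∀ᶠ p in 𝓝 (fun l : Fin m => (ρ l).1 α0), (∀ l, dist ((ρ l).1 α0) (p l) < ε) ∧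
      ∀ l1 l2 l3, Pos ((ρ l1).1 α0) ((ρ l2).1 α0) ((ρ l3).1 α0) → Pos (p l1) (p l2) (p l3) := by
    refine (eventually_all.2 fun l => ?_).and (eventually_all.2 fun l1 =>
      eventually_all.2 fun l2 => eventually_all.2 fun l3 => ?_)
    · refine (isOpen_lt (by fun_prop) continuous_const).mem_nhds ?_
      simpa using hε0
    · by_cases hp : Pos ((ρ l1).1 α0) ((ρ l2).1 α0) ((ρ l3).1 α0)
      · have hc : Continuous fun p : Fin m → ℝ × ℝ => (p l1, p l2, p l3) := by fun_prop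
        filter_upwards [(isOpen_pos.preimage hc).mem_nhds hp] with p hp' _ using hp'
      · exact Eventually.of_forall fun _ h => absurd h hp
  have hS4 := hcond _ hO
  obtain ⟨α1, ⟨-, -, hα1⟩, hα01⟩ := hS4 α0
  have hθ : ∀ i : S.I → Prop, ∀ (a : Bool) (l : Fin m × Fin m × Fin m), ∃ θ > 0,
      Pos ((ρ l.1).1 (cond a α0 α1)) ((ρ l.2.1).1 (cond a α0 α1)) ((ρ l.2.2).1 (cond a α0 α1)) →
        ∀ p q r, dist p ((ρ l.1).1 (cond a α0 α1)) < θ → dist q ((ρ l.2.1).1 (cond a α0 α1)) < θ →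
          dist r ((ρ l.2.2).1 (cond a α0 α1)) < θ → Pos p q r := by
    intro _ a l
    by_cases hp : Pos ((ρ l.1).1 (cond a α0 α1)) ((ρ l.2.1).1 (cond a α0 α1))
      ((ρ l.2.2).1 (cond a α0 α1))
    · obtain ⟨θ, hθ, hb⟩ := Metric.isOpen_iff.1 isOpen_pos
        (((ρ l.1).1 (cond a α0 α1)), ((ρ l.2.1).1 (cond a α0 α1)), ((ρ l.2.2).1 (cond a α0 α1))) hp
      refine ⟨θ, hθ, fun _ p q r h1 h2 h3 => hb (a := (p, q, r)) ?_⟩
      simp only [Metric.mem_ball, Prod.dist_eq (x := (p, q, r)), Prod.dist_eq (x := (q, r)),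
        max_lt_iff]
      exact ⟨h1, h2, h3⟩
    · exact ⟨1, one_pos, fun h => absurd h hp⟩
  choose θ hθ0 hθ using hθ (fun _ => True)
  obtain ⟨s, hs0, hs⟩ := exists_pos_le_all (fun i : Bool × (Fin m × Fin m × Fin m) => θ i.1 i.2)
    (fun i => hθ0 _ _)
  let R : Finset S.X := Finset.univ.image ρ
  obtain ⟨h, hc, hR, hshape⟩ := interp R
    (fun z => {x | dist (x.1 α0) (z.1 α0) < s ∧ dist (x.1 α1) (z.1 α1) < s})
    (fun z => ((isOpen_lt ((S.continuous_coord α0).dist continuous_const) continuous_const).inter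
      (isOpen_lt ((S.continuous_coord α1).dist continuous_const) continuous_const)).mem_nhds
      ⟨by simpa using hs0, by simpa using hs0⟩) (fun z => z.1 α0)
  have hyB : mkY h hc ∈ (⋃ β, S.W β)ᶜ := by
    intro hm
    obtain ⟨β, hβ⟩ := mem_iUnion.1 hm
    have hβ' : Pos (h (S.eX β va)) (h (S.eX β vb)) (h (S.eX β vc)) := hβ
    obtain ⟨n1, n2, n3⟩ := hβ'.ne_zero
    obtain ⟨z1, hz1, o1, a1, ha1, e1⟩ := (hshape _).resolve_left n1
    obtain ⟨z2, hz2, o2, a2, ha2, e2⟩ := (hshape _).resolve_left n2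
    obtain ⟨z3, hz3, o3, a3, ha3, e3⟩ := (hshape _).resolve_left n3
    obtain ⟨l1, -, rfl⟩ := Finset.mem_image.1 hz1
    obtain ⟨l2, -, rfl⟩ := Finset.mem_image.1 hz2
    obtain ⟨l3, -, rfl⟩ := Finset.mem_image.1 hz3
    rw [e1, e2, e3] at hβ'
    have p0 := pos_of_smul ha1 ha2 ha3 hβ'
    have p1 := hα1 l1 l2 l3 p0
    have q0 : α0 = β := S.pos_coord (hθ true (l1, l2, l3) p0 _ _ _
      (o1.1.trans (hs (true, l1, l2, l3))) (o2.1.trans (hs (true, l1, l2, l3)))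
      (o3.1.trans (hs (true, l1, l2, l3))))
    have q1 : α1 = β := S.pos_coord (hθ false (l1, l2, l3) p1 _ _ _
      (o1.2.trans (hs (false, l1, l2, l3))) (o2.2.trans (hs (false, l1, l2, l3)))
      (o3.2.trans (hs (false, l1, l2, l3))))
    exact hα01.ne (q0.trans q1.symm)
  obtain ⟨H', ε', hε', hH'⟩ := nhds_sq_basic _ (hV.mem_nhds (hBV hyB))
  have h1 : ∀ (l : Fin m) (z : S.X), ∃ γ, l ∈ J → ∀ ξ ∈ S3, γ < ξ → hh ξ l ≠ z := by
    intro l z
    by_cases hl : l ∈ J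
    · obtain ⟨γ', h'⟩ := hJ l hl z
      exact ⟨γ', fun _ => h'⟩
    · exact ⟨α0, fun h' => absurd h' hl⟩
  choose b hb using h1
  obtain ⟨γ, hγ⟩ := S.sc.bdd_countable (fun p : Fin m × (H' ∪ R : Finset S.X) => b p.1 p.2.1)
  obtain ⟨α, ⟨hα3, hαε, -⟩, hγα⟩ := hS4 γ
  obtain ⟨h', hc', hR', -⟩ := interp (H' ∪ R ∪ Finset.univ.image (hh α)) (fun _ => univ)
    (fun _ => univ_mem) (fun x => if x ∈ H' ∪ R then h x else x.1 α)
  refine disjoint_left.1 hUV (hhh α (hS31 hα3) (mkY h' hc') fun l => ?_) (hH' _ fun z hz => ?_)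
  · change dist (h' (hh α l)) _ < ε
    rw [hR' _ (Finset.mem_union_right _ (Finset.mem_image_of_mem _ (Finset.mem_univ l)))]
    by_cases hl : l ∈ J
    · have : hh α l ∉ H' ∪ R := fun hm =>
        hb l _ hl α hα3 ((hγ (l, ⟨_, hm⟩)).trans hγα) rfl
      rw [if_neg this]
      simpa using hε0
    · have hm : ρ l ∈ R := Finset.mem_image_of_mem _ (Finset.mem_univ l)
      rw [hρ α hα3 l hl, if_pos (Finset.mem_union_right _ hm), hR _ hm]
      exact hαε l
  · change dist (h' z) (h z) < ε'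
    rw [hR' _ (Finset.mem_union_left _ (Finset.mem_union_left _ hz)),
      if_pos (Finset.mem_union_left _ hz)]
    simpa using hε'

end Setup

theorem perfectlyNormal_of_countable {Z : Type} [TopologicalSpace Z] [RegularSpace Z]
    (h : ∀ 𝒰 : Set (Set Z), (∀ U ∈ 𝒰, IsOpen U) → ∃ 𝒱 ⊆ 𝒰, 𝒱.Countable ∧ ⋃₀ 𝒱 = ⋃₀ 𝒰) :
    PerfectlyNormalSpace Z := by
  have hL : LindelofSpace Z := by
    refine ⟨isLindelof_of_countable_subcover fun {ι} U hU hc => ?_⟩
    obtain ⟨𝒱, h1, h2, h3⟩ := h (range U) (by rintro _ ⟨i, rfl⟩; exact hU i)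
    choose idx hidx using fun V : 𝒱 => h1 V.2
    have : Countable 𝒱 := h2.to_subtype
    refine ⟨range idx, countable_range _, fun z hz => ?_⟩
    have hz' : z ∈ ⋃₀ 𝒱 := by rw [h3, sUnion_range]; exact hc hz
    obtain ⟨V, hV, hzV⟩ := hz'
    exact mem_iUnion₂.2 ⟨idx ⟨V, hV⟩, ⟨_, rfl⟩, by rw [hidx]; exact hzV⟩
  refine ⟨fun s hs => ?_⟩
  obtain ⟨𝒱, h1, h2, h3⟩ := h {U | IsOpen U ∧ closure U ⊆ sᶜ} (fun U hU => hU.1)
  have : s = ⋂ U ∈ 𝒱, (closure U)ᶜ := by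
    refine Subset.antisymm (subset_iInter₂ fun U hU => subset_compl_comm.1 (h1 hU).2) ?_
    intro z hz
    by_contra hzs
    obtain ⟨t, ht1, ht2, ht3⟩ := exists_mem_nhds_isClosed_subset (hs.isOpen_compl.mem_nhds hzs)
    have hz' : z ∈ ⋃₀ 𝒱 := by
      rw [h3]
      exact ⟨interior t, ⟨isOpen_interior, (closure_minimal interior_subset ht2).trans ht3⟩,
        mem_interior_iff_mem_nhds.2 ht1⟩
    obtain ⟨U, hU, hzU⟩ := hz'
    exact mem_iInter₂.1 hz U hU (subset_closure hzU)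
  rw [this]
  exact IsGδ.biInter_of_isOpen h2 fun U _ => isClosed_closure.isOpen_compl

theorem main : ∃ (X : Type) (_ : TopologicalSpace X) (_ : T35Space X),
    (∀ 𝒰 : Set (Set (Cp X)), (∀ U ∈ 𝒰, IsOpen U) →
      ∃ 𝒱 ⊆ 𝒰, #𝒱 < boundingNumber ∧ ⋃₀ 𝒱 = ⋃₀ 𝒰) ∧
    (boundingNumber = ℵ₁ → PerfectlyNormalSpace (Cp X)) ∧
    ¬ NormalSpace (Cp X × Cp X) ∧
    ∃ D : Set (Cp X × Cp X), IsClosed D ∧ DiscreteTopology D ∧ #D = boundingNumber := by
  obtain ⟨S⟩ := exists_setup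
  refine ⟨S.X, inferInstance, inferInstance, S.small_subcover, fun hb => ?_, S.not_normal,
    range S.proj, S.isClosed_range, S.discrete_range, ?_⟩
  · refine perfectlyNormal_of_countable fun 𝒰 h𝒰 => ?_
    obtain ⟨𝒱, h1, h2, h3⟩ := S.small_subcover 𝒰 h𝒰
    refine ⟨𝒱, h1, ?_, h3⟩
    rw [hb] at h2
    exact (countable_iff_lt_aleph_one 𝒱).2 h2
  · rw [mk_range_eq _ S.proj_injective, S.sc.card]

end Pool.Agent.P.MP_181197_gt
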